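import Mathlib

/-! Linear group actions on polynomials and power series: definitions. -/

set_option autoImplicit false

namespace Pool.Agent.Lib.MP_1bbd88_ag.Q

open Module MvPolynomial

variable {K : Type*} [Field K] {d : ℕ}

/-- the substitution `f(x) ↦ f(g x)` on polynomials -/
noncomputable def lin (g : Matrix (Fin d) (Fin d) K) :
    MvPolynomial (Fin d) K →ₐ[K] MvPolynomial (Fin d) K :=
  aeval fun i => ∑ j, C (g i j) * X j

theorem eval_lin (g : Matrix (Fin d) (Fin d) K) (f : MvPolynomial (Fin d) K) (w : Fin d → K) :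
    eval w (lin g f) = eval (g.mulVec w) f := by
  induction f using MvPolynomial.induction_on with
  | C a => simp [lin]
  | add f1 f2 h1 h2 => simp [h1, h2]
  | mul_X f i h =>
    rw [map_mul, map_mul, h, map_mul]
    congr 1
    simp [lin, Matrix.mulVec, dotProduct]

theorem lin_X (g : Matrix (Fin d) (Fin d) K) (i : Fin d) :
    lin g (X i) = ∑ j, C (g i j) * X j := by simp [lin]

theorem lin_one : lin (1 : Matrix (Fin d) (Fin d) K) = AlgHom.id K _ := by
  apply MvPolynomial.algHom_ext
  intro i
  rw [lin_X]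
  simp [Matrix.one_apply]

theorem lin_lin (g h : Matrix (Fin d) (Fin d) K) (f : MvPolynomial (Fin d) K) :
    lin h (lin g f) = lin (g * h) f := by
  have : (lin h).comp (lin g) = lin (g * h) := by
    apply MvPolynomial.algHom_ext
    intro i
    rw [AlgHom.comp_apply, lin_X, lin_X, map_sum]
    simp only [map_mul, lin_X, Matrix.mul_apply, map_sum, Finset.sum_mul, Finset.mul_sum]
    rw [Finset.sum_comm]
    refine Finset.sum_congr rfl fun j _ => Finset.sum_congr rfl fun k _ => ?_
    have : lin h (C (g i k)) = C (g i k) := (lin h).commutes _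
    rw [this, mul_assoc]
  exact DFunLike.congr_fun this f

theorem lin_isHomogeneous (g : Matrix (Fin d) (Fin d) K) {f : MvPolynomial (Fin d) K} {n : ℕ}
    (hf : f.IsHomogeneous n) : (lin g f).IsHomogeneous n := by
  have h1 : ∀ i, (∑ j, C (g i j) * X j : MvPolynomial (Fin d) K).IsHomogeneous 1 := by
    intro i
    refine MvPolynomial.IsHomogeneous.sum _ _ _ fun j _ => ?_
    have := (isHomogeneous_C (Fin d) (g i j)).mul (isHomogeneous_X K j)
    rwa [zero_add] at this
  have := MvPolynomial.IsHomogeneous.aeval hf (fun i => ∑ j, C (g i j) * X j) h1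
  rwa [one_mul] at this

/-- the invariant polynomials -/
noncomputable def inv (G : Subgroup (GL (Fin d) K)) : Subalgebra K (MvPolynomial (Fin d) K) where
  carrier := {f | ∀ g ∈ G, lin g.val f = f}
  mul_mem' := fun {a b} ha hb g hg => by rw [map_mul, ha g hg, hb g hg]
  add_mem' := fun {a b} ha hb g hg => by rw [map_add, ha g hg, hb g hg]
  algebraMap_mem' := fun r g _ => (lin g.val).commutes r

/-- the ideal of `K[x]` generated by the invariants without constant term -/
noncomputable def J (G : Subgroup (GL (Fin d) K)) : Ideal (MvPolynomial (Fin d) K) :=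
  Ideal.span {f | f ∈ inv G ∧ constantCoeff f = 0}

/-- the dimension of the algebra of coinvariants -/
noncomputable def N (G : Subgroup (GL (Fin d) K)) : ℕ := finrank K (MvPolynomial (Fin d) K ⧸ J G)

/-- the stabiliser of a vector in `G` -/
def stab (G : Subgroup (GL (Fin d) K)) (v : Fin d → K) : Subgroup (GL (Fin d) K) where
  carrier := {g | g ∈ G ∧ g.val.mulVec v = v}
  mul_mem' := fun {a b} ha hb => ⟨G.mul_mem ha.1 hb.1, by
    rw [Units.val_mul, ← Matrix.mulVec_mulVec, hb.2, ha.2]⟩
  one_mem' := ⟨G.one_mem, by rw [Units.val_one, Matrix.one_mulVec]⟩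
  inv_mem' := fun {a} ha => ⟨G.inv_mem ha.1, by
    conv_lhs => rw [← ha.2]
    rw [Matrix.mulVec_mulVec, ← Units.val_mul, inv_mul_cancel, Units.val_one, Matrix.one_mulVec]⟩

/-- the fixed vectors of `H` -/
def Vfix (H : Subgroup (GL (Fin d) K)) : Submodule K (Fin d → K) where
  carrier := {v | ∀ h ∈ H, h.val.mulVec v = v}
  add_mem' := fun {a b} ha hb h hh => by rw [Matrix.mulVec_add, ha h hh, hb h hh]
  zero_mem' := fun h _ => Matrix.mulVec_zero _
  smul_mem' := fun c v hv h hh => by rw [Matrix.mulVec_smul, hv h hh]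

/-- `H` acts freely outside its fixed space -/
def FreeOff (H : Subgroup (GL (Fin d) K)) : Prop :=
  ∀ h ∈ H, h ≠ 1 → ∀ v : Fin d → K, h.val.mulVec v = v → v ∈ Vfix H

/-- `B` is commutative -/
def Comm {H : Type*} [Group H] (B : Subgroup H) : Prop := ∀ x ∈ B, ∀ y ∈ B, x * y = y * x

/-- the polynomials which `F` multiplies by the character `ψ` -/
noncomputable def semi (F : Subgroup (GL (Fin d) K)) (ψ : F →* Kˣ) :
    Submodule K (MvPolynomial (Fin d) K) where
  carrier := {f | ∀ a : F, lin a.1.val f = C (ψ a : K) * f}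
  add_mem' := fun {f g} hf hg a => by rw [map_add, hf a, hg a, mul_add]
  zero_mem' := fun a => by rw [map_zero, mul_zero]
  smul_mem' := fun c f hf a => by rw [map_smul, hf a, mul_smul_comm]

/-- the dimension of the image of `semi F ψ` in the algebra of coinvariants of `H` -/
noncomputable def mpsi (H F : Subgroup (GL (Fin d) K)) (ψ : F →* Kˣ) : ℕ :=
  finrank K ((semi F ψ).map (Ideal.Quotient.mkₐ K (J H)).toLinearMap)

/-- the substitution `f(x) ↦ f(g x)` on power series -/
noncomputable def act (g : Matrix (Fin d) (Fin d) K) (f : MvPowerSeries (Fin d) K) :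
    MvPowerSeries (Fin d) K :=
  MvPowerSeries.subst (fun i => ∑ j, MvPowerSeries.C (g i j) * MvPowerSeries.X j) f

theorem act_hasSubst (g : Matrix (Fin d) (Fin d) K) : MvPowerSeries.HasSubst
    (fun i => ∑ j, MvPowerSeries.C (g i j) * (MvPowerSeries.X j : MvPowerSeries (Fin d) K)) := by
  refine MvPowerSeries.hasSubst_of_constantCoeff_zero fun i => ?_
  simp

/-- the ring of invariant power series -/
def Inv (G : Subgroup (GL (Fin d) K)) : Subring (MvPowerSeries (Fin d) K) where
  carrier := {f | ∀ g ∈ G, act g.val f = f}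
  mul_mem' := fun {a b} ha hb g hg => by
    rw [act, MvPowerSeries.subst_mul (act_hasSubst _)]
    exact congrArg₂ _ (ha g hg) (hb g hg)
  add_mem' := fun {a b} ha hb g hg => by
    rw [act, MvPowerSeries.subst_add (act_hasSubst _)]
    exact congrArg₂ _ (ha g hg) (hb g hg)
  one_mem' := fun g _ => by
    rw [act, ← MvPowerSeries.coe_substAlgHom (act_hasSubst _), map_one]
  zero_mem' := fun g _ => by
    rw [act, ← MvPowerSeries.coe_substAlgHom (act_hasSubst _), map_zero]
  neg_mem' := fun {a} ha g hg => by
    rw [act, ← MvPowerSeries.coe_substAlgHom (act_hasSubst _), map_neg]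
    have := ha g hg
    rw [act, ← MvPowerSeries.coe_substAlgHom (act_hasSubst _)] at this
    rw [this]

end Pool.Agent.Lib.MP_1bbd88_ag.Q
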