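import Pool.Agent.Lib.MP_1bbd88_ag.Q.Defs

set_option autoImplicit false

namespace Pool.Agent.Lib.MP_1bbd88_ag.Q

open Module MvPolynomial

variable {K : Type*} [Field K] {d : ℕ}

/-- the sum of the dimensions of independent subspaces -/
theorem sum_finrank_le {V : Type*} [AddCommGroup V] [Module K V] [FiniteDimensional K V]
    {ι : Type*} [Fintype ι] (p : ι → Submodule K V) (h : iSupIndep p) :
    ∑ i, finrank K (p i) ≤ finrank K V := by
  classical
  have h1 := (iSupIndep_iff_supIndep_univ (f := p)).1 h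
  have key : ∀ s : Finset ι, finrank K (s.sup p : Submodule K V) = ∑ i ∈ s, finrank K (p i) := by
    intro s
    induction s using Finset.induction_on with
    | empty => simp
    | insert i s hi ih =>
      rw [Finset.sup_insert, Finset.sum_insert hi, ← ih]
      have h2 : Disjoint (p i) (s.sup p) := h1 (Finset.subset_univ s) (Finset.mem_univ i) hi
      have h3 := Submodule.finrank_sup_add_finrank_inf_eq (p i) (s.sup p)
      rw [h2.eq_bot, finrank_bot, add_zero] at h3
      exact h3
  rw [← key]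
  exact Submodule.finrank_le _

/-- the operator of a matrix -/
noncomputable def op (g : GL (Fin d) K) : Module.End K (Fin d → K) := Matrix.toLin' g.val

theorem op_apply (g : GL (Fin d) K) (v : Fin d → K) : op g v = g.val.mulVec v := by
  rw [op, Matrix.toLin'_apply]

theorem op_mul (g h : GL (Fin d) K) : op (g * h) = op g * op h := by
  rw [op, Units.val_mul, Matrix.toLin'_mul]
  rfl

theorem op_one : op (1 : GL (Fin d) K) = 1 := by
  rw [op, Units.val_one, Matrix.toLin'_one]
  rfl

theorem op_pow (g : GL (Fin d) K) (n : ℕ) : op (g ^ n) = op g ^ n := by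
  induction n with
  | zero => rw [pow_zero, pow_zero, op_one]
  | succ n ih => rw [pow_succ, pow_succ, op_mul, ih]

/-- the eigenspace of a function on the commutative group `A` -/
noncomputable def EV (H : Subgroup (GL (Fin d) K)) (A : Subgroup H) (χ : A → K) :
    Submodule K (Fin d → K) := ⨅ a : A, (op a.1.1).eigenspace (χ a)

theorem mem_EV {H : Subgroup (GL (Fin d) K)} {A : Subgroup H} {χ : A → K} {v : Fin d → K} :
    v ∈ EV H A χ ↔ ∀ a : A, op a.1.1 v = χ a • v := by
  rw [EV, Submodule.mem_iInf]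
  exact forall_congr' fun a => Module.End.mem_eigenspace_iff

theorem maxGen_eq (H : Subgroup (GL (Fin d) K)) [Finite H]
    (hH : (Nat.card H : K) ≠ 0) (A : Subgroup H) (a : A) (μ : K) :
    (op a.1.1).maxGenEigenspace μ = (op a.1.1).eigenspace μ := by
  have hss : (op a.1.1).IsSemisimple := by
    refine Module.End.isSemisimple_of_squarefree_aeval_eq_zero
      (p := (Polynomial.X ^ (Nat.card H) - 1 : Polynomial K)) ?_ ?_
    · exact (Polynomial.X_pow_sub_one_separable_iff.2 hH).squarefree
    · rw [map_sub, map_pow, Polynomial.aeval_X, map_one, ← op_pow]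
      have : (a.1.1 : GL (Fin d) K) ^ (Nat.card H) = 1 := by
        have h2 := congrArg Subtype.val (pow_card_eq_one' (x := a.1))
        rw [Subgroup.coe_pow, Subgroup.coe_one] at h2
        exact h2
      rw [this, op_one, sub_self]
  exact hss.isFinitelySemisimple.maxGenEigenspace_eq_eigenspace μ

theorem EV_indep (H : Subgroup (GL (Fin d) K)) [Finite H]
    (hH : (Nat.card H : K) ≠ 0) (A : Subgroup H) (hA : Comm A) :
    iSupIndep (EV H A) := by
  have h := Module.End.independent_iInf_maxGenEigenspace_of_forall_mapsTo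
    (f := fun a : A => op a.1.1) (fun a b φ => Module.End.mapsTo_maxGenEigenspace_of_comm (by
      have := congrArg Subtype.val (hA a.1 a.2 b.1 b.2)
      simp only [Subgroup.coe_mul] at this
      change op b.1.1 * op a.1.1 = op a.1.1 * op b.1.1
      rw [← op_mul, ← op_mul, this]) φ)
  simp only [maxGen_eq H hH A] at h
  exact h

theorem EV_top [IsAlgClosed K] (H : Subgroup (GL (Fin d) K)) [Finite H]
    (hH : (Nat.card H : K) ≠ 0) (A : Subgroup H) (hA : Comm A) :
    ⨆ χ : A → K, EV H A χ = ⊤ := by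
  have h := Module.End.iSup_iInf_maxGenEigenspace_eq_top_of_iSup_maxGenEigenspace_eq_top_of_commute
    (f := fun a : A => op a.1.1) (fun a b _ => by
      have := congrArg Subtype.val (hA a.1 a.2 b.1 b.2)
      simp only [Subgroup.coe_mul] at this
      change op a.1.1 * op b.1.1 = op b.1.1 * op a.1.1
      rw [← op_mul, ← op_mul, this]) (fun a => Module.End.iSup_maxGenEigenspace_eq_top _)
  simp only [maxGen_eq H hH A] at h
  exact h

theorem EV_one (H : Subgroup (GL (Fin d) K)) (hfree : FreeOff H) (A : Subgroup H) (hA1 : A ≠ ⊥) :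
    EV H A 1 = Vfix H := by
  obtain ⟨a, ha1⟩ := Subgroup.ne_bot_iff_exists_ne_one.1 hA1
  ext v
  rw [mem_EV]
  constructor
  · intro h
    refine hfree a.1.1 a.1.2 ?_ v ?_
    · intro h1
      exact ha1 (Subtype.ext (Subtype.ext h1))
    · rw [← op_apply, h a, Pi.one_apply, one_smul]
  · intro h b
    rw [op_apply, Pi.one_apply, one_smul]
    exact h b.1.1 b.1.2

theorem exists_char [IsAlgClosed K] (H : Subgroup (GL (Fin d) K)) [Finite H]
    (hH : (Nat.card H : K) ≠ 0) (hfree : FreeOff H) (hne : Vfix H ≠ ⊤)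
    (A : Subgroup H) (hA1 : A ≠ ⊥) (hA : Comm A) :
    ∃ χ : A → K, χ ≠ 1 ∧ EV H A χ ≠ ⊥ := by
  by_contra hcon
  push Not at hcon
  apply hne
  rw [eq_top_iff, ← EV_top H hH A hA]
  refine iSup_le fun χ => ?_
  by_cases h : χ = 1
  · rw [h, EV_one H hfree A hA1]
  · rw [hcon χ h]
    exact bot_le

/-- the character as a homomorphism -/
theorem char_mul (H : Subgroup (GL (Fin d) K)) (A : Subgroup H) (χ : A → K)
    (h : EV H A χ ≠ ⊥) : χ 1 = 1 ∧ ∀ a b, χ (a * b) = χ a * χ b := by
  obtain ⟨v, hv, hv0⟩ := Submodule.exists_mem_ne_zero_of_ne_bot h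
  rw [mem_EV] at hv
  constructor
  · have h1 := hv 1
    rw [Subgroup.coe_one, Subgroup.coe_one, op_one, Module.End.one_apply] at h1
    have h2 : (χ 1 - 1) • v = 0 := by rw [sub_smul, one_smul, ← h1, sub_self]
    rcases smul_eq_zero.1 h2 with h3 | h3
    · exact sub_eq_zero.1 h3
    · exact absurd h3 hv0
  · intro a b
    have h1 := hv (a * b)
    rw [Subgroup.coe_mul, Subgroup.coe_mul, op_mul, Module.End.mul_apply, hv b, map_smul, hv a,
      smul_smul] at h1
    have h2 : (χ (a * b) - χ b * χ a) • v = 0 := by rw [sub_smul, ← h1, sub_self]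
    rcases smul_eq_zero.1 h2 with h3 | h3
    · rw [sub_eq_zero.1 h3, mul_comm]
    · exact absurd h3 hv0

theorem char_inj (H : Subgroup (GL (Fin d) K)) (hfree : FreeOff H) (A : Subgroup H) (χ : A → K)
    (h1 : χ ≠ 1) (h : EV H A χ ≠ ⊥) : Function.Injective χ := by
  obtain ⟨hχ1, hχm⟩ := char_mul H A χ h
  obtain ⟨v, hv, hv0⟩ := Submodule.exists_mem_ne_zero_of_ne_bot h
  rw [mem_EV] at hv
  have hker : ∀ a, χ a = 1 → a = 1 := by
    intro a ha
    by_contra hane
    have hfix : v ∈ Vfix H := by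
      refine hfree a.1.1 a.1.2 ?_ v ?_
      · intro h2
        exact hane (Subtype.ext (Subtype.ext h2))
      · rw [← op_apply, hv a, ha, one_smul]
    apply h1
    funext b
    have h3 := hv b
    rw [op_apply, hfix b.1.1 b.1.2] at h3
    have h2 : (χ b - 1) • v = 0 := by rw [sub_smul, one_smul, ← h3, sub_self]
    rcases smul_eq_zero.1 h2 with h3 | h3
    · exact sub_eq_zero.1 h3
    · exact absurd h3 hv0
  let f : A →* K := ⟨⟨χ, hχ1⟩, hχm⟩
  exact (injective_iff_map_eq_one f).2 hker

/-- ROW 1bbd-QB -/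
theorem QB_cyc [IsAlgClosed K] (H : Subgroup (GL (Fin d) K)) [Finite H]
    (hH : (Nat.card H : K) ≠ 0) (hfree : FreeOff H) (hne : Vfix H ≠ ⊤)
    (B : Subgroup H) (hc : Comm B) : IsCyclic B := by
  by_cases hB : B = ⊥
  · subst hB
    infer_instance
  · obtain ⟨χ, h1, h2⟩ := exists_char H hH hfree hne B hB hc
    obtain ⟨hχ1, hχm⟩ := char_mul H B χ h2
    let f : B →* K := ⟨⟨χ, hχ1⟩, hχm⟩
    exact isCyclic_of_injective_ringHom f (char_inj H hfree B χ h1 h2)

/-- conjugate character -/
def conjChar (H : Subgroup (GL (Fin d) K)) (A : Subgroup H) (hAn : A.Normal) (χ : A → K) (h : H) :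
    A → K := fun a => χ ⟨h * a.1 * h⁻¹, hAn.conj_mem a.1 a.2 h⟩

theorem EV_conj (H : Subgroup (GL (Fin d) K)) (A : Subgroup H) (hAn : A.Normal) (χ : A → K)
    (h : H) {v : Fin d → K} (hv : v ∈ EV H A χ) :
    op (h⁻¹).1 v ∈ EV H A (conjChar H A hAn χ h) := by
  rw [mem_EV] at hv ⊢
  intro a
  have h1 := hv ⟨h * a.1 * h⁻¹, hAn.conj_mem a.1 a.2 h⟩
  have h2 : a.1.1 * (h⁻¹).1 = (h⁻¹).1 * (h * a.1 * h⁻¹ : H).1 := by
    rw [← Subgroup.coe_mul, ← Subgroup.coe_mul]
    congr 1
    group
  rw [← Module.End.mul_apply, ← op_mul, h2, op_mul, Module.End.mul_apply, h1, map_smul]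
  rfl

theorem op_inj (g : GL (Fin d) K) : Function.Injective (op g) := by
  intro v w h
  have h1 := congrArg (op g⁻¹) h
  rw [← Module.End.mul_apply, ← Module.End.mul_apply, ← op_mul, inv_mul_cancel, op_one] at h1
  exact h1

theorem QB_index [IsAlgClosed K] (H : Subgroup (GL (Fin d) K)) [Finite H]
    (hH : (Nat.card H : K) ≠ 0) (hfree : FreeOff H) (d' : ℕ)
    (hd' : finrank K (Vfix H) + d' = d) (A : Subgroup H) (hAn : A.Normal) (hA1 : A ≠ ⊥)
    (hAc : Comm A) :
    (Subgroup.centralizer (A : Set H)).index ≤ d' ∧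
      (¬ Comm (Subgroup.centralizer (A : Set H)) →
        2 * (Subgroup.centralizer (A : Set H)).index ≤ d') := by
  classical
  have hne : Vfix H ≠ ⊤ := by
    intro htop
    apply hA1
    rw [Subgroup.eq_bot_iff_forall]
    intro a ha
    apply Subtype.ext
    apply Units.ext
    apply Matrix.toLin'.injective
    apply LinearMap.ext
    intro v
    have : v ∈ Vfix H := by rw [htop]; trivial
    have h2 := this a.1 a.2
    rw [Matrix.toLin'_apply, h2]
    simp
  obtain ⟨χ, hχ1, hχ0⟩ := exists_char H hH hfree hne A hA1 hAc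
  have hinj := char_inj H hfree A χ hχ1 hχ0
  obtain ⟨hc1, hcm⟩ := char_mul H A χ hχ0
  set C := Subgroup.centralizer (A : Set H) with hC
  -- the family of characters
  have hconj_iff : ∀ h h' : H, conjChar H A hAn χ h = conjChar H A hAn χ h' ↔ h⁻¹ * h' ∈ C := by
    intro h h'
    rw [hC, Subgroup.mem_centralizer_iff]
    constructor
    · intro heq a ha
      have h1 := congrFun heq ⟨a, ha⟩
      have h2 := congrArg Subtype.val (hinj h1)
      simp only at h2
      calc a * (h⁻¹ * h') = h⁻¹ * (h * a * h⁻¹) * h' := by group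
        _ = h⁻¹ * (h' * a * h'⁻¹) * h' := by rw [h2]
        _ = (h⁻¹ * h') * a := by group
    · intro hcent
      funext a
      unfold conjChar
      congr 1
      apply Subtype.ext
      have h2 := hcent a.1 a.2
      change h * a.1 * h⁻¹ = h' * a.1 * h'⁻¹
      calc h * a.1 * h⁻¹ = h * (a.1 * (h⁻¹ * h')) * h'⁻¹ := by group
        _ = h * ((h⁻¹ * h') * a.1) * h'⁻¹ := by rw [h2]
        _ = h' * a.1 * h'⁻¹ := by group
  let φ : Option (H ⧸ C) → (A → K) := fun o => o.elim 1 (fun q => conjChar H A hAn χ q.out)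
  have hφinj : Function.Injective φ := by
    have hne1 : ∀ h : H, conjChar H A hAn χ h ≠ 1 := by
      intro h heq
      apply hχ1
      funext a
      have hmem : h⁻¹ * a.1 * h ∈ A := by
        have := hAn.conj_mem a.1 a.2 h⁻¹
        rwa [inv_inv] at this
      have h1 := congrFun heq ⟨h⁻¹ * a.1 * h, hmem⟩
      unfold conjChar at h1
      have h2 : (⟨h * (h⁻¹ * a.1 * h) * h⁻¹, hAn.conj_mem _ hmem h⟩ : A) = a := by
        apply Subtype.ext
        change h * (h⁻¹ * a.1 * h) * h⁻¹ = a.1
        group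
      simp only at h1
      rw [h2] at h1
      exact h1
    rintro (_ | q) (_ | q') h
    · rfl
    · exact absurd h.symm (hne1 _)
    · exact absurd h (hne1 _)
    · have h1 := (hconj_iff q.out q'.out).1 h
      have h2 : (q.out : H ⧸ C) = (q'.out : H ⧸ C) := QuotientGroup.eq.2 h1
      rw [QuotientGroup.out_eq', QuotientGroup.out_eq'] at h2
      rw [h2]
  have hindep : iSupIndep (fun o => EV H A (φ o)) := (EV_indep H hH A hAc).comp hφinj
  have : Fintype (H ⧸ C) := Fintype.ofFinite _
  have hsum := sum_finrank_le (fun o => EV H A (φ o)) hindep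
  rw [Fintype.sum_option] at hsum
  have hnone : EV H A (φ none) = Vfix H := EV_one H hfree A hA1
  have hq : ∀ q : H ⧸ C, finrank K (EV H A χ) ≤ finrank K (EV H A (φ (some q))) := by
    intro q
    let g : EV H A χ →ₗ[K] EV H A (φ (some q)) :=
      ((op (q.out⁻¹).1).comp (EV H A χ).subtype).codRestrict _
        (fun v => EV_conj H A hAn χ q.out v.2)
    refine LinearMap.finrank_le_finrank_of_injective (f := g) ?_
    intro v w hvw
    have h1 := congrArg Subtype.val hvw
    exact Subtype.ext (op_inj _ h1)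
  have hidx : C.index = Fintype.card (H ⧸ C) := by
    rw [Subgroup.index, Nat.card_eq_fintype_card]
  have hle : C.index * finrank K (EV H A χ) ≤ d' := by
    have h1 : ∑ q : H ⧸ C, finrank K (EV H A χ) ≤ ∑ q : H ⧸ C, finrank K (EV H A (φ (some q))) :=
      Finset.sum_le_sum fun q _ => hq q
    rw [Finset.sum_const, Finset.card_univ, smul_eq_mul, ← hidx] at h1
    rw [hnone, Module.finrank_fin_fun] at hsum
    omega
  have hpos : 1 ≤ finrank K (EV H A χ) := by
    rw [Nat.one_le_iff_ne_zero]
    intro h0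
    exact hχ0 (Submodule.finrank_eq_zero.1 h0)
  refine ⟨(Nat.le_mul_of_pos_right _ hpos).trans hle, fun hnc => ?_⟩
  have h2 : 2 ≤ finrank K (EV H A χ) := by
    by_contra hlt
    have h1 : finrank K (EV H A χ) = 1 := by omega
    apply hnc
    obtain ⟨v, hv, hv0⟩ := Submodule.exists_mem_ne_zero_of_ne_bot hχ0
    -- `C` acts on the line
    have hline : ∀ x ∈ C, ∃ c : K, op x.1 v = c • v := by
      intro x hx
      have hxv : op x.1 v ∈ EV H A χ := by
        rw [mem_EV] at hv ⊢
        intro a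
        rw [hC, Subgroup.mem_centralizer_iff] at hx
        have h3 : a.1.1 * x.1 = x.1 * a.1.1 := by
          rw [← Subgroup.coe_mul, ← Subgroup.coe_mul, hx a.1 a.2]
        rw [← Module.End.mul_apply, ← op_mul, h3, op_mul, Module.End.mul_apply, hv a, map_smul]
      obtain ⟨c, hc⟩ := (finrank_eq_one_iff_of_nonzero' (⟨v, hv⟩ : EV H A χ)
        (fun h => hv0 (congrArg Subtype.val h))).1 h1 ⟨_, hxv⟩
      exact ⟨c, (congrArg Subtype.val hc).symm⟩
    intro x hx y hy
    obtain ⟨c, hc⟩ := hline x hx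
    obtain ⟨c', hc'⟩ := hline y hy
    by_contra hxy
    have hfixv : v ∈ Vfix H := by
      refine hfree ((y * x)⁻¹ * (x * y)).1 ((y * x)⁻¹ * (x * y)).2 ?_ v ?_
      · intro h3
        have h4 : (y * x)⁻¹ * (x * y) = 1 := Subtype.ext h3
        exact hxy (inv_mul_eq_one.1 h4).symm
      · rw [← op_apply, Subgroup.coe_mul, op_mul, Module.End.mul_apply, Subgroup.coe_mul, op_mul,
          Module.End.mul_apply, hc', map_smul, hc, smul_smul]
        apply op_inj (y * x : H).1
        rw [← Module.End.mul_apply, ← op_mul, ← Subgroup.coe_mul, mul_inv_cancel, Subgroup.coe_one,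
          op_one, Module.End.one_apply, Subgroup.coe_mul, op_mul, Module.End.mul_apply, hc,
          map_smul, hc', smul_smul, mul_comm]
    have hv1 : v ∈ EV H A 1 := by rw [EV_one H hfree A hA1]; exact hfixv
    apply hχ1
    funext a
    have h3 := (mem_EV.1 hv) a
    rw [(mem_EV.1 hv1) a, Pi.one_apply, one_smul] at h3
    have h4 : (χ a - 1) • v = 0 := by rw [sub_smul, one_smul, ← h3, sub_self]
    rcases smul_eq_zero.1 h4 with h5 | h5
    · exact sub_eq_zero.1 h5
    · exact absurd h5 hv0
  calc 2 * C.index = C.index * 2 := mul_comm _ _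
    _ ≤ C.index * finrank K (EV H A χ) := Nat.mul_le_mul_left _ h2
    _ ≤ d' := hle

end Pool.Agent.Lib.MP_1bbd88_ag.Q
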