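import Pool.Agent.Lib.MP_1bbd88_ag.Q.Defs

set_option autoImplicit false

namespace Pool.Agent.Lib.MP_1bbd88_ag.Q

open Module MvPolynomial

universe u

/-- the rows of `M` are linearly independent modulo `Q` -/
def QC_LI {A : Type u} [CommRing A] {ι κ : Type} [Fintype ι] (M : ι → κ → A) (Q : Ideal A) :
    Prop :=
  ∀ c : ι → A, (∀ j, ∑ i, c i * M i j ∈ Q) → ∀ i, c i ∈ Q

section Elim

variable {A : Type u} [CommRing A] {ι κ : Type} [Fintype ι] [DecidableEq ι]

lemma QC_sum (i0 : ι) (f : ι → A) : ∑ i, f i = f i0 + ∑ i : {i // i ≠ i0}, f i := by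
  rw [← Finset.add_sum_erase _ _ (Finset.mem_univ i0)]
  congr 1
  refine (Finset.sum_subtype (Finset.univ.erase i0) (fun i => ?_) f)
  simp

/-- elimination of a row and a column -/
def QC_M (M : ι → κ → A) (i0 : ι) (j0 : κ) : {i // i ≠ i0} → {j // j ≠ j0} → A :=
  fun i j => M i0 j0 * M i j - M i j0 * M i0 j

lemma QC_elim (M : ι → κ → A) (i0 : ι) (j0 : κ) (Q : Ideal A) [hQ : Q.IsPrime]
    (hu : M i0 j0 ∉ Q) : QC_LI (QC_M M i0 j0) Q ↔ QC_LI M Q := by
  constructor
  · intro h c hc
    have key : ∀ i : {i // i ≠ i0}, c i ∈ Q := by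
      refine h (fun i => c i) (fun j => ?_)
      have h1 := hc j
      have h2 := hc j0
      rw [QC_sum i0] at h1 h2
      have e : ∑ i : {i // i ≠ i0}, c i * QC_M M i0 j0 i j =
          M i0 j0 * (c i0 * M i0 j + ∑ i : {i // i ≠ i0}, c i * M i j) -
          M i0 j * (c i0 * M i0 j0 + ∑ i : {i // i ≠ i0}, c i * M i j0) := by
        have e1 : ∑ i : {i // i ≠ i0}, c i * QC_M M i0 j0 i j =
            M i0 j0 * ∑ i : {i // i ≠ i0}, c i * M i j -
            M i0 j * ∑ i : {i // i ≠ i0}, c i * M i j0 := by
          rw [Finset.mul_sum, Finset.mul_sum, ← Finset.sum_sub_distrib]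
          refine Finset.sum_congr rfl fun i _ => ?_
          simp only [QC_M]
          ring
        rw [e1]
        ring
      rw [e]
      exact Q.sub_mem (Q.mul_mem_left _ h1) (Q.mul_mem_left _ h2)
    intro i
    by_cases hi : i = i0
    · subst hi
      have h2 := hc j0
      rw [QC_sum i] at h2
      have h3 : ∑ k : {k // k ≠ i}, c k * M k j0 ∈ Q :=
        Q.sum_mem fun k _ => Q.mul_mem_right _ (key k)
      have h4 : c i * M i j0 ∈ Q := (Q.add_mem_iff_left h3).1 h2
      exact (hQ.mem_or_mem h4).resolve_right hu
    · exact key ⟨i, hi⟩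
  · intro h c hc i
    have h1 := h (fun i => if hi : i = i0 then - ∑ k : {k // k ≠ i0}, c k * M k j0
      else M i0 j0 * c ⟨i, hi⟩) (by
      intro j
      rw [QC_sum i0]
      have e1 : ∑ i : {i // i ≠ i0}, (if hi : (i : ι) = i0 then
          - ∑ k : {k // k ≠ i0}, c k * M k j0 else M i0 j0 * c ⟨i, hi⟩) * M i j =
          ∑ i : {i // i ≠ i0}, M i0 j0 * c i * M i j := by
        refine Finset.sum_congr rfl fun i _ => ?_
        rw [dif_neg i.2]
      rw [e1, dif_pos rfl]
      by_cases hj : j = j0
      · subst hj
        have e2 : (-∑ k : {k // k ≠ i0}, c k * M k j) * M i0 j +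
            ∑ i : {i // i ≠ i0}, M i0 j * c i * M i j = 0 := by
          have : ∑ i : {i // i ≠ i0}, M i0 j * c i * M i j =
              M i0 j * ∑ k : {k // k ≠ i0}, c k * M k j := by
            rw [Finset.mul_sum]
            refine Finset.sum_congr rfl fun i _ => ?_
            ring
          rw [this]
          ring
        rw [e2]
        exact Q.zero_mem
      · have h2 := hc ⟨j, hj⟩
        have e2 : (-∑ k : {k // k ≠ i0}, c k * M k j0) * M i0 j +
            ∑ i : {i // i ≠ i0}, M i0 j0 * c i * M i j =
            ∑ i : {i // i ≠ i0}, c i * QC_M M i0 j0 i ⟨j, hj⟩ := by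
          rw [neg_mul, Finset.sum_mul, neg_add_eq_sub, ← Finset.sum_sub_distrib]
          refine Finset.sum_congr rfl fun i _ => ?_
          simp only [QC_M]
          ring
        rw [e2]
        exact h2) i
    simp only [dif_neg i.2] at h1
    exact (hQ.mem_or_mem h1).resolve_left hu

end Elim

lemma QC_mono {A : Type u} [CommRing A] : ∀ (n : ℕ) (ι κ : Type) [Fintype ι]
    (_ : Fintype.card ι = n) (M : ι → κ → A) (Q Q' : Ideal A) [Q.IsPrime] [Q'.IsPrime],
    Q ≤ Q' → QC_LI M Q' → QC_LI M Q := by
  intro n
  induction n with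
  | zero =>
    intro ι κ _ hι M Q Q' _ _ _ _ c _ i
    have := Fintype.card_eq_zero_iff.1 hι
    exact this.elim i
  | succ n ih =>
    intro ι κ _ hι M Q Q' hQ hQ' hle h
    classical
    obtain ⟨i0⟩ : Nonempty ι := Fintype.card_pos_iff.1 (by omega)
    obtain ⟨j0, hj0⟩ : ∃ j0, M i0 j0 ∉ Q' := by
      by_contra hcon
      push Not at hcon
      have h1 := h (Pi.single i0 1) (by
        intro j
        rw [QC_sum i0, Pi.single_eq_same, one_mul]
        refine Q'.add_mem (hcon j) (Q'.sum_mem fun i _ => ?_)
        rw [Pi.single_eq_of_ne i.2, zero_mul]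
        exact Q'.zero_mem) i0
      rw [Pi.single_eq_same] at h1
      exact hQ'.ne_top ((Ideal.eq_top_iff_one _).2 h1)
    rw [← QC_elim M i0 j0 Q (fun h' => hj0 (hle h'))]
    rw [← QC_elim M i0 j0 Q' hj0] at h
    refine ih _ _ ?_ _ Q Q' hle h
    rw [Fintype.card_subtype_compl, Fintype.card_subtype_eq, hι]
    rfl

lemma QC_height_map {A : Type u} [CommRing A] (P : Ideal A) [P.IsPrime] :
    P.height ≤ (P.map (Polynomial.C : A →+* Polynomial A)).height := by
  have hprime : ∀ Q : PrimeSpectrum A, (Q.asIdeal.map (Polynomial.C : A →+* Polynomial A)).IsPrime :=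
    fun Q => by
    have := Q.2
    exact Ideal.isPrime_map_C_of_isPrime
  let f : PrimeSpectrum A → PrimeSpectrum (Polynomial A) := fun Q =>
    ⟨Q.asIdeal.map Polynomial.C, hprime Q⟩
  have hf : StrictMono f := by
    intro Q Q' h
    rw [← PrimeSpectrum.asIdeal_lt_asIdeal] at h ⊢
    refine lt_of_le_of_ne (Ideal.map_mono h.le) ?_
    intro e
    apply h.not_ge
    intro x hx
    have h1 : Polynomial.C x ∈ Q.asIdeal.map (Polynomial.C : A →+* Polynomial A) := by
      rw [show Q.asIdeal.map (Polynomial.C : A →+* Polynomial A) = _ from e]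
      exact Ideal.mem_map_of_mem _ hx
    have h2 := Ideal.mem_map_C_iff.1 h1 0
    rwa [Polynomial.coeff_C_zero] at h2
  have h1 := Order.height_le_height_apply_of_strictMono f hf ⟨P, inferInstance⟩
  rw [← PrimeSpectrum.height_eq_orderHeight, ← PrimeSpectrum.height_eq_orderHeight] at h1
  exact h1

theorem QC_height : ∀ (r : ℕ) (A : Type u) [CommRing A] [IsNoetherianRing A] (ι κ : Type)
    [Fintype ι] [Fintype κ] (_ : Fintype.card ι = r) (_ : r ≤ Fintype.card κ) (M : ι → κ → A)
    (P : Ideal A) [P.IsPrime], ¬ QC_LI M P → (∀ Q : Ideal A, Q.IsPrime → Q < P → QC_LI M Q) →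
    P.height + r ≤ (Fintype.card κ : ℕ∞) + 1 := by
  intro r
  induction r with
  | zero =>
    intro A _ _ ι κ _ _ hι _ M P _ h _
    exfalso
    apply h
    intro c _ i
    have := Fintype.card_eq_zero_iff.1 hι
    exact this.elim i
  | succ r ih =>
    intro A _ _ ι κ _ _ hι hκ M P hP hno hQ
    classical
    -- an entry outside `P`
    have elimcase : ∀ (B : Type u) [CommRing B] [IsNoetherianRing B] (N : ι → κ → B)
        (P : Ideal B) [P.IsPrime], ¬ QC_LI N P →
        (∀ Q : Ideal B, Q.IsPrime → Q < P → QC_LI N Q) → (∃ i j, N i j ∉ P) →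
        P.height + ((r + 1 : ℕ) : ℕ∞) ≤ (Fintype.card κ : ℕ∞) + 1 := by
      rintro B _ _ N P hP hno hQ ⟨i0, j0, hu⟩
      have h1 := ih B {i // i ≠ i0} {j // j ≠ j0} (by
        rw [Fintype.card_subtype_compl, Fintype.card_subtype_eq, hι]
        rfl) (by
        rw [Fintype.card_subtype_compl, Fintype.card_subtype_eq]
        omega) (QC_M N i0 j0) P (by rwa [QC_elim N i0 j0 P hu]) (by
        intro Q hQp hlt
        rw [QC_elim N i0 j0 Q (fun h' => hu (hlt.le h'))]
        exact hQ Q hQp hlt)
      have h2 : Fintype.card {j // j ≠ j0} + 1 = Fintype.card κ := by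
        rw [Fintype.card_subtype_compl, Fintype.card_subtype_eq]
        omega
      have h3 : (Fintype.card {j // j ≠ j0} : ℕ∞) + 1 = (Fintype.card κ : ℕ∞) := by
        rw [← h2]
        push_cast
        rfl
      rw [h3] at h1
      push_cast
      rw [← add_assoc]
      gcongr
    by_cases h : ∃ i j, M i j ∉ P
    · exact elimcase A M P hno hQ h
    push Not at h
    rcases Nat.eq_zero_or_pos r with rfl | hr
    · -- one row
      obtain ⟨i0⟩ : Nonempty ι := Fintype.card_pos_iff.1 (by omega)
      have hmin : P ∈ (Ideal.span (Set.range (M i0))).minimalPrimes := by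
        refine ⟨⟨hP, ?_⟩, ?_⟩
        · rw [Ideal.span_le]
          rintro _ ⟨j, rfl⟩
          exact h i0 j
        · rintro Q ⟨hQp, hQs⟩ hQP
          by_contra hcon
          have hlt : Q < P := lt_of_le_not_ge hQP hcon
          have h1 := hQ Q hQp hlt (Pi.single i0 1) (by
            intro j
            rw [QC_sum i0, Pi.single_eq_same, one_mul]
            refine Q.add_mem (hQs (Ideal.subset_span ⟨j, rfl⟩)) (Q.sum_mem fun i _ => ?_)
            rw [Pi.single_eq_of_ne i.2, zero_mul]
            exact Q.zero_mem) i0
          rw [Pi.single_eq_same] at h1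
          exact hQp.ne_top ((Ideal.eq_top_iff_one _).2 h1)
      have h1 := Ideal.height_le_card_of_mem_minimalPrimes_span (Set.finite_range _) hmin
      have h2 : (Set.range (M i0)).ncard ≤ Fintype.card κ := by
        rw [← Set.image_univ]
        refine (Set.ncard_image_le Set.finite_univ).trans ?_
        rw [Set.ncard_univ, Nat.card_eq_fintype_card]
      have h3 : P.height ≤ (Fintype.card κ : ℕ∞) := h1.trans (by exact_mod_cast h2)
      push_cast
      gcongr
    · -- the generic entry
      obtain ⟨i0, i1, h01⟩ : ∃ i0 i1 : ι, i0 ≠ i1 := by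
        have := Fintype.one_lt_card_iff.1 (show 1 < Fintype.card ι by omega)
        exact this
      obtain ⟨j0⟩ : Nonempty κ := Fintype.card_pos_iff.1 (by omega)
      let N : ι → κ → Polynomial A := fun i j => Polynomial.C (M i j) +
        if i = i0 ∧ j = j0 then Polynomial.X else 0
      have hP' : (P.map (Polynomial.C : A →+* Polynomial A)).IsPrime :=
        Ideal.isPrime_map_C_of_isPrime
      have hCP : ∀ a : A, Polynomial.C a ∈ P.map (Polynomial.C : A →+* Polynomial A) ↔ a ∈ P := by
        intro a
        constructor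
        · intro h'
          have := Ideal.mem_map_C_iff.1 h' 0
          rwa [Polynomial.coeff_C_zero] at this
        · exact fun h' => Ideal.mem_map_of_mem _ h'
      have hXP : (Polynomial.X : Polynomial A) ∉ P.map (Polynomial.C : A →+* Polynomial A) := by
        intro h'
        have := Ideal.mem_map_C_iff.1 h' 1
        rw [Polynomial.coeff_X_one] at this
        exact hP.ne_top ((Ideal.eq_top_iff_one _).2 this)
      have hno' : ¬ QC_LI N (P.map (Polynomial.C : A →+* Polynomial A)) := by
        intro h'
        have h1 := h' (Pi.single i1 1) (by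
          intro j
          rw [QC_sum i1, Pi.single_eq_same, one_mul]
          refine Ideal.add_mem _ ?_ (Ideal.sum_mem _ fun i _ => ?_)
          · have : N i1 j = Polynomial.C (M i1 j) := by
              simp only [N]
              rw [if_neg (fun h'' => h01 h''.1.symm), add_zero]
            rw [this, hCP]
            exact h i1 j
          · rw [Pi.single_eq_of_ne i.2, zero_mul]
            exact Ideal.zero_mem _) i1
        rw [Pi.single_eq_same] at h1
        exact hP'.ne_top ((Ideal.eq_top_iff_one _).2 h1)
      -- the ideal `(P, X)`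
      let 𝔫 : Ideal (Polynomial A) := P.comap (Polynomial.evalRingHom 0)
      have h𝔫 : 𝔫.IsPrime := Ideal.comap_isPrime _ _
      have hm𝔫 : ∀ f : Polynomial A, f ∈ 𝔫 ↔ f.coeff 0 ∈ P := by
        intro f
        rw [Ideal.mem_comap, Polynomial.coe_evalRingHom, Polynomial.coeff_zero_eq_eval_zero]
      have hPn : P.map (Polynomial.C : A →+* Polynomial A) < 𝔫 := by
        refine lt_of_le_not_ge ?_ ?_
        · intro f hf
          rw [hm𝔫]
          exact Ideal.mem_map_C_iff.1 hf 0
        · intro h'
          apply hXP
          apply h'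
          rw [hm𝔫, Polynomial.coeff_X_zero]
          exact P.zero_mem
      have hQ' : ∀ Q : Ideal (Polynomial A), Q.IsPrime →
          Q < P.map (Polynomial.C : A →+* Polynomial A) → QC_LI N Q := by
        intro Q hQp hlt
        by_contra hcon
        have hmin : 𝔫 ∈ (Q ⊔ Ideal.span {Polynomial.X}).minimalPrimes := by
          refine ⟨⟨h𝔫, ?_⟩, ?_⟩
          · rw [sup_le_iff, Ideal.span_singleton_le_iff_mem, hm𝔫, Polynomial.coeff_X_zero]
            exact ⟨hlt.le.trans hPn.le, P.zero_mem⟩
          · rintro Q'' ⟨hQ''p, hQ''s⟩ hQ''n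
            have hQQ : Q ≤ Q'' := le_sup_left.trans hQ''s
            have hX : Polynomial.X ∈ Q'' :=
              hQ''s (Ideal.mem_sup_right (Ideal.mem_span_singleton_self _))
            have h1 : ¬ QC_LI N Q'' := fun h' => hcon (QC_mono _ ι κ rfl N Q Q'' hQQ h')
            have hqp : (Q''.comap (Polynomial.C : A →+* Polynomial A)).IsPrime :=
              Ideal.comap_isPrime _ _
            have h2 : ¬ QC_LI M (Q''.comap (Polynomial.C : A →+* Polynomial A)) := by
              intro h'
              apply h1
              intro c hc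
              have hdiv : ∀ f : Polynomial A, f ∈ Q'' ↔ Polynomial.C (f.coeff 0) ∈ Q'' := by
                intro f
                have e := f.divX_mul_X_add
                constructor
                · intro hf
                  rw [← e] at hf
                  exact (Q''.add_mem_iff_right (Q''.mul_mem_left _ hX)).1 hf
                · intro hf
                  rw [← e]
                  exact Q''.add_mem (Q''.mul_mem_left _ hX) hf
              have h3 := h' (fun i => (c i).coeff 0) (by
                intro j
                have h4 := (hdiv _).1 (hc j)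
                have e : (∑ i, c i * N i j).coeff 0 = ∑ i, (c i).coeff 0 * M i j := by
                  rw [Polynomial.finsetSum_coeff]
                  refine Finset.sum_congr rfl fun i _ => ?_
                  rw [Polynomial.mul_coeff_zero]
                  congr 1
                  simp only [N]
                  split_ifs <;> simp
                rw [e] at h4
                exact h4)
              intro i
              rw [hdiv]
              exact h3 i
            have h3 : Q''.comap (Polynomial.C : A →+* Polynomial A) ≤ P := by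
              intro a ha
              have := hQ''n ha
              rwa [hm𝔫, Polynomial.coeff_C_zero] at this
            have h4 : Q''.comap (Polynomial.C : A →+* Polynomial A) = P := by
              by_contra hne
              exact h2 (hQ _ hqp (lt_of_le_of_ne h3 hne))
            intro f hf
            rw [← f.divX_mul_X_add]
            refine Q''.add_mem (Q''.mul_mem_left _ hX) ?_
            rw [hm𝔫, ← h4] at hf
            exact hf
        have h1 := Ideal.map_height_le_one_of_mem_minimalPrimes hmin
        have p1 : ((P.map (Polynomial.C : A →+* Polynomial A)).map (Ideal.Quotient.mk Q)).IsPrime :=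
          Ideal.isPrime_map_quotientMk_of_isPrime hlt.le
        have p2 : (𝔫.map (Ideal.Quotient.mk Q)).IsPrime :=
          Ideal.isPrime_map_quotientMk_of_isPrime (hlt.le.trans hPn.le)
        have l1 : (P.map (Polynomial.C : A →+* Polynomial A)).map (Ideal.Quotient.mk Q) <
            𝔫.map (Ideal.Quotient.mk Q) := by
          refine lt_of_le_of_ne (Ideal.map_mono hPn.le) ?_
          intro e
          have e2 := congrArg (Ideal.comap (Ideal.Quotient.mk Q)) e
          rw [Ideal.comap_map_mk hlt.le, Ideal.comap_map_mk (hlt.le.trans hPn.le)] at e2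
          exact hPn.ne e2
        have l2 : (⊥ : Ideal (Polynomial A ⧸ Q)) <
            (P.map (Polynomial.C : A →+* Polynomial A)).map (Ideal.Quotient.mk Q) := by
          rw [bot_lt_iff_ne_bot]
          intro e
          rw [Ideal.map_eq_bot_iff_le_ker, Ideal.mk_ker] at e
          exact hlt.not_ge e
        have p0 : (⊥ : Ideal (Polynomial A ⧸ Q)).IsPrime := Ideal.isPrime_bot
        have g1 := Ideal.height_add_one_le_of_lt_of_isPrime l2
        have g2 := Ideal.height_add_one_le_of_lt_of_isPrime l1
        have g3 : (1 : ℕ∞) ≤ ((P.map (Polynomial.C : A →+* Polynomial A)).map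
            (Ideal.Quotient.mk Q)).height := le_trans (by simp) g1
        have g4 : (1 : ℕ∞) + 1 ≤ 1 := (add_le_add_left g3 1).trans (g2.trans h1)
        exact absurd g4 (by decide)
      refine le_trans ?_ (elimcase (Polynomial A) N (P.map Polynomial.C) hno' hQ' ⟨i0, j0, ?_⟩)
      · gcongr
        exact QC_height_map P
      · intro h'
        apply hXP
        have h1 : N i0 j0 = Polynomial.C (M i0 j0) + Polynomial.X := by
          simp [N]
        rw [h1] at h'
        exact (Ideal.add_mem_iff_right _ ((hCP _).2 (h i0 j0))).1 h'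

variable {K : Type*} [Field K] {d : ℕ}

/-- height of the ideal of the origin -/
lemma QC_origin (n : ℕ) (P : Ideal (MvPolynomial (Fin n) K)) [P.IsPrime]
    (hP : ∀ f, f ∈ P ↔ eval (0 : Fin n → K) f = 0) : (n : ℕ∞) ≤ P.height := by
  let φ : ℕ → MvPolynomial (Fin n) K →ₐ[K] MvPolynomial (Fin n) K := fun k =>
    aeval (fun i : Fin n => if (i : ℕ) < k then 0 else X i)
  have hprime : ∀ k, (RingHom.ker (φ k)).IsPrime := fun k => RingHom.ker_isPrime _
  have key : ∀ k : ℕ, k ≤ n → (k : ℕ∞) ≤ (RingHom.ker (φ k)).height := by
    intro k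
    induction k with
    | zero => intro _; simp
    | succ k ih =>
      intro hk
      have h1 := ih (by omega)
      have hlt : RingHom.ker (φ k) < RingHom.ker (φ (k + 1)) := by
        refine lt_of_le_not_ge ?_ ?_
        · intro f hf
          rw [RingHom.mem_ker] at hf ⊢
          have e : (φ (k + 1)).comp (φ k) = φ (k + 1) := by
            apply MvPolynomial.algHom_ext
            intro i
            simp only [φ, AlgHom.comp_apply, aeval_X]
            by_cases hi : (i : ℕ) < k
            · rw [if_pos hi, if_pos (by omega), map_zero]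
            · rw [if_neg hi, aeval_X]
          have e2 := DFunLike.congr_fun e f
          rw [AlgHom.comp_apply] at e2
          rw [← e2, show (φ k) f = 0 from hf, map_zero]
        · intro h'
          have h2 : (X ⟨k, by omega⟩ : MvPolynomial (Fin n) K) ∈ RingHom.ker (φ (k + 1)) := by
            rw [RingHom.mem_ker]
            simp [φ]
          have h3 := h' h2
          rw [RingHom.mem_ker] at h3
          simp [φ] at h3
      have h2 := Ideal.height_add_one_le_of_lt_of_isPrime hlt
      push_cast
      exact (add_le_add_left h1 1).trans h2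
  have e : P = RingHom.ker (φ n) := by
    ext f
    rw [hP, RingHom.mem_ker]
    have : ∀ f, φ n f = C (eval (0 : Fin n → K) f) := by
      intro f
      have e1 : φ n = (MvPolynomial.C.comp (eval (0 : Fin n → K)) : MvPolynomial (Fin n) K →+*
          MvPolynomial (Fin n) K) := by
        apply MvPolynomial.ringHom_ext
        · intro a
          simp [φ]
        · intro i
          simp [φ]
      exact DFunLike.congr_fun e1 f
    rw [this f]
    simp
  rw [e]
  exact key n le_rfl

/-- ROW 1bbd-QC -/
theorem QC [IsAlgClosed K] {n r m : ℕ} (hn : 1 ≤ n) (hr : 1 ≤ r) (e : Fin m → ℕ)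
    (he : ∀ j, 1 ≤ e j) (Φ : Fin r → Fin m → MvPolynomial (Fin n) K)
    (hΦ : ∀ i j, (Φ i j).IsHomogeneous (e j))
    (hrank : ∀ w : Fin n → K, w ≠ 0 → ∀ c : Fin r → K,
      (∀ j, ∑ i, c i * eval w (Φ i j) = 0) → c = 0) : n + r ≤ m + 1 := by
  classical
  -- `r ≤ m`
  have hrm : r ≤ m := by
    have hw : (fun _ : Fin n => (1 : K)) ≠ 0 := by
      intro h
      have := congrFun h ⟨0, hn⟩
      exact one_ne_zero this
    let L : (Fin r → K) →ₗ[K] (Fin m → K) :=
      { toFun := fun c j => ∑ i, c i * eval (fun _ => (1 : K)) (Φ i j)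
        map_add' := by
          intro a b
          funext j
          simp only [Pi.add_apply, add_mul, Finset.sum_add_distrib]
        map_smul' := by
          intro a b
          funext j
          simp only [Pi.smul_apply, smul_eq_mul, RingHom.id_apply, Finset.mul_sum, mul_assoc] }
    have hL : Function.Injective L := by
      rw [← LinearMap.ker_eq_bot, LinearMap.ker_eq_bot']
      intro c hc
      exact hrank _ hw c (fun j => congrFun hc j)
    have := LinearMap.finrank_le_finrank_of_injective hL
    simpa using this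
  -- points
  let 𝔪 : (Fin n → K) → Ideal (MvPolynomial (Fin n) K) := fun w => RingHom.ker (eval w)
  have h𝔪 : ∀ w, (𝔪 w).IsPrime := fun w => RingHom.ker_isPrime _
  have hmem : ∀ w f, f ∈ 𝔪 w ↔ eval w f = 0 := fun w f => RingHom.mem_ker
  have hno : ¬ QC_LI Φ (𝔪 0) := by
    intro h
    have h1 := h (fun _ => 1) (by
      intro j
      refine Ideal.sum_mem _ fun i _ => ?_
      rw [one_mul, hmem]
      rw [MvPolynomial.eval_zero, constantCoeff_eq]
      refine (hΦ i j).coeff_eq_zero ?_
      have := he j
      simp
      omega) ⟨0, hr⟩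
    rw [hmem, map_one] at h1
    exact one_ne_zero h1
  have hQ : ∀ Q : Ideal (MvPolynomial (Fin n) K), Q.IsPrime → Q < 𝔪 0 → QC_LI Φ Q := by
    intro Q hQp hlt
    obtain ⟨w, hw, hw0⟩ : ∃ w ∈ zeroLocus K Q, w ≠ 0 := by
      by_contra hcon
      push Not at hcon
      have h1 : zeroLocus K Q ≤ {0} := fun w hw => hcon w hw
      have h2 := vanishingIdeal_anti_mono (k := K) h1
      rw [vanishingIdeal_zeroLocus_eq_radical, hQp.radical] at h2
      apply hlt.not_ge
      intro f hf
      apply h2
      rw [mem_vanishingIdeal_singleton_iff]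
      rw [hmem] at hf
      simpa [MvPolynomial.aeval_def] using hf
    refine QC_mono _ (Fin r) (Fin m) rfl Φ Q (𝔪 w) ?_ ?_
    · intro f hf
      rw [hmem]
      have := hw f hf
      simpa [MvPolynomial.aeval_def] using this
    · intro c hc i
      rw [hmem]
      have := hrank w hw0 (fun i => eval w (c i)) (fun j => by
        have h1 := hc j
        rw [hmem, map_sum] at h1
        simpa only [map_mul] using h1)
      exact congrFun this i
  have h1 := QC_height r (MvPolynomial (Fin n) K) (Fin r) (Fin m) (by simp) (by simpa using hrm) Φ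
    (𝔪 0) hno hQ
  have h2 := QC_origin n (𝔪 0) (hmem 0)
  rw [Fintype.card_fin] at h1
  have h3 : (n : ℕ∞) + r ≤ (m : ℕ∞) + 1 := (add_le_add_left h2 _).trans h1
  exact_mod_cast h3

end Pool.Agent.Lib.MP_1bbd88_ag.Q
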