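import Pool.Agent.Lib.MP_1bbd88_ag.Q.Defs

set_option autoImplicit false

namespace Pool.Agent.Lib.MP_1bbd88_ag.Q

open Module MvPolynomial

variable {K : Type*} [Field K] {d : ℕ}

/-! ROW 1bbd-QN -/

theorem QN_hc_lin (g : Matrix (Fin d) (Fin d) K) (f : MvPolynomial (Fin d) K) (n : ℕ) :
    homogeneousComponent n (lin g f) = lin g (homogeneousComponent n f) := by
  have h1 : lin g f = ∑ i ∈ Finset.range (f.totalDegree + 1),
      lin g (homogeneousComponent i f) := by
    rw [← map_sum, sum_homogeneousComponent]
  have h2 : ∀ i, homogeneousComponent n (lin g (homogeneousComponent i f)) =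
      if i = n then lin g (homogeneousComponent n f) else 0 := by
    intro i
    have h3 : lin g (homogeneousComponent i f) ∈ homogeneousSubmodule (Fin d) K i :=
      lin_isHomogeneous g (homogeneousComponent_isHomogeneous i f)
    rw [homogeneousComponent_of_mem h3]
    by_cases h : i = n
    · subst h
      simp
    · rw [if_neg h, if_neg (fun h' => h h'.symm)]
  rw [h1, map_sum]
  simp only [h2]
  rw [Finset.sum_ite_eq']
  split_ifs with h
  · rfl
  · rw [Finset.mem_range, not_lt] at h
    rw [homogeneousComponent_eq_zero _ _ (by omega), map_zero]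

theorem component_mem_inv (G : Subgroup (GL (Fin d) K)) (f : MvPolynomial (Fin d) K)
    (hf : f ∈ inv G) (n : ℕ) : homogeneousComponent n f ∈ inv G := by
  intro g hg
  rw [← QN_hc_lin]
  have := hf g hg
  rw [this]

theorem X_pow_mem_J (G : Subgroup (GL (Fin d) K)) [Finite G] (i : Fin d) :
    (X i : MvPolynomial (Fin d) K) ^ Nat.card G ∈ J G := by
  classical
  have : Fintype G := Fintype.ofFinite G
  set P : Polynomial (MvPolynomial (Fin d) K) :=
    ∏ g : G, (Polynomial.X - Polynomial.C (lin g.1.val (X i))) with hP
  have hmon : P.Monic := Polynomial.monic_prod_of_monic _ _ fun g _ => Polynomial.monic_X_sub_C _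
  have hdeg : P.natDegree = Nat.card G := by
    rw [hP, Polynomial.natDegree_prod_of_monic _ _ fun g _ => Polynomial.monic_X_sub_C _]
    simp [Nat.card_eq_fintype_card]
  have hev : P.eval (X i) = 0 := by
    rw [hP, Polynomial.eval_prod]
    refine Finset.prod_eq_zero (Finset.mem_univ (1 : G)) ?_
    have : lin (1 : Matrix (Fin d) (Fin d) K) (X i) = X i := by rw [lin_one]; rfl
    simp [this]
  have hinv : ∀ k, P.coeff k ∈ inv G := by
    intro k h hh
    have h1 : P.map (lin h.val).toRingHom = P := by
      rw [hP, Polynomial.map_prod]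
      refine Fintype.prod_equiv (Equiv.mulRight (⟨h, hh⟩ : G)) _ _ fun g => ?_
      rw [Polynomial.map_sub, Polynomial.map_X, Polynomial.map_C]
      congr 2
      exact lin_lin _ _ _
    have h2 := congrArg (fun Q => Polynomial.coeff Q k) h1
    simp only [Polynomial.coeff_map] at h2
    exact h2
  have hcc : ∀ k, k < Nat.card G → constantCoeff (P.coeff k) = 0 := by
    intro k hk
    have h1 : P.map (constantCoeff : MvPolynomial (Fin d) K →+* K) =
        Polynomial.X ^ Nat.card G := by
      rw [hP, Polynomial.map_prod]
      have : ∀ g : G, (Polynomial.X - Polynomial.C (lin g.1.val (X i))).map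
          (constantCoeff : MvPolynomial (Fin d) K →+* K) = Polynomial.X := by
        intro g
        rw [Polynomial.map_sub, Polynomial.map_X, Polynomial.map_C, lin_X]
        simp
      rw [Finset.prod_congr rfl fun g _ => this g, Finset.prod_const, Finset.card_univ,
        Nat.card_eq_fintype_card]
    have h2 := congrArg (fun Q => Polynomial.coeff Q k) h1
    simp only [Polynomial.coeff_map, Polynomial.coeff_X_pow] at h2
    rw [h2, if_neg (by omega)]
  rw [Polynomial.eval_eq_sum_range, hdeg, Finset.sum_range_succ] at hev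
  have hlead : P.coeff (Nat.card G) = 1 := by
    rw [← hdeg]
    exact hmon.coeff_natDegree
  rw [hlead, one_mul] at hev
  have h3 : (X i : MvPolynomial (Fin d) K) ^ Nat.card G =
      -∑ k ∈ Finset.range (Nat.card G), P.coeff k * X i ^ k := by
    linear_combination hev
  rw [h3]
  refine neg_mem (Ideal.sum_mem _ fun k hk => ?_)
  refine Ideal.mul_mem_right _ _ (Ideal.subset_span ⟨hinv k, hcc k (Finset.mem_range.mp hk)⟩)

theorem QN_finite_quot {σ k : Type*} [Finite σ] [Field k] {q : ℕ} (I : Ideal (MvPolynomial σ k))
    (hI : ∀ i, (MvPolynomial.X i : MvPolynomial σ k) ^ q ∈ I) :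
    FiniteDimensional k (MvPolynomial σ k ⧸ I) := by
  have h1 : Algebra.IsIntegral k (MvPolynomial σ k ⧸ I) := by
    constructor
    intro x
    obtain ⟨f, rfl⟩ := Ideal.Quotient.mk_surjective x
    induction f using MvPolynomial.induction_on with
    | C a =>
      exact isIntegral_algebraMap (R := k) (A := MvPolynomial σ k ⧸ I) (x := a)
    | add f g hf hg =>
      rw [map_add]
      exact hf.add hg
    | mul_X f i hf =>
      rw [map_mul]
      refine hf.mul ?_
      refine ⟨Polynomial.X ^ q, Polynomial.monic_X_pow q, ?_⟩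
      rw [Polynomial.eval₂_X_pow, ← map_pow]
      exact Ideal.Quotient.eq_zero_iff_mem.mpr (hI i)
  have h2 : Algebra.FiniteType k (MvPolynomial σ k ⧸ I) := inferInstance
  exact Algebra.IsIntegral.finite

instance finite_quot_J (G : Subgroup (GL (Fin d) K)) [Finite G] :
    FiniteDimensional K (MvPolynomial (Fin d) K ⧸ J G) :=
  QN_finite_quot (q := Nat.card G) _ (X_pow_mem_J G)

theorem QN_hc_mul (r x : MvPolynomial (Fin d) K) (n : ℕ) :
    homogeneousComponent n (r * x) =
      ∑ i ∈ Finset.range (r.totalDegree + 1), ∑ j ∈ Finset.range (x.totalDegree + 1),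
        if i + j = n then homogeneousComponent i r * homogeneousComponent j x else 0 := by
  conv_lhs => rw [← sum_homogeneousComponent r, ← sum_homogeneousComponent x]
  rw [Finset.sum_mul_sum, map_sum]
  refine Finset.sum_congr rfl fun i _ => ?_
  rw [map_sum]
  refine Finset.sum_congr rfl fun j _ => ?_
  have h3 : homogeneousComponent i r * homogeneousComponent j x ∈
      homogeneousSubmodule (Fin d) K (i + j) :=
    (homogeneousComponent_isHomogeneous i r).mul (homogeneousComponent_isHomogeneous j x)
  rw [homogeneousComponent_of_mem h3]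
  by_cases h : i + j = n
  · rw [if_pos h, if_pos h.symm]
  · rw [if_neg h, if_neg (fun h' => h h'.symm)]

theorem QN_cc (f : MvPolynomial (Fin d) K) (hf : constantCoeff f = 0) (n : ℕ) :
    constantCoeff (homogeneousComponent n f) = 0 := by
  rcases Nat.eq_zero_or_pos n with h | h
  · subst h
    rw [homogeneousComponent_zero, constantCoeff_C]
    exact hf
  · rw [constantCoeff_eq, coeff_homogeneousComponent]
    have : Finsupp.degree (0 : Fin d →₀ ℕ) = 0 := by simp
    rw [if_neg (by rw [this]; omega)]

theorem component_mem_J (G : Subgroup (GL (Fin d) K)) (f : MvPolynomial (Fin d) K)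
    (hf : f ∈ J G) (n : ℕ) : homogeneousComponent n f ∈ J G := by
  induction hf using Submodule.span_induction generalizing n with
  | mem x hx =>
    exact Ideal.subset_span ⟨component_mem_inv G x hx.1 n, QN_cc x hx.2 n⟩
  | zero => rw [map_zero]; exact zero_mem _
  | add x y _ _ hx hy => rw [map_add]; exact add_mem (hx n) (hy n)
  | smul a x _ hx =>
    rw [smul_eq_mul, QN_hc_mul]
    refine Ideal.sum_mem _ fun i _ => Ideal.sum_mem _ fun j _ => ?_
    split_ifs
    · exact Ideal.mul_mem_left _ _ (hx j)
    · exact zero_mem _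

/-- the combinations of the `f j` with invariant coefficients -/
def QN_T (G : Subgroup (GL (Fin d) K)) {m : ℕ} (f : Fin m → MvPolynomial (Fin d) K) :
    Submodule K (MvPolynomial (Fin d) K) where
  carrier := {u | ∃ r : Fin m → MvPolynomial (Fin d) K, (∀ j, r j ∈ inv G) ∧
    u = ∑ j, r j * f j}
  add_mem' := by
    rintro a b ⟨r, hr, rfl⟩ ⟨s, hs, rfl⟩
    refine ⟨fun j => r j + s j, fun j => add_mem (hr j) (hs j), ?_⟩
    rw [← Finset.sum_add_distrib]
    exact Finset.sum_congr rfl fun j _ => (add_mul _ _ _).symm
  zero_mem' := ⟨fun _ => 0, fun _ => zero_mem _, by simp⟩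
  smul_mem' := by
    rintro c a ⟨r, hr, rfl⟩
    refine ⟨fun j => c • r j, fun j => (inv G).smul_mem (hr j) c, ?_⟩
    rw [Finset.smul_sum]
    exact Finset.sum_congr rfl fun j _ => (smul_mul_assoc _ _ _).symm

theorem QN_T_mul (G : Subgroup (GL (Fin d) K)) {m : ℕ} (f : Fin m → MvPolynomial (Fin d) K)
    {a u : MvPolynomial (Fin d) K} (ha : a ∈ inv G) (hu : u ∈ QN_T G f) :
    a * u ∈ QN_T G f := by
  obtain ⟨r, hr, rfl⟩ := hu
  refine ⟨fun j => a * r j, fun j => mul_mem ha (hr j), ?_⟩
  rw [Finset.mul_sum]
  exact Finset.sum_congr rfl fun j _ => (mul_assoc _ _ _).symm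

theorem nakayama (G : Subgroup (GL (Fin d) K)) (M : Submodule K (MvPolynomial (Fin d) K))
    (hM : ∀ f ∈ M, ∀ n, homogeneousComponent n f ∈ M) {m : ℕ}
    (f : Fin m → MvPolynomial (Fin d) K) (e : Fin m → ℕ) (hf : ∀ j, (f j).IsHomogeneous (e j))
    (hfM : ∀ j, f j ∈ M)
    (h : ∀ u ∈ M, ∃ c : Fin m → K, u - ∑ j, C (c j) * f j ∈
      Submodule.span K {x | ∃ r ∈ inv G, constantCoeff r = 0 ∧ ∃ v ∈ M, x = r * v}) :
    ∀ u ∈ M, ∃ r : Fin m → MvPolynomial (Fin d) K, (∀ j, r j ∈ inv G) ∧ u = ∑ j, r j * f j := by
  classical
  have key : ∀ n : ℕ, ∀ u ∈ M, u.IsHomogeneous n → u ∈ QN_T G f := by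
    intro n
    induction n using Nat.strong_induction_on with
    | _ n IH =>
      intro u hu hun
      obtain ⟨c, hc⟩ := h u hu
      have h1 : ∀ s ∈ Submodule.span K
          {x : MvPolynomial (Fin d) K | ∃ r ∈ inv G, constantCoeff r = 0 ∧ ∃ v ∈ M, x = r * v},
          homogeneousComponent n s ∈ QN_T G f := by
        intro s hs
        induction hs using Submodule.span_induction with
        | mem x hx =>
          obtain ⟨r, hr, hr0, v, hv, rfl⟩ := hx
          rw [QN_hc_mul]
          refine Submodule.sum_mem _ fun i _ => Submodule.sum_mem _ fun j _ => ?_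
          split_ifs with hij
          · rcases Nat.eq_zero_or_pos i with h0 | h0
            · subst h0
              rw [homogeneousComponent_zero]
              have : coeff 0 r = 0 := hr0
              rw [this, C_0, zero_mul]
              exact zero_mem _
            · exact QN_T_mul G f (component_mem_inv G r hr i)
                (IH j (by omega) _ (hM v hv j) (homogeneousComponent_isHomogeneous j v))
          · exact zero_mem _
        | zero => rw [map_zero]; exact zero_mem _
        | add x y _ _ hx hy => rw [map_add]; exact add_mem hx hy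
        | smul a x _ hx => rw [map_smul]; exact (QN_T G f).smul_mem a hx
      have h2 := h1 _ hc
      rw [map_sub, homogeneousComponent_of_mem (show u ∈ homogeneousSubmodule (Fin d) K n from hun),
        if_pos rfl, map_sum] at h2
      have h3 : (∑ j, homogeneousComponent n (C (c j) * f j)) ∈ QN_T G f := by
        refine ⟨fun j => if n = e j then C (c j) else 0, fun j => ?_, ?_⟩
        · dsimp only
          split_ifs
          · exact (inv G).algebraMap_mem (c j)
          · exact zero_mem _
        · refine Finset.sum_congr rfl fun j _ => ?_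
          rw [homogeneousComponent_C_mul,
            homogeneousComponent_of_mem (show f j ∈ homogeneousSubmodule (Fin d) K (e j) from hf j)]
          dsimp only
          split_ifs
          · rfl
          · rw [mul_zero, zero_mul]
      have h4 := add_mem h2 h3
      rwa [sub_add_cancel] at h4
  intro u hu
  have h5 : u ∈ QN_T G f := by
    rw [← sum_homogeneousComponent u]
    exact Submodule.sum_mem _ fun i _ => key i _ (hM u hu i) (homogeneousComponent_isHomogeneous i u)
  exact h5

end Pool.Agent.Lib.MP_1bbd88_ag.Q
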