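import Pool.Agent.Lib.MP_1bbd88_ag.Q.Defs
import Pool.Agent.Lib.MP_1bbd88_ag.Q.QN

set_option autoImplicit false

namespace Pool.Agent.Lib.MP_1bbd88_ag.Q

open Module MvPolynomial

variable {K : Type*} [Field K] {d : ℕ}

/-! ROW 1bbd-QD1 -/

theorem card_chars [IsAlgClosed K] (F : Subgroup (GL (Fin d) K)) [Finite F] (hF : Comm F)
    (hc : (Nat.card F : K) ≠ 0) : Nat.card (F →* Kˣ) = Nat.card F := by
  let i : CommGroup F := { (inferInstance : Group F) with
    mul_comm := fun a b => Subtype.ext (hF a.1 a.2 b.1 b.2) }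
  have h1 : (Monoid.exponent F : K) ≠ 0 := by
    intro h
    apply hc
    obtain ⟨k, hk⟩ := Group.exponent_dvd_nat_card (G := F)
    rw [hk, Nat.cast_mul, h, zero_mul]
  have : NeZero (Monoid.exponent F : K) := ⟨h1⟩
  exact CommGroup.card_monoidHom_of_hasEnoughRootsOfUnity F K

theorem QD1_lin_mem_J (H : Subgroup (GL (Fin d) K)) {a : GL (Fin d) K} (ha : a ∈ H) :
    J H ≤ (J H).comap (lin a.val) := by
  unfold J
  rw [Ideal.span_le]
  rintro f ⟨hf, h0⟩
  show lin a.val f ∈ Ideal.span _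
  rw [hf a ha]
  exact Ideal.subset_span ⟨hf, h0⟩

/-- the action of an element of `H` on the algebra of coinvariants -/
noncomputable def QD1_T (H : Subgroup (GL (Fin d) K)) {a : GL (Fin d) K} (ha : a ∈ H) :
    (MvPolynomial (Fin d) K ⧸ J H) →ₐ[K] (MvPolynomial (Fin d) K ⧸ J H) :=
  Ideal.quotientMapₐ (J H) (lin a.val) (QD1_lin_mem_J H ha)

theorem QD1_T_apply (H F : Subgroup (GL (Fin d) K)) (hFH : F ≤ H) (ψ : F →* Kˣ)
    (x : MvPolynomial (Fin d) K ⧸ J H)
    (hx : x ∈ (semi F ψ).map (Ideal.Quotient.mkₐ K (J H)).toLinearMap) (a : F) :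
    QD1_T H (hFH a.2) x = (ψ a : K) • x := by
  obtain ⟨f, hf, rfl⟩ := hx
  have h := hf a
  show QD1_T H (hFH a.2) (Ideal.Quotient.mk (J H) f) = (ψ a : K) • Ideal.Quotient.mk (J H) f
  rw [QD1_T, Ideal.quotient_map_mkₐ]
  show Ideal.Quotient.mk (J H) (lin a.1.val f) = _
  rw [h, ← MvPolynomial.smul_eq_C_mul]
  rfl

theorem sum_mpsi_le (H F : Subgroup (GL (Fin d) K)) [Finite H] (hFH : F ≤ H)
    (s : Finset (F →* Kˣ)) : ∑ ψ ∈ s, mpsi H F ψ ≤ N H := by
  classical
  let Q := MvPolynomial (Fin d) K ⧸ J H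
  let W : (F →* Kˣ) → Submodule K Q := fun ψ =>
    (semi F ψ).map (Ideal.Quotient.mkₐ K (J H)).toLinearMap
  let φ : ((ψ : s) → W ψ.1) →ₗ[K] Q :=
    ∑ ψ : s, (W ψ.1).subtype ∘ₗ LinearMap.proj ψ
  have hφ : ∀ x, φ x = ∑ ψ : s, (x ψ : Q) := by
    intro x
    simp [φ, LinearMap.sum_apply]
  have hinj : Function.Injective φ := by
    rw [injective_iff_map_eq_zero]
    intro x hx
    rw [hφ] at hx
    have h1 : ∀ a : F, ∑ ψ : s, ((ψ.1 a : Kˣ) : K) • (x ψ : Q) = 0 := by
      intro a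
      have := congrArg (QD1_T H (hFH a.2)) hx
      rw [map_sum, map_zero] at this
      rw [← this]
      exact Finset.sum_congr rfl fun ψ _ => (QD1_T_apply H F hFH ψ.1 _ (x ψ).2 a).symm
    funext ψ0
    have hli := (linearIndependent_monoidHom F K)
    have hinj2 : Function.Injective
        (fun ψ : s => (Units.coeHom K).comp ψ.1) := by
      intro ψ1 ψ2 h
      apply Subtype.ext
      apply MonoidHom.ext
      intro a
      apply Units.ext
      exact DFunLike.congr_fun h a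
    have hli2 := hli.comp _ hinj2
    rw [Fintype.linearIndependent_iff] at hli2
    apply Subtype.ext
    show (x ψ0 : Q) = 0
    rw [← forall_dual_apply_eq_zero_iff K]
    intro ℓ
    have := hli2 (fun ψ => ℓ (x ψ : Q)) (by
      funext a
      rw [Finset.sum_apply, Pi.zero_apply]
      have h2 := congrArg ℓ (h1 a)
      rw [map_sum, map_zero] at h2
      rw [← h2]
      refine Finset.sum_congr rfl fun ψ _ => ?_
      rw [map_smul, Pi.smul_apply, smul_eq_mul, smul_eq_mul, mul_comm]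
      rfl) ψ0
    exact this
  have h3 := LinearMap.finrank_le_finrank_of_injective hinj
  rw [Module.finrank_pi_fintype] at h3
  rw [← Finset.sum_coe_sort s]
  exact h3

end Pool.Agent.Lib.MP_1bbd88_ag.Q
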