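import Pool.Agent.Lib.MP_1bbd88_ag.Q.Defs
import Pool.Agent.Lib.MP_1bbd88_ag.Q.QN

set_option autoImplicit false

namespace Pool.Agent.Lib.MP_1bbd88_ag.Q

open Module MvPolynomial

variable {K : Type*} [Field K] {d : ℕ}

/-! ROW 1bbd-QD2 -/

theorem QD2_hc_sum {n : ℕ} (s : Finset ℕ) (F : ℕ → MvPolynomial (Fin d) K)
    (hF : ∀ i, (F i).IsHomogeneous i) (hn : n ∉ s → F n = 0) :
    homogeneousComponent n (∑ i ∈ s, F i) = F n := by
  rw [map_sum]
  have h1 : ∀ i ∈ s, homogeneousComponent n (F i) = if i = n then F n else 0 := by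
    intro i _
    rw [homogeneousComponent_of_mem (n := i) (hF i)]
    by_cases h : n = i
    · subst h; simp
    · rw [if_neg h, if_neg (fun h' => h h'.symm)]
  rw [Finset.sum_congr rfl h1, Finset.sum_ite_eq']
  split_ifs with h
  · rfl
  · exact (hn h).symm

theorem QD2_hc_lin (g : Matrix (Fin d) (Fin d) K) (f : MvPolynomial (Fin d) K) (n : ℕ) :
    lin g (homogeneousComponent n f) = homogeneousComponent n (lin g f) := by
  conv_rhs => rw [← sum_homogeneousComponent f, map_sum]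
  rw [QD2_hc_sum (n := n) (Finset.range (f.totalDegree + 1))
    (fun i => lin g (homogeneousComponent i f))
    (fun i => lin_isHomogeneous g (homogeneousComponent_isHomogeneous i f))]
  intro h
  have : f.totalDegree < n := by
    rw [Finset.mem_range] at h
    omega
  simp only [homogeneousComponent_eq_zero n f this, map_zero]

theorem QD2_hc_semi (F : Subgroup (GL (Fin d) K)) (ψ : F →* Kˣ) (f : MvPolynomial (Fin d) K)
    (hf : f ∈ semi F ψ) (n : ℕ) : homogeneousComponent n f ∈ semi F ψ := by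
  intro a
  rw [QD2_hc_lin, hf a, homogeneousComponent_C_mul]

/-- the projection onto the semi-invariants -/
noncomputable def QD2_e (F : Subgroup (GL (Fin d) K)) [Fintype F] (ψ : F →* Kˣ)
    (f : MvPolynomial (Fin d) K) : MvPolynomial (Fin d) K :=
  ∑ a : F, C ((Fintype.card F : K)⁻¹ * ((ψ a)⁻¹ : Kˣ)) * lin a.1.val f

theorem QD2_e_add (F : Subgroup (GL (Fin d) K)) [Fintype F] (ψ : F →* Kˣ)
    (f g : MvPolynomial (Fin d) K) : QD2_e F ψ (f + g) = QD2_e F ψ f + QD2_e F ψ g := by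
  simp only [QD2_e, map_add, mul_add, Finset.sum_add_distrib]

theorem QD2_e_zero (F : Subgroup (GL (Fin d) K)) [Fintype F] (ψ : F →* Kˣ) :
    QD2_e F ψ (0 : MvPolynomial (Fin d) K) = 0 := by
  simp only [QD2_e, map_zero, mul_zero, Finset.sum_const_zero]

theorem QD2_e_mem (F : Subgroup (GL (Fin d) K)) [Fintype F] (ψ : F →* Kˣ)
    (f : MvPolynomial (Fin d) K) : QD2_e F ψ f ∈ semi F ψ := by
  intro a
  simp only [QD2_e, map_sum, map_mul, Finset.mul_sum]
  have hC : ∀ c : K, lin a.1.val (C c) = C c := fun c => (lin a.1.val).commutes c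
  simp only [hC, lin_lin]
  refine Fintype.sum_equiv (Equiv.mulRight a) _ _ fun b => ?_
  simp only [Equiv.coe_mulRight, map_mul, mul_inv, Subgroup.coe_mul, Units.val_mul]
  have : (C ((ψ a : Kˣ) : K) : MvPolynomial (Fin d) K) * C (((ψ a)⁻¹ : Kˣ) : K) = 1 := by
    rw [← map_mul, Units.mul_inv, map_one]
  linear_combination (-(C ((Fintype.card F : K)⁻¹) * C (((ψ b)⁻¹ : Kˣ) : K) *
    lin (b.1.val * a.1.val) f)) * this

theorem QD2_e_eq (F : Subgroup (GL (Fin d) K)) [Fintype F] (hc : (Fintype.card F : K) ≠ 0)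
    (ψ : F →* Kˣ) (f : MvPolynomial (Fin d) K) (hf : f ∈ semi F ψ) : QD2_e F ψ f = f := by
  have h1 : ∀ a : F, C ((Fintype.card F : K)⁻¹ * ((ψ a)⁻¹ : Kˣ)) * lin a.1.val f =
      C ((Fintype.card F : K)⁻¹) * f := by
    intro a
    rw [hf a, ← mul_assoc, ← map_mul, mul_assoc, Units.inv_mul, mul_one]
  simp only [QD2_e, h1]
  rw [Finset.sum_const, Finset.card_univ, nsmul_eq_mul, ← mul_assoc]
  have : ((Fintype.card F : ℕ) : MvPolynomial (Fin d) K) = C (Fintype.card F : K) := by simp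
  rw [this, ← map_mul, mul_inv_cancel₀ hc, map_one, one_mul]

theorem QD2_e_mul (H F : Subgroup (GL (Fin d) K)) [Fintype F] (hFH : F ≤ H) (ψ : F →* Kˣ)
    (r f : MvPolynomial (Fin d) K) (hr : r ∈ inv H) :
    QD2_e F ψ (f * r) = r * QD2_e F ψ f := by
  simp only [QD2_e, map_mul, Finset.mul_sum]
  refine Finset.sum_congr rfl fun a _ => ?_
  have : lin a.1.val r = r := hr a.1 (hFH a.2)
  rw [this]
  ring

theorem QD2_inter (H F : Subgroup (GL (Fin d) K)) [Fintype F] (hFH : F ≤ H)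
    (hc : (Fintype.card F : K) ≠ 0) (ψ : F →* Kˣ) (u : MvPolynomial (Fin d) K)
    (hu : u ∈ semi F ψ) (huJ : u ∈ J H) :
    u ∈ Submodule.span K {x | ∃ r ∈ inv H, constantCoeff r = 0 ∧ ∃ v ∈ semi F ψ, x = r * v} := by
  have key : ∀ x ∈ J H, ∀ p : MvPolynomial (Fin d) K, QD2_e F ψ (p * x) ∈
      Submodule.span K {x | ∃ r ∈ inv H, constantCoeff r = 0 ∧ ∃ v ∈ semi F ψ, x = r * v} := by
    intro x hx
    refine Submodule.span_induction
      (p := fun x _ => ∀ p : MvPolynomial (Fin d) K, QD2_e F ψ (p * x) ∈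
        Submodule.span K {x | ∃ r ∈ inv H, constantCoeff r = 0 ∧ ∃ v ∈ semi F ψ, x = r * v})
      ?_ ?_ ?_ ?_ hx
    · intro r hr p
      rw [QD2_e_mul H F hFH ψ r p hr.1]
      exact Submodule.subset_span ⟨r, hr.1, hr.2, _, QD2_e_mem F ψ p, rfl⟩
    · intro p
      rw [mul_zero, QD2_e_zero]
      exact Submodule.zero_mem _
    · intro x y _ _ hx hy p
      rw [mul_add, QD2_e_add]
      exact Submodule.add_mem _ (hx p) (hy p)
    · intro a x _ hx p
      rw [smul_eq_mul, ← mul_assoc]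
      exact hx (p * a)
  have := key u huJ 1
  rwa [one_mul, QD2_e_eq F hc ψ u hu] at this

theorem QD2_basis (H F : Subgroup (GL (Fin d) K)) [Finite H] (ψ : F →* Kˣ) :
    ∃ (f : Fin (mpsi H F ψ) → MvPolynomial (Fin d) K) (e : Fin (mpsi H F ψ) → ℕ),
      (∀ j, f j ∈ semi F ψ) ∧ (∀ j, (f j).IsHomogeneous (e j)) ∧
      ∀ u ∈ semi F ψ, ∃ c : Fin (mpsi H F ψ) → K, u - ∑ j, C (c j) * f j ∈ J H := by
  classical
  set q : MvPolynomial (Fin d) K →ₗ[K] MvPolynomial (Fin d) K ⧸ J H :=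
    (Ideal.Quotient.mkₐ K (J H)).toLinearMap with hq
  set S : Set (MvPolynomial (Fin d) K ⧸ J H) :=
    {y | ∃ f ∈ semi F ψ, ∃ n, f.IsHomogeneous n ∧ q f = y} with hS
  have hspan : Submodule.span K S = (semi F ψ).map q := by
    apply le_antisymm
    · rw [Submodule.span_le]
      rintro y ⟨f, hf, n, -, rfl⟩
      exact Submodule.mem_map_of_mem hf
    · rintro y ⟨f, hf, rfl⟩
      rw [← sum_homogeneousComponent f, map_sum]
      refine Submodule.sum_mem _ fun i _ => Submodule.subset_span ?_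
      exact ⟨_, QD2_hc_semi F ψ f hf i, i, homogeneousComponent_isHomogeneous i f, rfl⟩
  obtain ⟨b, hbS, hb, hli⟩ := exists_linearIndependent K S
  have hbfin : b.Finite := hli.setFinite
  haveI : Fintype b := hbfin.fintype
  have hcard : Fintype.card b = mpsi H F ψ := by
    have h1 := finrank_span_set_eq_card hli
    rw [mpsi, ← hq, ← hspan, ← hb, h1, Set.toFinset_card]
  let E : Fin (mpsi H F ψ) ≃ b := (Fintype.equivFinOfCardEq hcard).symm
  have hch : ∀ j : Fin (mpsi H F ψ), ∃ f ∈ semi F ψ, ∃ n, f.IsHomogeneous n ∧ q f = (E j).1 :=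
    fun j => hbS (E j).2
  choose f hf e he hqf using hch
  refine ⟨f, e, hf, he, fun u hu => ?_⟩
  have h2 : q u ∈ Submodule.span K (Set.range fun j => q (f j)) := by
    have h3 : (Set.range fun j => q (f j)) = b := by
      ext y
      constructor
      · rintro ⟨j, rfl⟩
        simp only [hqf]
        exact (E j).2
      · intro hy
        refine ⟨E.symm ⟨y, hy⟩, ?_⟩
        simp only [hqf]
        rw [Equiv.apply_symm_apply]
    rw [h3, hb, hspan]
    exact Submodule.mem_map_of_mem hu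
  rw [Submodule.mem_span_range_iff_exists_fun] at h2
  obtain ⟨c, hc⟩ := h2
  refine ⟨c, ?_⟩
  have h4 : q (u - ∑ j, C (c j) * f j) = 0 := by
    rw [map_sub, map_sum, ← hc, sub_eq_zero]
    refine Finset.sum_congr rfl fun j _ => ?_
    rw [← MvPolynomial.smul_eq_C_mul, map_smul]
  have h5 : Ideal.Quotient.mk (J H) (u - ∑ j, C (c j) * f j) = 0 := h4
  exact Ideal.Quotient.eq_zero_iff_mem.mp h5

/-- homogeneous generators of `semi F ψ` over the invariants of `H` -/
theorem semi_gens (H F : Subgroup (GL (Fin d) K)) [Finite H] (hFH : F ≤ H)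
    (hF : Comm F) (hc : (Nat.card F : K) ≠ 0) (ψ : F →* Kˣ) :
    ∃ (f : Fin (mpsi H F ψ) → MvPolynomial (Fin d) K) (e : Fin (mpsi H F ψ) → ℕ),
      (∀ j, f j ∈ semi F ψ) ∧ (∀ j, (f j).IsHomogeneous (e j)) ∧
      ∀ u ∈ semi F ψ, ∃ r : Fin (mpsi H F ψ) → MvPolynomial (Fin d) K,
        (∀ j, r j ∈ inv H) ∧ u = ∑ j, r j * f j := by
  classical
  haveI : Finite F := Finite.of_injective _ (Subgroup.inclusion_injective hFH)
  haveI : Fintype F := Fintype.ofFinite F
  rw [Nat.card_eq_fintype_card] at hc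
  obtain ⟨f, e, hf, he, hfu⟩ := QD2_basis H F ψ
  refine ⟨f, e, hf, he, ?_⟩
  refine nakayama H (semi F ψ) (fun f hf n => QD2_hc_semi F ψ f hf n) f e he hf fun u hu => ?_
  obtain ⟨c, hcu⟩ := hfu u hu
  refine ⟨c, QD2_inter H F hFH hc ψ _ ?_ hcu⟩
  refine Submodule.sub_mem _ hu (Submodule.sum_mem _ fun j _ => ?_)
  rw [← MvPolynomial.smul_eq_C_mul]
  exact Submodule.smul_mem _ _ (hf j)

end Pool.Agent.Lib.MP_1bbd88_ag.Q
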