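import Pool.Agent.Lib.MP_1bbd88_ag.Q.Defs

set_option autoImplicit false

namespace Pool.Agent.Lib.MP_1bbd88_ag.Q

open Module MvPolynomial

variable {K : Type*} [Field K] {d : ℕ}

/-! ROW 1bbd-QD3 -/

/-- interpolation at finitely many points -/
theorem QD3_interp {ι : Type*} [Fintype ι] (P : ι → Fin d → K) (hP : Function.Injective P)
    (v : ι → K) : ∃ g : MvPolynomial (Fin d) K, ∀ i, eval (P i) g = v i := by
  classical
  have h1 : ∀ i j : ι, i ≠ j → ∃ u : MvPolynomial (Fin d) K, eval (P i) u = 1 ∧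
      eval (P j) u = 0 := by
    intro i j hij
    have h2 : P i ≠ P j := fun h => hij (hP h)
    obtain ⟨k, hk⟩ := Function.ne_iff.mp h2
    refine ⟨(X k - C (P j k)) * C (P i k - P j k)⁻¹, ?_, ?_⟩
    · simp only [map_mul, map_sub, eval_X, eval_C]
      exact mul_inv_cancel₀ (sub_ne_zero.mpr hk)
    · simp
  choose! u hu1 hu0 using h1
  refine ⟨∑ i, C (v i) * ∏ j ∈ Finset.univ.erase i, u i j, fun i => ?_⟩
  rw [map_sum, Finset.sum_eq_single i]
  · rw [map_mul, eval_C, map_prod, Finset.prod_eq_one, mul_one]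
    intro j hj
    exact hu1 i j (Finset.ne_of_mem_erase hj).symm
  · intro j _ hji
    rw [map_mul, map_prod, Finset.prod_eq_zero (i := i), mul_zero]
    · exact Finset.mem_erase.mpr ⟨hji.symm, Finset.mem_univ _⟩
    · exact hu0 j i hji
  · intro h
    exact absurd (Finset.mem_univ _) h

/-- interpolation on a free orbit: `τ` represents the right cosets `F \\ H` -/
theorem semi_interp (H F : Subgroup (GL (Fin d) K)) [Finite H] (hFH : F ≤ H)
    (hF : Comm F) (hc : (Nat.card F : K) ≠ 0) (ψ : F →* Kˣ) :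
    ∃ (δ : ℕ) (τ : Fin δ → GL (Fin d) K), (∀ i, τ i ∈ H) ∧ Nat.card H = Nat.card F * δ ∧
      ∀ w : Fin d → K, (∀ h ∈ H, h.val.mulVec w = w → h = 1) → ∀ c : Fin δ → K,
        ∃ f ∈ semi F ψ, ∀ i, eval ((τ i).val.mulVec w) f = c i := by
  classical
  have hfF : Finite F := Finite.of_injective (Subgroup.inclusion hFH)
    (Subgroup.inclusion_injective hFH)
  have := Fintype.ofFinite F
  set F' : Subgroup H := F.subgroupOf H with hF'
  have hcard : Nat.card F' = Nat.card F := Nat.card_congr (Subgroup.subgroupOfEquivOfLe hFH).toEquiv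
  let e : Fin (Nat.card (H ⧸ F')) ≃ H ⧸ F' := (Finite.equivFin (H ⧸ F')).symm
  refine ⟨Nat.card (H ⧸ F'), fun i => ((Quotient.out (e i) : H) : GL (Fin d) K)⁻¹, ?_, ?_, ?_⟩
  · intro i
    exact H.inv_mem (Subtype.property _)
  · rw [← hcard, ← Subgroup.card_mul_index F', Subgroup.index]
  · intro w hw c
    set τ : Fin (Nat.card (H ⧸ F')) → GL (Fin d) K :=
      fun i => ((Quotient.out (e i) : H) : GL (Fin d) K)⁻¹ with hτ
    have hτH : ∀ i, τ i ∈ H := fun i => H.inv_mem (Subtype.property _)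
    let P : F × Fin (Nat.card (H ⧸ F')) → Fin d → K :=
      fun x => ((x.1 : GL (Fin d) K) * τ x.2).val.mulVec w
    have hinj : Function.Injective P := by
      rintro ⟨a, i⟩ ⟨b, j⟩ hab
      simp only [P] at hab
      have h1 : (((b : GL (Fin d) K) * τ j)⁻¹ * ((a : GL (Fin d) K) * τ i)).val.mulVec w = w := by
        rw [Units.val_mul, ← Matrix.mulVec_mulVec, hab, Matrix.mulVec_mulVec, ← Units.val_mul,
          inv_mul_cancel, Units.val_one, Matrix.one_mulVec]
      have h2 := hw _ (H.mul_mem (H.inv_mem (H.mul_mem (hFH b.2) (hτH j)))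
        (H.mul_mem (hFH a.2) (hτH i))) h1
      have h3 : (a : GL (Fin d) K) * τ i = (b : GL (Fin d) K) * τ j := by
        rw [inv_mul_eq_one] at h2
        exact h2.symm
      have h4 : τ i * (τ j)⁻¹ = (a : GL (Fin d) K)⁻¹ * b := by
        rw [eq_inv_mul_iff_mul_eq, ← mul_assoc, h3, mul_inv_cancel_right]
      have h5 : e i = e j := by
        rw [← Quotient.out_eq (e i), ← Quotient.out_eq (e j)]
        refine QuotientGroup.eq.mpr ?_
        rw [Subgroup.mem_subgroupOf]
        have h6 : (((Quotient.out (e i) : H)⁻¹ * (Quotient.out (e j) : H) : H) : GL (Fin d) K) =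
            τ i * (τ j)⁻¹ := by
          simp [hτ]
        rw [h6, h4]
        exact F.mul_mem (F.inv_mem a.2) b.2
      have h7 : i = j := e.injective h5
      subst h7
      have h8 : a = b := Subtype.ext (mul_right_cancel h3)
      rw [h8]
    obtain ⟨g, hg⟩ := QD3_interp P hinj (fun x => (ψ x.1 : K) * c x.2)
    have hc' : (Fintype.card F : K) ≠ 0 := by rwa [← Nat.card_eq_fintype_card]
    refine ⟨C (Fintype.card F : K)⁻¹ * ∑ a : F, C ((ψ a : K)⁻¹) * lin a.1.val g, ?_, ?_⟩
    · intro b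
      rw [map_mul, map_sum]
      have hC : ∀ r : K, lin (b : GL (Fin d) K).val (C r) = C r :=
        fun r => (lin (b : GL (Fin d) K).val).commutes r
      simp only [map_mul, hC, lin_lin]
      rw [mul_left_comm]
      congr 1
      rw [Finset.mul_sum]
      refine Fintype.sum_equiv (Equiv.mulRight b) _ _ fun a => ?_
      rw [Equiv.coe_mulRight, ← mul_assoc, ← C_mul]
      congr 2
      change _ = (ψ b : K) * ((ψ (a * b) : Kˣ) : K)⁻¹
      rw [map_mul, Units.val_mul, mul_inv, mul_comm ((ψ a : K))⁻¹, ← mul_assoc,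
        mul_inv_cancel₀ (Units.ne_zero _), one_mul]
    · intro i
      rw [map_mul, map_sum, eval_C]
      have h1 : ∀ a : F, eval ((τ i).val.mulVec w) (C ((ψ a : K)⁻¹) * lin a.1.val g) = c i := by
        intro a
        rw [map_mul, eval_C, eval_lin, Matrix.mulVec_mulVec]
        have := hg (a, i)
        simp only [P, Units.val_mul] at this
        rw [this, ← mul_assoc, inv_mul_cancel₀ (Units.ne_zero _), one_mul]
      rw [Finset.sum_congr rfl fun a _ => h1 a, Finset.sum_const, Finset.card_univ, nsmul_eq_mul,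
        ← mul_assoc, inv_mul_cancel₀ hc', one_mul]

end Pool.Agent.Lib.MP_1bbd88_ag.Q
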