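import Pool.Agent.Lib.MP_1bbd88_ag.Q.Defs
import Pool.Agent.Lib.MP_1bbd88_ag.Q.QC
import Pool.Agent.Lib.MP_1bbd88_ag.Q.QD1
import Pool.Agent.Lib.MP_1bbd88_ag.Q.QD2
import Pool.Agent.Lib.MP_1bbd88_ag.Q.QD3

set_option autoImplicit false

namespace Pool.Agent.Lib.MP_1bbd88_ag.Q

open Module MvPolynomial

variable {K : Type*} [Field K] {d : ℕ}

/-! ROW 1bbd-QD -/

theorem QD_card_ne (H F : Subgroup (GL (Fin d) K)) (hFH : F ≤ H)
    (hH : (Nat.card H : K) ≠ 0) : (Nat.card F : K) ≠ 0 := by
  obtain ⟨k, hk⟩ := Subgroup.card_dvd_of_le hFH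
  intro h0
  apply hH
  rw [hk, Nat.cast_mul, h0, zero_mul]

theorem QD_rows (H F : Subgroup (GL (Fin d) K)) (ψ : F →* Kˣ) {m δ : ℕ}
    (f : Fin m → MvPolynomial (Fin d) K) (τ : Fin δ → GL (Fin d) K) (hτ : ∀ i, τ i ∈ H)
    (hgen : ∀ u ∈ semi F ψ, ∃ r : Fin m → MvPolynomial (Fin d) K,
        (∀ j, r j ∈ inv H) ∧ u = ∑ j, r j * f j)
    (w : Fin d → K)
    (hint : ∀ c : Fin δ → K, ∃ f ∈ semi F ψ, ∀ i, eval ((τ i).val.mulVec w) f = c i)
    (c : Fin δ → K) (hc : ∀ j, ∑ i, c i * eval ((τ i).val.mulVec w) (f j) = 0) : c = 0 := by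
  classical
  funext i0
  obtain ⟨g, hg, hgi⟩ := hint (fun i => if i = i0 then 1 else 0)
  obtain ⟨r, hr, hgr⟩ := hgen g hg
  have hinv : ∀ i j, eval ((τ i).val.mulVec w) (r j) = eval w (r j) := by
    intro i j
    rw [← eval_lin, hr j (τ i) (hτ i)]
  have h1 : ∑ i, c i * eval ((τ i).val.mulVec w) g = c i0 := by
    simp [hgi]
  have h2 : ∑ i, c i * eval ((τ i).val.mulVec w) g = 0 := by
    calc ∑ i, c i * eval ((τ i).val.mulVec w) g
        = ∑ i, ∑ j, eval w (r j) * (c i * eval ((τ i).val.mulVec w) (f j)) := by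
          refine Finset.sum_congr rfl fun i _ => ?_
          rw [hgr, map_sum, Finset.mul_sum]
          refine Finset.sum_congr rfl fun j _ => ?_
          rw [map_mul, hinv]
          ring
      _ = ∑ j, ∑ i, eval w (r j) * (c i * eval ((τ i).val.mulVec w) (f j)) :=
          Finset.sum_comm
      _ = 0 := by
          refine Finset.sum_eq_zero fun j _ => ?_
          rw [← Finset.mul_sum, hc j, mul_zero]
  rw [← h1, h2]
  rfl

theorem QD_le {m δ : ℕ} (M : Fin δ → Fin m → K)
    (h : ∀ c : Fin δ → K, (∀ j, ∑ i, c i * M i j = 0) → c = 0) : δ ≤ m := by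
  have hli : LinearIndependent K M := by
    rw [Fintype.linearIndependent_iff]
    intro g hg i
    have := h g (fun j => by
      have := congrFun hg j
      simpa using this)
    rw [this]
    rfl
  have := hli.fintype_card_le_finrank
  simpa using this

theorem QD_eval_zero (F : Subgroup (GL (Fin d) K)) (ψ : F →* Kˣ) (hψ : ψ ≠ 1)
    (f : MvPolynomial (Fin d) K) (hf : f ∈ semi F ψ) : eval 0 f = 0 := by
  obtain ⟨a, ha⟩ : ∃ a, ψ a ≠ 1 := by
    by_contra hcon
    push Not at hcon
    exact hψ (MonoidHom.ext fun a => by simpa using hcon a)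
  have h1 : eval 0 (lin a.1.val f) = (ψ a : K) * eval 0 f := by
    rw [hf a, map_mul, eval_C]
  rw [eval_lin, Matrix.mulVec_zero] at h1
  have h2 : ((ψ a : K) - 1) * eval 0 f = 0 := by
    rw [sub_mul, one_mul, ← h1, sub_self]
  rcases mul_eq_zero.1 h2 with h3 | h3
  · exact absurd (Units.ext (sub_eq_zero.1 h3)) ha
  · exact h3

theorem QD_homog {f : MvPolynomial (Fin d) K} {e : ℕ} (hf : f.IsHomogeneous e)
    (h0 : eval 0 f = 0) : f.IsHomogeneous (max e 1) := by
  rcases Nat.eq_zero_or_pos e with he | he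
  · subst he
    have h1 : f = C (coeff 0 f) := by
      have : f.totalDegree = 0 := Nat.le_zero.1 hf.totalDegree_le
      exact totalDegree_eq_zero_iff_eq_C.1 this
    have h2 : f = 0 := by
      rw [h1, eval_C] at h0
      rw [h1, h0, C_0]
    rw [h2]
    exact isHomogeneous_zero _ _ _
  · rwa [max_eq_left he]

theorem QD_complement (H : Subgroup (GL (Fin d) K)) (d' : ℕ)
    (hd' : finrank K (Vfix H) + d' = d) :
    ∃ B : (Fin d' → K) →ₗ[K] (Fin d → K), ∀ w, w ≠ 0 → B w ∉ Vfix H := by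
  obtain ⟨W, hW⟩ := Submodule.exists_isCompl (Vfix H)
  have h1 : finrank K W = d' := by
    have := Submodule.finrank_add_eq_of_isCompl hW
    rw [Module.finrank_fin_fun] at this
    omega
  have h2 : finrank K (Fin d' → K) = finrank K W := by rw [h1, Module.finrank_fin_fun]
  let e := LinearEquiv.ofFinrankEq (Fin d' → K) W h2
  refine ⟨W.subtype.comp e.toLinearMap, fun w hw hB => hw ?_⟩
  have h3 : ((e w : W) : Fin d → K) ∈ Vfix H ⊓ W := ⟨hB, (e w).2⟩
  rw [hW.inf_eq_bot, Submodule.mem_bot] at h3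
  have h4 : e w = 0 := Subtype.ext h3
  simpa using h4

theorem mpsi_ge [IsAlgClosed K] (H F : Subgroup (GL (Fin d) K)) [Finite H] (hFH : F ≤ H)
    (hF : Comm F) (hH : (Nat.card H : K) ≠ 0) (hfree : FreeOff H) (d' : ℕ)
    (hd' : finrank K (Vfix H) + d' = d) (h1 : 1 ≤ d') (ψ : F →* Kˣ) :
    Nat.card H ≤ Nat.card F * mpsi H F ψ ∧
      (ψ ≠ 1 → Nat.card H + Nat.card F * (d' - 1) ≤ Nat.card F * mpsi H F ψ) := by
  classical
  have hc := QD_card_ne H F hFH hH
  obtain ⟨f, e, hfs, hfe, hgen⟩ := semi_gens H F hFH hF hc ψ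
  obtain ⟨δ, τ, hτ, hcard, hint⟩ := semi_interp H F hFH hF hc ψ
  have hstab : ∀ w, w ∉ Vfix H → ∀ h ∈ H, h.val.mulVec w = w → h = 1 := by
    intro w hw h hh hhw
    by_contra hne
    exact hw (hfree h hh hne w hhw)
  have hrows : ∀ w, w ∉ Vfix H → ∀ c : Fin δ → K,
      (∀ j, ∑ i, c i * eval ((τ i).val.mulVec w) (f j) = 0) → c = 0 := by
    intro w hw c hcj
    exact QD_rows H F ψ f τ hτ hgen w (hint w (hstab w hw)) c hcj
  obtain ⟨B, hB⟩ := QD_complement H d' hd'
  have hw0 : (fun _ => 1 : Fin d' → K) ≠ 0 := by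
    intro h0
    have := congrFun h0 ⟨0, h1⟩
    simp at this
  refine ⟨?_, fun hψ => ?_⟩
  · have h2 : δ ≤ mpsi H F ψ :=
      QD_le (fun i j => eval ((τ i).val.mulVec (B (fun _ => 1))) (f j))
        (hrows _ (hB _ hw0))
    rw [hcard]
    exact Nat.mul_le_mul_left _ h2
  · have hδ : 1 ≤ δ := by
      rcases Nat.eq_zero_or_pos δ with h0 | h0
      · rw [h0, mul_zero] at hcard
        exact absurd hcard Nat.card_pos.ne'
      · exact h0
    let Bm : Matrix (Fin d) (Fin d') K := LinearMap.toMatrix' B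
    have hBm : ∀ w, Bm.mulVec w = B w := by
      intro w
      rw [← Matrix.toLin'_apply, Matrix.toLin'_toMatrix']
    let Φ : Fin δ → Fin (mpsi H F ψ) → MvPolynomial (Fin d') K := fun i j =>
      aeval (fun k => ∑ l, C (((τ i).val * Bm) k l) * X l) (f j)
    have hΦe : ∀ i j w, eval w (Φ i j) = eval ((τ i).val.mulVec (B w)) (f j) := by
      intro i j w
      have h2 : eval w (Φ i j) =
          eval (((τ i).val * Bm).mulVec w) (f j) := by
        simp only [Φ]
        induction f j using MvPolynomial.induction_on with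
        | C a => simp
        | add f1 f2 h1 h2 => rw [map_add, map_add, map_add, h1, h2]
        | mul_X f i h =>
          rw [map_mul, map_mul, h, map_mul]
          congr 1
          simp [Matrix.mulVec, dotProduct]
      rw [h2, ← Matrix.mulVec_mulVec, hBm]
    have hΦh : ∀ i j, (Φ i j).IsHomogeneous (max (e j) 1) := by
      intro i j
      have hl : ∀ k, (∑ l, C (((τ i).val * Bm) k l) * X l :
          MvPolynomial (Fin d') K).IsHomogeneous 1 := by
        intro k
        refine MvPolynomial.IsHomogeneous.sum _ _ _ fun l _ => ?_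
        have := (isHomogeneous_C (Fin d') (((τ i).val * Bm) k l)).mul (isHomogeneous_X K l)
        rwa [zero_add] at this
      have := MvPolynomial.IsHomogeneous.aeval
        (QD_homog (hfe j) (QD_eval_zero F ψ hψ (f j) (hfs j)))
        (fun k => ∑ l, C (((τ i).val * Bm) k l) * X l) hl
      rwa [one_mul] at this
    have hQC := QC (n := d') (r := δ) (m := mpsi H F ψ) h1 hδ (fun j => max (e j) 1)
      (fun j => le_max_right _ _) Φ hΦh (by
        intro w hw c hcj
        refine hrows (B w) (hB w hw) c fun j => ?_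
        simpa only [hΦe] using hcj j)
    rw [hcard, ← mul_add]
    exact Nat.mul_le_mul_left _ (by omega)

theorem QD [IsAlgClosed K] (H : Subgroup (GL (Fin d) K)) [Finite H]
    (hH : (Nat.card H : K) ≠ 0) (hfree : FreeOff H) (d' : ℕ)
    (hd' : finrank K (Vfix H) + d' = d) (h1 : 1 ≤ d') (F : Subgroup (GL (Fin d) K)) (hFH : F ≤ H)
    (hF : Comm F) : Nat.card H + (d' - 1) * (Nat.card F - 1) ≤ N H := by
  classical
  have hc := QD_card_ne H F hFH hH
  have : Finite F := Finite.of_injective _ (Subgroup.inclusion_injective hFH)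
  have hFpos : 0 < Nat.card F := Nat.card_pos
  have hchars := card_chars F hF hc
  have : Finite (F →* Kˣ) := Nat.finite_of_card_ne_zero (by rw [hchars]; exact hFpos.ne')
  have := Fintype.ofFinite (F →* Kˣ)
  have hsum := sum_mpsi_le H F hFH Finset.univ
  have hcu : (Finset.univ : Finset (F →* Kˣ)).card = Nat.card F := by
    rw [Finset.card_univ, ← Nat.card_eq_fintype_card, hchars]
  have h2 : Nat.card F * (Nat.card H + (d' - 1) * (Nat.card F - 1)) ≤ Nat.card F * N H := by
    calc Nat.card F * (Nat.card H + (d' - 1) * (Nat.card F - 1))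
        = ∑ ψ : (F →* Kˣ), Nat.card H
            + ∑ ψ ∈ Finset.univ.erase (1 : F →* Kˣ), Nat.card F * (d' - 1) := by
          rw [Finset.sum_const, Finset.sum_const, Finset.card_erase_of_mem (Finset.mem_univ _), hcu,
            smul_eq_mul, smul_eq_mul]
          ring
      _ ≤ ∑ ψ : (F →* Kˣ), Nat.card F * mpsi H F ψ := by
          rw [← Finset.add_sum_erase _ _ (Finset.mem_univ (1 : F →* Kˣ)),
            ← Finset.add_sum_erase Finset.univ (fun ψ => Nat.card F * mpsi H F ψ)
              (Finset.mem_univ (1 : F →* Kˣ)), add_assoc, ← Finset.sum_add_distrib]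
          refine add_le_add (mpsi_ge H F hFH hF hH hfree d' hd' h1 1).1 ?_
          refine Finset.sum_le_sum fun ψ hψ => ?_
          exact (mpsi_ge H F hFH hF hH hfree d' hd' h1 ψ).2 (Finset.ne_of_mem_erase hψ)
      _ = Nat.card F * ∑ ψ : (F →* Kˣ), mpsi H F ψ := by rw [Finset.mul_sum]
      _ ≤ Nat.card F * N H := Nat.mul_le_mul_left _ hsum
  exact Nat.le_of_mul_le_mul_left h2 hFpos

end Pool.Agent.Lib.MP_1bbd88_ag.Q
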