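import Pool.Agent.Lib.MP_1bbd88_ag.Q.Defs
import Pool.Agent.Lib.MP_1bbd88_ag.Q.QN

set_option autoImplicit false

namespace Pool.Agent.Lib.MP_1bbd88_ag.Q

open Module MvPolynomial

variable {K : Type*} [Field K] {d : ℕ}

/-! ROW 1bbd-QE -/

/-- translation -/
noncomputable def QE_sh (u : Fin d → K) : MvPolynomial (Fin d) K →ₐ[K] MvPolynomial (Fin d) K :=
  aeval fun i => X i + C (u i)

theorem QE_sh_X (u : Fin d → K) (i : Fin d) : QE_sh u (X i) = X i + C (u i) := by simp [QE_sh]

theorem QE_sh_C (u : Fin d → K) (c : K) : QE_sh u (C c) = C c := (QE_sh u).commutes c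

theorem QE_eval_sh (u w : Fin d → K) (f : MvPolynomial (Fin d) K) :
    eval w (QE_sh u f) = eval (w + u) f := by
  induction f using MvPolynomial.induction_on with
  | C a => simp [QE_sh]
  | add f1 f2 h1 h2 => simp [h1, h2]
  | mul_X f i h => rw [map_mul, map_mul, h, map_mul, QE_sh_X]; simp

theorem QE_sh_sh (u v : Fin d → K) (f : MvPolynomial (Fin d) K) :
    QE_sh u (QE_sh v f) = QE_sh (u + v) f := by
  have : (QE_sh u).comp (QE_sh v) = QE_sh (u + v) := by
    apply MvPolynomial.algHom_ext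
    intro i
    rw [AlgHom.comp_apply, QE_sh_X, map_add, QE_sh_X, QE_sh_X, QE_sh_C, Pi.add_apply, map_add,
      add_assoc]
  exact DFunLike.congr_fun this f

theorem QE_sh_zero (f : MvPolynomial (Fin d) K) : QE_sh (0 : Fin d → K) f = f := by
  have : QE_sh (0 : Fin d → K) = AlgHom.id K _ := by
    apply MvPolynomial.algHom_ext
    intro i
    rw [QE_sh_X]
    simp
  rw [this]
  rfl

theorem QE_sh_lin (h : Matrix (Fin d) (Fin d) K) (u : Fin d → K) (f : MvPolynomial (Fin d) K) :
    QE_sh u (lin h f) = lin h (QE_sh (h.mulVec u) f) := by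
  have : (QE_sh u).comp (lin h) = (lin h).comp (QE_sh (h.mulVec u)) := by
    apply MvPolynomial.algHom_ext
    intro i
    have hC : ∀ c, lin h (C c) = C c := fun c => (lin h).commutes c
    rw [AlgHom.comp_apply, AlgHom.comp_apply, lin_X, QE_sh_X, map_add, lin_X, hC, map_sum]
    simp only [map_mul, QE_sh_X, QE_sh_C, mul_add, Finset.sum_add_distrib]
    congr 1
    simp [Matrix.mulVec, dotProduct]
  exact DFunLike.congr_fun this f

/-- `f(x) ↦ f(g (x + u))` -/
noncomputable def QE_A (g : Matrix (Fin d) (Fin d) K) (u : Fin d → K) :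
    MvPolynomial (Fin d) K →ₐ[K] MvPolynomial (Fin d) K := (QE_sh u).comp (lin g)

theorem QE_A_surj (g : GL (Fin d) K) (u : Fin d → K) : Function.Surjective (QE_A g.val u) := by
  intro f
  refine ⟨lin (g⁻¹).val (QE_sh (-u) f), ?_⟩
  rw [QE_A, AlgHom.comp_apply, lin_lin, ← Units.val_mul, inv_mul_cancel, Units.val_one, lin_one,
    AlgHom.id_apply, QE_sh_sh, add_neg_cancel, QE_sh_zero]

/-- the ideal of the point `g u` -/
noncomputable def QE_I (G : Subgroup (GL (Fin d) K)) (u : Fin d → K) (g : GL (Fin d) K) :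
    Ideal (MvPolynomial (Fin d) K) :=
  (J (stab G u)).comap (QE_A g.val u)

theorem QE_equiv (G : Subgroup (GL (Fin d) K)) (u : Fin d → K) (g : GL (Fin d) K) :
    Nonempty ((MvPolynomial (Fin d) K ⧸ QE_I G u g) ≃ₗ[K]
      (MvPolynomial (Fin d) K ⧸ J (stab G u))) := by
  have hs : Function.Surjective ((Ideal.Quotient.mkₐ K (J (stab G u))).comp (QE_A g.val u)) :=
    (Ideal.Quotient.mkₐ_surjective K (J (stab G u))).comp (QE_A_surj g u)
  have hk : RingHom.ker ((Ideal.Quotient.mkₐ K (J (stab G u))).comp (QE_A g.val u)) =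
      QE_I G u g := by
    ext f
    rw [RingHom.mem_ker, QE_I, Ideal.mem_comap, AlgHom.comp_apply, Ideal.Quotient.mkₐ_eq_mk,
      Ideal.Quotient.eq_zero_iff_mem]
  rw [← hk]
  exact ⟨(Ideal.quotientKerAlgEquivOfSurjective hs).toLinearEquiv⟩

theorem QE_stab_finite (G : Subgroup (GL (Fin d) K)) [Finite G] (u : Fin d → K) :
    Finite (stab G u) := by
  have h : (G : Set (GL (Fin d) K)).Finite := Set.toFinite _
  have h2 : ((stab G u : Subgroup (GL (Fin d) K)) : Set (GL (Fin d) K)).Finite :=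
    h.subset fun g hg => hg.1
  exact h2

theorem QE_nu (G : Subgroup (GL (Fin d) K)) (u : Fin d → K) (g : GL (Fin d) K) (hg : g ∈ G)
    (f : MvPolynomial (Fin d) K) (hf : f ∈ inv G) : f - C (eval u f) ∈ QE_I G u g := by
  rw [QE_I, Ideal.mem_comap, map_sub]
  have h1 : QE_A g.val u f = QE_sh u f := by
    rw [QE_A, AlgHom.comp_apply, hf g hg]
  have h2 : QE_A g.val u (C (eval u f)) = C (eval u f) := (QE_A g.val u).commutes _
  rw [h1, h2]
  refine Ideal.subset_span ⟨?_, ?_⟩
  · intro h hh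
    have hC : ∀ c, lin h.val (C c) = C c := fun c => (lin h.val).commutes c
    rw [map_sub, hC]
    congr 1
    have h3 := QE_sh_lin h.val u f
    rw [hf h hh.1, hh.2] at h3
    exact h3.symm
  · rw [map_sub, constantCoeff_C, sub_eq_zero, ← MvPolynomial.eval_zero]
    rw [QE_eval_sh, zero_add]

theorem QE_rad (G : Subgroup (GL (Fin d) K)) [Finite G] (u : Fin d → K) (g : GL (Fin d) K)
    (i : Fin d) : X i - C ((g.val.mulVec u) i) ∈ (QE_I G u g).radical := by
  have := QE_stab_finite G u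
  rw [QE_I, ← Ideal.comap_radical, Ideal.mem_comap]
  have h1 : QE_A g.val u (X i - C ((g.val.mulVec u) i)) = lin g.val (X i) := by
    rw [map_sub, QE_A, AlgHom.comp_apply, QE_sh_lin, QE_sh_X, map_add, AlgHom.comp_apply]
    have hC : ∀ c, lin g.val (C c) = C c := fun c => (lin g.val).commutes c
    rw [hC, QE_sh_C, add_sub_cancel_right]
  rw [h1, lin_X]
  refine Ideal.sum_mem _ fun j _ => Ideal.mul_mem_left _ _ ?_
  exact ⟨_, X_pow_mem_J (stab G u) j⟩

theorem QE_coprime (G : Subgroup (GL (Fin d) K)) [Finite G] (u : Fin d → K) (g g' : GL (Fin d) K)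
    (h : g.val.mulVec u ≠ g'.val.mulVec u) : IsCoprime (QE_I G u g) (QE_I G u g') := by
  rw [Ideal.isCoprime_iff_sup_eq, ← Ideal.radical_eq_top, Ideal.eq_top_iff_one]
  obtain ⟨i, hi⟩ := Function.ne_iff.mp h
  have h1 := Ideal.radical_mono (J := QE_I G u g ⊔ QE_I G u g') le_sup_left (QE_rad G u g i)
  have h2 := Ideal.radical_mono (J := QE_I G u g ⊔ QE_I G u g') le_sup_right (QE_rad G u g' i)
  have h3 := Ideal.sub_mem _ h2 h1
  have h4 : (X i - C ((g'.val.mulVec u) i) - (X i - C ((g.val.mulVec u) i)) :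
      MvPolynomial (Fin d) K) = C ((g.val.mulVec u) i - (g'.val.mulVec u) i) := by
    rw [map_sub]; ring
  rw [h4] at h3
  have h5 := Ideal.mul_mem_left _ (C ((g.val.mulVec u) i - (g'.val.mulVec u) i)⁻¹) h3
  rwa [← map_mul, inv_mul_cancel₀ (sub_ne_zero.mpr hi), map_one] at h5

theorem QE_J_le (G : Subgroup (GL (Fin d) K)) (x : MvPolynomial (Fin d) K) (hx : x ∈ J G) :
    x ∈ Submodule.span K {x | ∃ r ∈ inv G, constantCoeff r = 0 ∧
      ∃ v ∈ (⊤ : Submodule K (MvPolynomial (Fin d) K)), x = r * v} := by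
  have key : ∀ y, y * x ∈ Submodule.span K {x | ∃ r ∈ inv G, constantCoeff r = 0 ∧
      ∃ v ∈ (⊤ : Submodule K (MvPolynomial (Fin d) K)), x = r * v} := by
    rw [J] at hx
    induction hx using Submodule.span_induction with
    | mem r hr =>
      intro y
      exact Submodule.subset_span ⟨r, hr.1, hr.2, y, trivial, mul_comm _ _⟩
    | zero => intro y; rw [mul_zero]; exact Submodule.zero_mem _
    | add a b _ _ ha hb => intro y; rw [mul_add]; exact Submodule.add_mem _ (ha y) (hb y)
    | smul a b _ hb => intro y; rw [smul_eq_mul, ← mul_assoc]; exact hb _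
  have := key 1
  rwa [one_mul] at this

theorem QE_gens (G : Subgroup (GL (Fin d) K)) [Finite G] :
    ∃ f : Fin (N G) → MvPolynomial (Fin d) K, ∀ p : MvPolynomial (Fin d) K,
      ∃ r : Fin (N G) → MvPolynomial (Fin d) K, (∀ j, r j ∈ inv G) ∧ p = ∑ j, r j * f j := by
  classical
  set π := (Ideal.Quotient.mkₐ K (J G)).toLinearMap with hπ
  have hπs : Function.Surjective π := Ideal.Quotient.mkₐ_surjective K (J G)
  obtain ⟨κ, a, ha, hsp, hli⟩ := exists_linearIndependent' K
    (fun s : Fin d →₀ ℕ => π (monomial s (1 : K)))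
  have htop : Submodule.span K (Set.range fun s : Fin d →₀ ℕ => π (monomial s (1 : K))) = ⊤ := by
    have h1 : (Set.range fun s : Fin d →₀ ℕ => π (monomial s (1 : K))) =
        π '' (Set.range fun s : Fin d →₀ ℕ => monomial s (1 : K)) := by
      rw [← Set.range_comp]; rfl
    rw [h1, ← Submodule.map_span]
    have h2 : Submodule.span K (Set.range fun s : Fin d →₀ ℕ => monomial s (1 : K)) = ⊤ := by
      have := (MvPolynomial.basisMonomials (Fin d) K).span_eq
      rwa [MvPolynomial.coe_basisMonomials] at this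
    rw [h2, Submodule.map_top, LinearMap.range_eq_top.mpr hπs]
  rw [htop] at hsp
  let b : Basis κ K (MvPolynomial (Fin d) K ⧸ J G) := Basis.mk hli hsp.ge
  have : Finite κ := Module.Finite.finite_basis b
  have hcard : Nat.card κ = N G := by
    rw [N, Module.finrank_eq_nat_card_basis b]
  let ε : κ ≃ Fin (N G) := (Finite.equivFin κ).trans (finCongr hcard)
  let f : Fin (N G) → MvPolynomial (Fin d) K := fun j => monomial (a (ε.symm j)) (1 : K)
  have hsp2 : Submodule.span K (Set.range fun j => π (f j)) = ⊤ := by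
    rw [← hsp]
    congr 1
    ext x
    constructor
    · rintro ⟨j, rfl⟩
      exact ⟨ε.symm j, rfl⟩
    · rintro ⟨k, rfl⟩
      refine ⟨ε k, ?_⟩
      simp [f]
  refine ⟨f, fun p => nakayama G ⊤ (fun _ _ _ => trivial) f (fun j => (a (ε.symm j)).degree)
    (fun j => isHomogeneous_monomial _ rfl) (fun _ => trivial) ?_ p trivial⟩
  intro u _
  have hu : π u ∈ Submodule.span K (Set.range fun j => π (f j)) := by rw [hsp2]; trivial
  obtain ⟨c, hc⟩ := (Submodule.mem_span_range_iff_exists_fun K).mp hu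
  refine ⟨c, QE_J_le G _ ?_⟩
  rw [← Ideal.Quotient.eq_zero_iff_mem]
  change π _ = 0
  rw [map_sub, map_sum, sub_eq_zero, ← hc]
  refine Finset.sum_congr rfl fun j _ => ?_
  rw [← smul_eq_C_mul, map_smul]

theorem QE_card (G : Subgroup (GL (Fin d) K)) [Finite G] (u : Fin d → K) :
    Nat.card G = Nat.card {w : Fin d → K // ∃ g : G, g.1.val.mulVec u = w} *
      Nat.card (stab G u) := by
  classical
  have hex : ∀ w : {w : Fin d → K // ∃ g : G, g.1.val.mulVec u = w},
      ∃ g : G, g.1.val.mulVec u = w.1 := fun w => w.2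
  choose γ hγ using hex
  rw [← Nat.card_prod]
  let wt : G → {w : Fin d → K // ∃ g : G, g.1.val.mulVec u = w} :=
    fun g => ⟨g.1.val.mulVec u, g, rfl⟩
  have hmem : ∀ g : G, ((γ (wt g)).1⁻¹ * g.1 : GL (Fin d) K) ∈ stab G u := by
    intro g
    refine ⟨G.mul_mem (G.inv_mem (γ (wt g)).2) g.2, ?_⟩
    rw [Units.val_mul, ← Matrix.mulVec_mulVec]
    have h1 : g.1.val.mulVec u = (γ (wt g)).1.val.mulVec u := (hγ (wt g)).symm
    rw [h1, Matrix.mulVec_mulVec, ← Units.val_mul, inv_mul_cancel, Units.val_one,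
      Matrix.one_mulVec]
  have hw : ∀ (w : {w : Fin d → K // ∃ g : G, g.1.val.mulVec u = w}) (s : stab G u),
      wt (⟨(γ w).1 * s.1, G.mul_mem (γ w).2 s.2.1⟩ : G) = w := by
    intro w s
    apply Subtype.ext
    change ((γ w).1 * s.1 : GL (Fin d) K).val.mulVec u = w.1
    rw [Units.val_mul, ← Matrix.mulVec_mulVec, s.2.2, hγ]
  refine Nat.card_congr
    { toFun := fun g => (wt g, ⟨(γ (wt g)).1⁻¹ * g.1, hmem g⟩)
      invFun := fun p => ⟨(γ p.1).1 * p.2.1, G.mul_mem (γ p.1).2 p.2.2.1⟩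
      left_inv := fun g => by
        apply Subtype.ext
        simp
      right_inv := fun p => by
        apply Prod.ext
        · exact hw p.1 p.2
        · apply Subtype.ext
          simp only [hw, inv_mul_cancel_left] }

theorem QE [IsAlgClosed K] (G : Subgroup (GL (Fin d) K)) [Finite G] (u : Fin d → K) :
    Nat.card G * N (stab G u) ≤ Nat.card (stab G u) * N G := by
  classical
  have := QE_stab_finite G u
  obtain ⟨f, hf⟩ := QE_gens G
  have hex : ∀ w : {w : Fin d → K // ∃ g : G, g.1.val.mulVec u = w},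
      ∃ g : G, g.1.val.mulVec u = w.1 := fun w => w.2
  choose γ hγ using hex
  have : Finite {w : Fin d → K // ∃ g : G, g.1.val.mulVec u = w} := by
    refine Finite.of_surjective (fun g : G => (⟨g.1.val.mulVec u, g, rfl⟩ :
      {w : Fin d → K // ∃ g : G, g.1.val.mulVec u = w})) ?_
    rintro ⟨w, g, rfl⟩
    exact ⟨g, rfl⟩
  have : Fintype {w : Fin d → K // ∃ g : G, g.1.val.mulVec u = w} := Fintype.ofFinite _
  have hcop : Pairwise (Function.onFun IsCoprime
      fun w : {w : Fin d → K // ∃ g : G, g.1.val.mulVec u = w} => QE_I G u (γ w).1) := by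
    intro w w' hww
    refine QE_coprime G u _ _ ?_
    rw [hγ, hγ]
    exact fun h => hww (Subtype.ext h)
  let Φ : MvPolynomial (Fin d) K →ₗ[K] (∀ w : {w : Fin d → K // ∃ g : G, g.1.val.mulVec u = w},
      MvPolynomial (Fin d) K ⧸ QE_I G u (γ w).1) :=
    LinearMap.pi fun w => (Ideal.Quotient.mkₐ K (QE_I G u (γ w).1)).toLinearMap
  have hΦ : Function.Surjective Φ := by
    intro x
    obtain ⟨r, hr⟩ := Ideal.pi_quotient_surjective hcop x
    exact ⟨r, funext hr⟩
  have hspan : (⊤ : Submodule K (∀ w : {w : Fin d → K // ∃ g : G, g.1.val.mulVec u = w},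
      MvPolynomial (Fin d) K ⧸ QE_I G u (γ w).1)) ≤
      Submodule.span K (Set.range fun j => Φ (f j)) := by
    intro x _
    obtain ⟨p, rfl⟩ := hΦ x
    obtain ⟨r, hr, hp⟩ := hf p
    have h1 : Φ p = ∑ j, (eval u (r j)) • Φ (f j) := by
      funext w
      rw [Finset.sum_apply]
      change Ideal.Quotient.mk _ p = ∑ j, (eval u (r j)) • Ideal.Quotient.mk _ (f j)
      conv_lhs => rw [hp]
      rw [map_sum]
      refine Finset.sum_congr rfl fun j _ => ?_
      have h2 := QE_nu G u (γ w).1 (γ w).2 (r j) (hr j)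
      have h3 : Ideal.Quotient.mk (QE_I G u (γ w).1) (r j) =
          Ideal.Quotient.mk _ (C (eval u (r j))) := Ideal.Quotient.eq.mpr h2
      rw [map_mul, h3, ← map_mul, ← smul_eq_C_mul]
      rfl
    rw [h1]
    exact Submodule.sum_mem _ fun j _ => Submodule.smul_mem _ _ (Submodule.subset_span ⟨j, rfl⟩)
  have : ∀ w : {w : Fin d → K // ∃ g : G, g.1.val.mulVec u = w},
      Module.Finite K (MvPolynomial (Fin d) K ⧸ QE_I G u (γ w).1) := by
    intro w
    obtain ⟨e⟩ := QE_equiv G u (γ w).1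
    exact Module.Finite.equiv e.symm
  have h1 : finrank K (∀ w : {w : Fin d → K // ∃ g : G, g.1.val.mulVec u = w},
      MvPolynomial (Fin d) K ⧸ QE_I G u (γ w).1) ≤ N G := by
    have h2 := finrank_range_le_card (R := K) (fun j => Φ (f j))
    rw [Set.finrank, top_le_iff.mp hspan, finrank_top, Fintype.card_fin] at h2
    exact h2
  have h2 : finrank K (∀ w : {w : Fin d → K // ∃ g : G, g.1.val.mulVec u = w},
      MvPolynomial (Fin d) K ⧸ QE_I G u (γ w).1) =
      Nat.card {w : Fin d → K // ∃ g : G, g.1.val.mulVec u = w} * N (stab G u) := by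
    rw [Module.finrank_pi_fintype, Nat.card_eq_fintype_card]
    have h3 : ∀ w : {w : Fin d → K // ∃ g : G, g.1.val.mulVec u = w},
        finrank K (MvPolynomial (Fin d) K ⧸ QE_I G u (γ w).1) = N (stab G u) := by
      intro w
      obtain ⟨e⟩ := QE_equiv G u (γ w).1
      exact e.finrank_eq
    simp only [h3, Finset.sum_const, Finset.card_univ, smul_eq_mul]
  rw [QE_card G u]
  calc _ = Nat.card (stab G u) * (Nat.card {w : Fin d → K // ∃ g : G, g.1.val.mulVec u = w} *
        N (stab G u)) := by ring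
    _ ≤ _ := Nat.mul_le_mul_left _ (h2 ▸ h1)

end Pool.Agent.Lib.MP_1bbd88_ag.Q
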