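import Pool.Agent.Lib.MP_1bbd88_ag.Q.Defs

set_option autoImplicit false

namespace Pool.Agent.Lib.MP_1bbd88_ag.Q

open Module MvPolynomial

variable {K : Type*} [Field K] {d : ℕ}

/-! ROW 1bbd-QF -/

theorem QF_finite (g : Matrix (Fin d) (Fin d) K) (u w : Fin d → K) (hg : g.mulVec u ≠ u) :
    {c : K | g.mulVec (u + c • w) = u + c • w}.Finite := by
  refine Set.Subsingleton.finite ?_
  intro a ha b hb
  simp only [Set.mem_setOf_eq, Matrix.mulVec_add, Matrix.mulVec_smul] at ha hb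
  by_contra hab
  have h1 : (a - b) • (g.mulVec w - w) = 0 := by
    have h2 : g.mulVec u + a • g.mulVec w - (u + a • w) = 0 := sub_eq_zero.mpr ha
    have h3 : g.mulVec u + b • g.mulVec w - (u + b • w) = 0 := sub_eq_zero.mpr hb
    have h4 : (a - b) • (g.mulVec w - w) =
        (g.mulVec u + a • g.mulVec w - (u + a • w)) -
          (g.mulVec u + b • g.mulVec w - (u + b • w)) := by
      rw [smul_sub, sub_smul, sub_smul]
      abel
    rw [h4, h2, h3, sub_zero]
  have h5 : g.mulVec w = w := by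
    rcases smul_eq_zero.mp h1 with h | h
    · exact absurd (sub_eq_zero.mp h) hab
    · exact sub_eq_zero.mp h
  rw [h5] at ha
  exact hg (add_right_cancel ha)

theorem QF [Infinite K] (G : Subgroup (GL (Fin d) K)) [Finite G] (v : Fin d → K)
    (hv : stab G v ≠ ⊥) : ∃ u, stab G u ≤ stab G v ∧ stab G u ≠ ⊥ ∧ FreeOff (stab G u) := by
  classical
  obtain ⟨u, hu1, hu2, hmin⟩ : ∃ u, stab G u ≤ stab G v ∧ stab G u ≠ ⊥ ∧
      ∀ u', stab G u' ≤ stab G v → stab G u' ≠ ⊥ →
        Nat.card (stab G u) ≤ Nat.card (stab G u') := by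
    let P : Set ℕ := {n | ∃ u, stab G u ≤ stab G v ∧ stab G u ≠ ⊥ ∧ Nat.card (stab G u) = n}
    have hP : P.Nonempty := ⟨_, v, le_rfl, hv, rfl⟩
    obtain ⟨u, h1, h2, h3⟩ := Nat.sInf_mem hP
    exact ⟨u, h1, h2, fun u' a b => h3 ▸ Nat.sInf_le ⟨u', a, b, rfl⟩⟩
  refine ⟨u, hu1, hu2, ?_⟩
  intro h hh hne w hw k hk
  have hfin : ((⋃ g : {g : G // g.1 ∉ stab G u},
      {c : K | g.1.1.val.mulVec (u + c • w) = u + c • w}) ∪ {0}).Finite := by
    refine Set.Finite.union (Set.finite_iUnion fun g => ?_) (Set.finite_singleton 0)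
    exact QF_finite _ u w fun hc => g.2 ⟨g.1.2, hc⟩
  obtain ⟨c, hc⟩ := hfin.exists_notMem
  rw [Set.mem_union, not_or, Set.mem_iUnion, not_exists] at hc
  obtain ⟨hc1, hc2⟩ := hc
  have hc0 : c ≠ 0 := fun h0 => hc2 (by rw [h0]; exact Set.mem_singleton 0)
  have hle : stab G (u + c • w) ≤ stab G u := by
    intro g hg
    by_contra hn
    exact hc1 ⟨⟨g, hg.1⟩, hn⟩ hg.2
  have hmem : h ∈ stab G (u + c • w) := by
    refine ⟨hh.1, ?_⟩
    rw [Matrix.mulVec_add, Matrix.mulVec_smul, hh.2, hw]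
  have hbot : stab G (u + c • w) ≠ ⊥ := by
    intro hb
    rw [hb, Subgroup.mem_bot] at hmem
    exact hne hmem
  have hcard := hmin _ (hle.trans hu1) hbot
  have hfG : Finite (stab G u) :=
    Finite.of_injective (Subgroup.inclusion (fun g (hg : g ∈ stab G u) => hg.1 : stab G u ≤ G))
      (Subgroup.inclusion_injective _)
  have heq : stab G (u + c • w) = stab G u := Subgroup.eq_of_le_of_card_ge hle hcard
  have hk2 : k ∈ stab G (u + c • w) := by rw [heq]; exact hk
  have hk3 := hk2.2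
  rw [Matrix.mulVec_add, Matrix.mulVec_smul, hk.2] at hk3
  have hk4 := add_left_cancel hk3
  have hk5 : c • (k.val.mulVec w - w) = 0 := by rw [smul_sub, hk4, sub_self]
  exact sub_eq_zero.mp ((smul_eq_zero.mp hk5).resolve_left hc0)

end Pool.Agent.Lib.MP_1bbd88_ag.Q
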