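import Pool.Agent.Lib.MP_1bbd88_ag.Q.Defs
import Pool.Agent.Lib.MP_1bbd88_ag.Len

set_option autoImplicit false

namespace Pool.Agent.Lib.MP_1bbd88_ag.Q

open Module MvPolynomial

variable {K : Type*} [Field K] {d : ℕ}

/-! ROW 1bbd-QG1 -/

private theorem QG1_inj (q : ℕ) (hq : 0 < q) (a : Fin d →₀ ℕ) :
    Function.Injective (fun b : Fin d →₀ ℕ => q • b + a) := by
  intro b c h
  have h1 : q • b = q • c := add_right_cancel h
  ext i
  have h2 := DFunLike.congr_fun h1 i
  simp only [Finsupp.smul_apply, smul_eq_mul] at h2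
  exact Nat.eq_of_mul_eq_mul_left hq h2

/-- the coefficient of `θ_a f` at `b` is the image under `r` of the coefficient of `f` at
`q b + a` -/
private noncomputable def QG1_th (q : ℕ) (hq : 0 < q) (r : K ≃+* K) (a : Fin d →₀ ℕ)
    (f : MvPolynomial (Fin d) K) : MvPolynomial (Fin d) K :=
  AddMonoidAlgebra.ofCoeff ((Finsupp.comapDomain (fun b => q • b + a) (AddMonoidAlgebra.coeff f)
    ((QG1_inj q hq a).injOn)).mapRange r (map_zero r))

private theorem QG1_coeff (q : ℕ) (hq : 0 < q) (r : K ≃+* K) (a : Fin d →₀ ℕ)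
    (f : MvPolynomial (Fin d) K) (b : Fin d →₀ ℕ) :
    coeff b (QG1_th q hq r a f) = r (coeff (q • b + a) f) := rfl

private theorem QG1_add (q : ℕ) (hq : 0 < q) (r : K ≃+* K) (a : Fin d →₀ ℕ)
    (f g : MvPolynomial (Fin d) K) :
    QG1_th q hq r a (f + g) = QG1_th q hq r a f + QG1_th q hq r a g := by
  ext b
  rw [QG1_coeff, coeff_add, coeff_add, QG1_coeff, QG1_coeff, map_add]

private theorem QG1_zero (q : ℕ) (hq : 0 < q) (r : K ≃+* K) (a : Fin d →₀ ℕ) :
    QG1_th q hq r a (0 : MvPolynomial (Fin d) K) = 0 := by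
  ext b
  rw [QG1_coeff, coeff_zero, coeff_zero, map_zero]

private theorem QG1_mon (q : ℕ) (hq : 0 < q) (r : K ≃+* K) (hr : ∀ x, r (x ^ q) = x)
    (a : Fin d →₀ ℕ) (ha : ∀ i, a i < q) (m m' : Fin d →₀ ℕ) (c c' : K) :
    QG1_th q hq r a (monomial m c ^ q * monomial m' c') =
      monomial m c * QG1_th q hq r a (monomial m' c') := by
  classical
  ext b
  rw [QG1_coeff, monomial_pow, monomial_mul, coeff_monomial, coeff_monomial_mul', QG1_coeff,
    coeff_monomial]
  by_cases h : q • m + m' = q • b + a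
  · have hle : m ≤ b := by
      intro i
      have h2 := DFunLike.congr_fun h i
      simp only [Finsupp.add_apply, Finsupp.smul_apply, smul_eq_mul] at h2
      have h3 := ha i
      by_contra hc
      push Not at hc
      have h4 : q * (b i + 1) ≤ q * m i := Nat.mul_le_mul_left q hc
      rw [Nat.mul_add] at h4
      omega
    have h5 : m' = q • (b - m) + a := by
      ext i
      have h2 := DFunLike.congr_fun h i
      have h3 := hle i
      simp only [Finsupp.add_apply, Finsupp.smul_apply, smul_eq_mul, Finsupp.tsub_apply] at h2 ⊢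
      have h4 : q * m i ≤ q * b i := Nat.mul_le_mul_left q h3
      rw [Nat.mul_sub]
      omega
    rw [if_pos h, if_pos hle, if_pos h5, map_mul, hr]
  · rw [if_neg h, map_zero]
    by_cases hle : m ≤ b
    · rw [if_pos hle]
      by_cases h5 : m' = q • (b - m) + a
      · exfalso
        apply h
        rw [h5]
        ext i
        have h3 := hle i
        simp only [Finsupp.add_apply, Finsupp.smul_apply, smul_eq_mul, Finsupp.tsub_apply]
        have h4 : q * m i ≤ q * b i := Nat.mul_le_mul_left q h3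
        rw [Nat.mul_sub]
        omega
      · rw [if_neg h5, map_zero, mul_zero]
    · rw [if_neg hle]

private theorem QG1_mul {p : ℕ} [Fact p.Prime] [CharP K p] (e : ℕ) (hq : 0 < p ^ e)
    (r : K ≃+* K) (hr : ∀ x, r (x ^ (p ^ e)) = x)
    (a : Fin d →₀ ℕ) (ha : ∀ i, a i < p ^ e) (f u : MvPolynomial (Fin d) K) :
    QG1_th (p ^ e) hq r a (f ^ (p ^ e) * u) = f * QG1_th (p ^ e) hq r a u := by
  induction u using MvPolynomial.induction_on' with
  | monomial m' c' =>
    induction f using MvPolynomial.induction_on' with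
    | monomial m c => exact QG1_mon _ hq r hr a ha m m' c c'
    | add f g hf hg => rw [add_pow_char_pow, add_mul, QG1_add, hf, hg, add_mul]
  | add u v hu hv => rw [mul_add, QG1_add, hu, hv, QG1_add, mul_add]

private theorem QG1_mem {p : ℕ} [Fact p.Prime] [CharP K p] (e : ℕ) (hq : 0 < p ^ e)
    (r : K ≃+* K) (hr : ∀ x, r (x ^ (p ^ e)) = x)
    (a : Fin d →₀ ℕ) (ha : ∀ i, a i < p ^ e) (I : Ideal (MvPolynomial (Fin d) K))
    (x : MvPolynomial (Fin d) K) (hx : x ∈ bracket I (p ^ e)) :
    ∀ u, QG1_th (p ^ e) hq r a (x * u) ∈ I := by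
  induction hx using Submodule.span_induction with
  | mem x h =>
    obtain ⟨f, hf, rfl⟩ := h
    intro u
    show QG1_th (p ^ e) hq r a (f ^ (p ^ e) * u) ∈ I
    rw [QG1_mul e hq r hr a ha]
    exact I.mul_mem_right _ hf
  | zero =>
    intro u
    rw [zero_mul, QG1_zero]
    exact I.zero_mem
  | add x y _ _ hx hy =>
    intro u
    rw [add_mul, QG1_add]
    exact I.add_mem (hx u) (hy u)
  | smul c x _ hx =>
    intro u
    have : c • x * u = x * (c * u) := by rw [smul_eq_mul]; ring
    rw [this]
    exact hx _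

private theorem QG1_sum (q : ℕ) (hq : 0 < q) (r : K ≃+* K) (a : Fin d →₀ ℕ) {ι : Type*}
    (s : Finset ι) (f : ι → MvPolynomial (Fin d) K) :
    QG1_th q hq r a (∑ i ∈ s, f i) = ∑ i ∈ s, QG1_th q hq r a (f i) := by
  classical
  induction s using Finset.induction_on with
  | empty => rw [Finset.sum_empty, Finset.sum_empty, QG1_zero]
  | insert i s hi ih => rw [Finset.sum_insert hi, Finset.sum_insert hi, QG1_add, ih]

private theorem QG1_small (q : ℕ) (hq : 0 < q) (r : K ≃+* K) (a a' : Fin d →₀ ℕ)
    (ha' : ∀ i, a' i < q) (c : K) :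
    QG1_th q hq r a (monomial a' c) = if a' = a then C (r c) else 0 := by
  classical
  ext b
  rw [QG1_coeff, coeff_monomial]
  by_cases h : a' = q • b + a
  · have hb : b = 0 := by
      ext i
      have h2 := DFunLike.congr_fun h i
      simp only [Finsupp.add_apply, Finsupp.smul_apply, smul_eq_mul] at h2
      have h3 := ha' i
      by_contra hc
      have h4 : q * 1 ≤ q * b i := Nat.mul_le_mul_left q (Nat.one_le_iff_ne_zero.2 hc)
      omega
    subst hb
    have : a' = a := by rw [h]; simp
    rw [if_pos h, if_pos this, coeff_C, if_pos rfl]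
  · rw [if_neg h, map_zero]
    by_cases h1 : a' = a
    · rw [if_pos h1, coeff_C]
      have hb : ¬ (0 = b) := by
        rintro rfl
        apply h
        rw [h1]; simp
      rw [if_neg hb]
    · rw [if_neg h1, coeff_zero]

theorem QG_frob [IsAlgClosed K] {p : ℕ} [Fact p.Prime] [CharP K p]
    (I : Ideal (MvPolynomial (Fin d) K)) [FiniteDimensional K (MvPolynomial (Fin d) K ⧸ I)]
    (e : ℕ) [FiniteDimensional K (MvPolynomial (Fin d) K ⧸ bracket I (p ^ e))] :
    (p ^ e) ^ d * finrank K (MvPolynomial (Fin d) K ⧸ I) ≤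
      finrank K (MvPolynomial (Fin d) K ⧸ bracket I (p ^ e)) := by
  classical
  have hq : 0 < p ^ e := pow_pos (Fact.out : p.Prime).pos e
  have : PerfectRing K p := PerfectField.toPerfectRing p
  set r : K ≃+* K := (iterateFrobeniusEquiv K p e).symm with hrdef
  have hr : ∀ x, r (x ^ (p ^ e)) = x := by
    intro x
    rw [hrdef, ← iterateFrobeniusEquiv_def, RingEquiv.symm_apply_apply]
  set N := finrank K (MvPolynomial (Fin d) K ⧸ I) with hN
  let b : Basis (Fin N) K (MvPolynomial (Fin d) K ⧸ I) := finBasis K _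
  choose B hB using fun i => Ideal.Quotient.mk_surjective (b i)
  -- the exponents
  let ex : (Fin d → Fin (p ^ e)) → (Fin d →₀ ℕ) := fun a => Finsupp.equivFunOnFinite.symm fun i => (a i : ℕ)
  have hex : ∀ a i, ex a i < p ^ e := fun a i => (a i).isLt
  have hexi : Function.Injective ex := by
    intro a a' h
    ext i
    exact DFunLike.congr_fun h i
  let v : (Fin d → Fin (p ^ e)) × Fin N → MvPolynomial (Fin d) K ⧸ bracket I (p ^ e) := fun t =>
    Ideal.Quotient.mk _ (B t.2 ^ (p ^ e) * monomial (ex t.1) 1)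
  have hv : LinearIndependent K v := by
    rw [Fintype.linearIndependent_iff]
    intro g hg
    have h1 : (∑ t, B t.2 ^ (p ^ e) * monomial (ex t.1) (g t)) ∈ bracket I (p ^ e) := by
      rw [← Ideal.Quotient.eq_zero_iff_mem, map_sum]
      rw [← hg]
      refine Finset.sum_congr rfl fun t _ => ?_
      show (Ideal.Quotient.mkₐ K (bracket I (p ^ e))) (B t.2 ^ (p ^ e) * monomial (ex t.1) (g t)) =
        g t • (Ideal.Quotient.mkₐ K (bracket I (p ^ e))) (B t.2 ^ (p ^ e) * monomial (ex t.1) 1)
      rw [← map_smul]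
      congr 1
      rw [← mul_smul_comm, smul_monomial, smul_eq_mul, mul_one]
    rintro ⟨a0, i0⟩
    have h2 := QG1_mem e hq r hr (ex a0) (hex a0) I _ h1 1
    rw [mul_one, QG1_sum] at h2
    have h3 : ∀ t : (Fin d → Fin (p ^ e)) × Fin N,
        QG1_th (p ^ e) hq r (ex a0) (B t.2 ^ (p ^ e) * monomial (ex t.1) (g t)) =
        if t.1 = a0 then B t.2 * C (r (g t)) else 0 := by
      intro t
      rw [QG1_mul e hq r hr _ (hex a0), QG1_small _ hq r _ _ (hex t.1)]
      by_cases h : t.1 = a0
      · rw [if_pos h, if_pos (by rw [h])]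
      · rw [if_neg h, if_neg (fun hc => h (hexi hc)), mul_zero]
    rw [Finset.sum_congr rfl (fun t _ => h3 t), Fintype.sum_prod_type, Finset.sum_comm] at h2
    have h4 : ∀ i : Fin N, (∑ x : Fin d → Fin (p ^ e),
        if (x, i).1 = a0 then B (x, i).2 * C (r (g (x, i))) else 0) = B i * C (r (g (a0, i))) := by
      intro i
      rw [Finset.sum_eq_single a0]
      · rw [if_pos rfl]
      · intro x _ hx
        rw [if_neg hx]
      · intro hx
        exact absurd (Finset.mem_univ a0) hx
    rw [Finset.sum_congr rfl (fun i _ => h4 i)] at h2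
    rw [← Ideal.Quotient.eq_zero_iff_mem, map_sum] at h2
    have h5 : ∑ i, r (g (a0, i)) • b i = 0 := by
      rw [← h2]
      refine Finset.sum_congr rfl fun i _ => ?_
      rw [← hB i]
      show r (g (a0, i)) • (Ideal.Quotient.mkₐ K I) (B i) =
        (Ideal.Quotient.mkₐ K I) (B i * C (r (g (a0, i))))
      rw [← map_smul]
      congr 1
      rw [smul_eq_C_mul, mul_comm]
    have h6 := (Fintype.linearIndependent_iff.1 b.linearIndependent) (fun i => r (g (a0, i))) h5 i0
    exact (map_eq_zero_iff r r.injective).1 h6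
  have := hv.fintype_card_le_finrank
  rw [Fintype.card_prod, Fintype.card_fun, Fintype.card_fin, Fintype.card_fin, Fintype.card_fin] at this
  exact this

end Pool.Agent.Lib.MP_1bbd88_ag.Q
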