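import Pool.Agent.Lib.MP_1bbd88_ag.Q.Defs

set_option autoImplicit false

namespace Pool.Agent.Lib.MP_1bbd88_ag.Q

open Module MvPolynomial

variable {K : Type*} [Field K] {d : ℕ}

/-! ROW 1bbd-QG2 -/

/-- the linear form with coefficients c -/
noncomputable def QG2_form (c : Fin d → K) : MvPolynomial (Fin d) K := ∑ i, C (c i) * X i

theorem QG2_form_hom (c : Fin d → K) : (QG2_form c).IsHomogeneous 1 := by
  refine MvPolynomial.IsHomogeneous.sum _ _ _ fun j _ => ?_
  have := (isHomogeneous_C (Fin d) (c j)).mul (isHomogeneous_X K j)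
  rwa [zero_add] at this

theorem QG2_coeff (c : Fin d → K) (j : Fin d) : coeff (Finsupp.single j 1) (QG2_form c) = c j := by
  rw [QG2_form, coeff_sum, Finset.sum_eq_single j]
  · rw [coeff_C_mul, coeff_X, if_pos rfl, mul_one]
  · intro i _ hi
    rw [coeff_C_mul, coeff_X, if_neg, mul_zero]
    intro h
    exact hi (Finsupp.single_left_injective one_ne_zero h)
  · intro h
    exact absurd (Finset.mem_univ j) h

theorem QG2_lin (g : Matrix (Fin d) (Fin d) K) (c : Fin d → K) :
    lin g (QG2_form c) = QG2_form (Matrix.vecMul c g) := by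
  rw [QG2_form, QG2_form, map_sum]
  simp only [map_mul, lin_X]
  have e : ∀ i, lin g (C (c i)) = C (c i) := fun i => (lin g).commutes _
  simp only [e, Matrix.vecMul, dotProduct, map_sum, map_mul, Finset.sum_mul, Finset.mul_sum]
  rw [Finset.sum_comm]
  refine Finset.sum_congr rfl fun i _ => Finset.sum_congr rfl fun j _ => ?_
  ring

/-- the vectors c for which the forms of g and h agree -/
def QG2_ker (A : Matrix (Fin d) (Fin d) K) : Submodule K (Fin d → K) where
  carrier := {c | Matrix.vecMul c A = 0}
  add_mem' := fun {a b} ha hb => by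
    simp only [Set.mem_ofPred_eq] at *
    rw [Matrix.add_vecMul, ha, hb, add_zero]
  zero_mem' := Matrix.zero_vecMul _
  smul_mem' := fun c v hv => by
    simp only [Set.mem_ofPred_eq] at *
    rw [Matrix.smul_vecMul, hv, smul_zero]

theorem QG2_ker_ne {A : Matrix (Fin d) (Fin d) K} (hA : A ≠ 0) : QG2_ker A ≠ ⊤ := by
  intro h
  apply hA
  ext i j
  have h1 : (Pi.single i 1 : Fin d → K) ∈ QG2_ker A := by rw [h]; trivial
  have h2 : Matrix.vecMul (Pi.single i 1 : Fin d → K) A = 0 := h1
  have h3 := congrFun h2 j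
  rw [Matrix.single_one_vecMul] at h3
  exact h3

theorem QG2_exists [Infinite K] (G : Subgroup (GL (Fin d) K)) [Finite G] :
    ∃ c : Fin d → K, ∀ g h : G, lin g.1.val (QG2_form c) = lin h.1.val (QG2_form c) → g = h := by
  classical
  by_contra hn
  push Not at hn
  have hcov : (⋃ p : {p : G × G // p.1 ≠ p.2}, (QG2_ker (p.1.1.1.val - p.1.2.1.val) : Set (Fin d → K))) = Set.univ := by
    rw [Set.eq_univ_iff_forall]
    intro c
    obtain ⟨g, h, h1, h2⟩ := hn c
    rw [Set.mem_iUnion]
    refine ⟨⟨(g, h), h2⟩, ?_⟩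
    show Matrix.vecMul c (g.1.val - h.1.val) = 0
    rw [QG2_lin, QG2_lin] at h1
    rw [Matrix.vecMul_sub, sub_eq_zero]
    funext j
    rw [← QG2_coeff (Matrix.vecMul c g.1.val) j, h1, QG2_coeff]
  obtain ⟨p, hp⟩ := Subspace.exists_eq_top_of_iUnion_eq_univ hcov
  refine QG2_ker_ne ?_ hp
  intro h
  exact p.2 (Subtype.ext (Units.ext (sub_eq_zero.mp h)))

/-- interpolation -/
theorem QG2_interp {P G : Type*} [CommRing P] [IsDomain P] [Group G] [Fintype G] [DecidableEq G]
    (ac : G → P →+* P) (s : P) (hac : ∀ g h x, ac h (ac g x) = ac (g * h) x) (h1 : ∀ x, ac 1 x = x) (t : P) :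
    ∃ c : Fin (Fintype.card G) → P, (∀ i k, ac k (c i) = c i) ∧
      (∏ g : G, ∏ h ∈ Finset.univ.erase g, (ac g s - ac h s)) * t = ∑ i, c i * s ^ (i : ℕ) := by
  set E : G → P := fun g => ∏ h ∈ Finset.univ.erase g, (ac g s - ac h s) with hE
  have hacE : ∀ g k, ac k (E g) = E (g * k) := by
    intro g k
    rw [hE]
    simp only [map_prod, map_sub, hac]
    refine Finset.prod_bij (fun a _ => a * k) ?_ ?_ ?_ ?_
    · intro a ha
      simp only [Finset.mem_erase, Finset.mem_univ, and_true] at ha ⊢
      intro h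
      exact ha (mul_right_cancel h)
    · intro a _ b _ h
      exact mul_right_cancel h
    · intro b hb
      refine ⟨b * k⁻¹, ?_, by group⟩
      simp only [Finset.mem_erase, Finset.mem_univ, and_true] at hb ⊢
      intro h
      exact hb (by rw [← h]; group)
    · intro a _
      rfl
  set L : Polynomial P := ∑ g, Polynomial.C (ac g t * ∏ g' ∈ Finset.univ.erase g, E g') *
    ∏ h ∈ Finset.univ.erase g, (Polynomial.X - Polynomial.C (ac h s)) with hL
  have hdeg : L.natDegree < Fintype.card G := by
    refine lt_of_le_of_lt (Polynomial.natDegree_sum_le_of_forall_le (n := Fintype.card G - 1) _ _ ?_) ?_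
    · intro g _
      refine (Polynomial.natDegree_C_mul_le _ _).trans ?_
      refine (Polynomial.natDegree_prod_le _ _).trans ?_
      simp only [Polynomial.natDegree_X_sub_C, Finset.sum_const, smul_eq_mul, mul_one]
      rw [Finset.card_erase_of_mem (Finset.mem_univ g), Finset.card_univ]
    · have := Fintype.card_pos (α := G)
      omega
  have hinv : ∀ k, L.map (ac k) = L := by
    intro k
    rw [hL, Polynomial.map_sum]
    refine Finset.sum_bij (fun g _ => g * k) (fun _ _ => Finset.mem_univ _) (fun a _ b _ h => mul_right_cancel h)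
      (fun b _ => ⟨b * k⁻¹, Finset.mem_univ _, by group⟩) ?_
    intro g _
    rw [Polynomial.map_mul, Polynomial.map_C, map_mul, map_prod, Polynomial.map_prod, hac]
    congr 1
    · congr 2
      refine Finset.prod_bij (fun a _ => a * k) ?_ ?_ ?_ ?_
      · intro a ha
        simp only [Finset.mem_erase, Finset.mem_univ, and_true] at ha ⊢
        intro h
        exact ha (mul_right_cancel h)
      · intro a _ b _ h
        exact mul_right_cancel h
      · intro b hb
        refine ⟨b * k⁻¹, ?_, by group⟩
        simp only [Finset.mem_erase, Finset.mem_univ, and_true] at hb ⊢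
        intro h
        exact hb (by rw [← h]; group)
      · intro a _
        exact hacE a k
    · refine Finset.prod_bij (fun a _ => a * k) ?_ ?_ ?_ ?_
      · intro a ha
        simp only [Finset.mem_erase, Finset.mem_univ, and_true] at ha ⊢
        intro h
        exact ha (mul_right_cancel h)
      · intro a _ b _ h
        exact mul_right_cancel h
      · intro b hb
        refine ⟨b * k⁻¹, ?_, by group⟩
        simp only [Finset.mem_erase, Finset.mem_univ, and_true] at hb ⊢
        intro h
        exact hb (by rw [← h]; group)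
      · intro a _
        rw [Polynomial.map_sub, Polynomial.map_X, Polynomial.map_C, hac]
  refine ⟨fun i => L.coeff i, fun i k => ?_, ?_⟩
  · have := congrArg (fun q => Polynomial.coeff q (i : ℕ)) (hinv k)
    simpa only [Polynomial.coeff_map] using this
  · rw [Fin.sum_univ_eq_sum_range (fun i => L.coeff i * s ^ i), ← Polynomial.eval_eq_sum_range' hdeg, hL,
      Polynomial.eval_finsetSum, Finset.sum_eq_single 1]
    · rw [Polynomial.eval_mul, Polynomial.eval_C, Polynomial.eval_prod, h1]
      simp only [Polynomial.eval_sub, Polynomial.eval_X, Polynomial.eval_C]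
      have h2 : ∏ h ∈ Finset.univ.erase (1 : G), (s - ac h s) = E 1 := by
        rw [hE]
        simp only [h1]
      rw [h2, mul_assoc, Finset.prod_erase_mul _ _ (Finset.mem_univ 1), mul_comm]
    · intro g _ hg
      have h3 : (∏ h ∈ Finset.univ.erase g, (Polynomial.X - Polynomial.C (ac h s))).eval s = 0 := by
        rw [Polynomial.eval_prod]
        refine Finset.prod_eq_zero (i := (1 : G)) ?_ ?_
        · simp [Ne.symm hg]
        · simp [h1]
      rw [Polynomial.eval_mul, h3, mul_zero]
    · intro h
      exact absurd (Finset.mem_univ _) h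

theorem QG_disc [Infinite K] (G : Subgroup (GL (Fin d) K)) [Finite G] :
    ∃ (s D : MvPolynomial (Fin d) K) (k : ℕ), D ≠ 0 ∧ D.IsHomogeneous k ∧
      ∀ t : MvPolynomial (Fin d) K, ∃ c : Fin (Nat.card G) → MvPolynomial (Fin d) K,
        (∀ i, c i ∈ inv G) ∧ D * t = ∑ i, c i * s ^ (i : ℕ) := by
  classical
  have : Fintype G := Fintype.ofFinite G
  obtain ⟨c, hc⟩ := QG2_exists G
  set s := QG2_form c with hs
  refine ⟨s, ∏ g : G, ∏ h ∈ Finset.univ.erase g, (lin g.1.val s - lin h.1.val s),
    ∑ g : G, ∑ h ∈ Finset.univ.erase g, 1, ?_, ?_, fun t => ?_⟩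
  · rw [Finset.prod_ne_zero_iff]
    intro g _
    rw [Finset.prod_ne_zero_iff]
    intro h hh
    rw [sub_ne_zero]
    intro he
    rw [Finset.mem_erase] at hh
    exact hh.1 (hc g h he).symm
  · refine MvPolynomial.IsHomogeneous.prod _ _ _ fun g _ => ?_
    refine MvPolynomial.IsHomogeneous.prod _ _ _ fun h _ => ?_
    exact (lin_isHomogeneous _ (QG2_form_hom c)).sub (lin_isHomogeneous _ (QG2_form_hom c))
  · obtain ⟨a, ha1, ha2⟩ := QG2_interp (P := MvPolynomial (Fin d) K) (G := G)
      (fun g => (lin g.1.val).toRingHom) s (fun g h x => by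
        show lin h.1.val (lin g.1.val x) = lin (g * h).1.val x
        rw [lin_lin]
        rfl) (fun x => by
        show lin (1 : Matrix (Fin d) (Fin d) K) x = x
        rw [lin_one]
        rfl) t
    rw [Nat.card_eq_fintype_card]
    exact ⟨a, fun i g hg => ha1 i ⟨g, hg⟩, ha2⟩

end Pool.Agent.Lib.MP_1bbd88_ag.Q
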