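import Pool.Agent.Lib.MP_1bbd88_ag.Q.Defs

set_option autoImplicit false

namespace Pool.Agent.Lib.MP_1bbd88_ag.Q

open Module MvPolynomial

variable {K : Type*} [Field K] {d : ℕ}

/-! ROW 1bbd-QG3 -/

/-- the exponents of degree `< L` -/
def QG3_S (d L : ℕ) : Set (Fin d →₀ ℕ) := {b | b.degree < L}

theorem QG3_finite (d L : ℕ) : (QG3_S d L).Finite := by
  have h : ((fun b : Fin d →₀ ℕ => (fun i => b i : Fin d → ℕ)) ⁻¹'
      (Set.pi Set.univ fun _ => Set.Iic L)).Finite :=
    (Set.Finite.pi' fun _ => Set.finite_Iic L).preimage (DFunLike.coe_injective.injOn) |>.subset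
      (fun b hb i => by
        have := hb i (Set.mem_univ i)
        exact this)
  refine h.subset fun b hb i _ => ?_
  have h1 : b i ≤ b.degree := Finsupp.le_degree i b
  exact h1.trans (le_of_lt hb)

theorem QG3_finrank (L : ℕ) :
    finrank K (restrictSupport K (QG3_S d L)) = (QG3_S d L).ncard := by
  rw [Module.finrank_eq_nat_card_basis (basisRestrictSupport K (QG3_S d L))]
  rfl

theorem QG3_count (e k L : ℕ) :
    (QG3_S (e + 1) L).ncard ≤ (QG3_S (e + 1) (L - k)).ncard + k * L ^ e := by
  have h1 : (QG3_S (e + 1) L \ QG3_S (e + 1) (L - k)).ncard ≤ k * L ^ e := by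
    rcases Nat.eq_zero_or_pos k with rfl | hk
    · simp
    rcases Nat.eq_zero_or_pos L with rfl | hL
    · have : QG3_S (e + 1) 0 = ∅ := by
        ext b; simp [QG3_S]
      simp [this]
    have key : (QG3_S (e + 1) L \ QG3_S (e + 1) (L - k)).ncard ≤
        (Set.univ : Set (Fin k × (Fin e → Fin L))).ncard := by
      refine Set.ncard_le_ncard_of_injOn
        (fun b => ((⟨(b.degree - (L - k)) % k, Nat.mod_lt _ hk⟩ : Fin k),
          fun i => (⟨b i.succ % L, Nat.mod_lt _ hL⟩ : Fin L))) (fun _ _ => Set.mem_univ _) ?_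
        Set.finite_univ
      intro b hb c hc hbc
      simp only [QG3_S, Set.mem_sdiff, Set.mem_ofPred_eq, not_lt] at hb hc
      simp only [Prod.mk.injEq, Fin.mk.injEq] at hbc
      obtain ⟨h1, h2⟩ := hbc
      rw [Nat.mod_eq_of_lt (by omega), Nat.mod_eq_of_lt (by omega)] at h1
      have hdeg : b.degree = c.degree := by omega
      have h3 : ∀ i : Fin e, b i.succ = c i.succ := by
        intro i
        have := congrFun h2 i
        simp only [Fin.mk.injEq] at this
        rwa [Nat.mod_eq_of_lt ((Finsupp.le_degree _ b).trans_lt hb.1),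
          Nat.mod_eq_of_lt ((Finsupp.le_degree _ c).trans_lt hc.1)] at this
      have h4 : b 0 = c 0 := by
        rw [Finsupp.degree_eq_sum, Finsupp.degree_eq_sum, Fin.sum_univ_succ, Fin.sum_univ_succ,
          Finset.sum_congr rfl fun i _ => h3 i] at hdeg
        omega
      ext i
      refine Fin.cases h4 h3 i
    refine key.trans ?_
    rw [Set.ncard_univ, Nat.card_eq_fintype_card, Fintype.card_prod, Fintype.card_pi]
    simp
  have h2 : QG3_S (e + 1) (L - k) ⊆ QG3_S (e + 1) L := fun b hb => by
    have : b.degree < L - k := hb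
    show b.degree < L
    omega
  have h3 := Set.ncard_sdiff_add_ncard_of_subset h2 (QG3_finite _ _)
  omega

theorem QG3_mem {I : Ideal (MvPolynomial (Fin d) K)} {L : ℕ}
    (h : ∀ f : MvPolynomial (Fin d) K, f.IsHomogeneous L → f ∈ I) (j : ℕ) :
    ∀ (b : Fin d →₀ ℕ) (c : K), b.degree = L + j → monomial b c ∈ I := by
  induction j with
  | zero =>
    intro b c hb
    exact h _ (isHomogeneous_monomial _ (by rw [hb, add_zero]))
  | succ j ih =>
    intro b c hb
    have hb0 : b ≠ 0 := by
      rintro rfl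
      rw [map_zero] at hb
      omega
    obtain ⟨i, hi⟩ := Finsupp.ne_iff.mp hb0
    have hi' : 1 ≤ b i := Nat.one_le_iff_ne_zero.mpr hi
    have hle : Finsupp.single i 1 ≤ b := Finsupp.single_le_iff.mpr hi'
    have hsplit : b = (b - Finsupp.single i 1) + Finsupp.single i 1 := (tsub_add_cancel_of_le hle).symm
    have hdeg : (b - Finsupp.single i 1).degree = L + j := by
      have := congrArg Finsupp.degree hsplit
      rw [map_add, Finsupp.degree_single] at this
      omega
    have h1 := ih _ c hdeg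
    have h2 : monomial b c = monomial (b - Finsupp.single i 1) c * X i := by
      rw [X, monomial_mul, mul_one, ← hsplit]
    rw [h2]
    exact I.mul_mem_right _ h1

theorem QG3_bound {D : MvPolynomial (Fin d) K} {k : ℕ} (hD : D ≠ 0) (hDk : D.IsHomogeneous k)
    {L : ℕ} {I : Ideal (MvPolynomial (Fin d) K)} (hDI : D ∈ I)
    (h : ∀ f : MvPolynomial (Fin d) K, f.IsHomogeneous L → f ∈ I) :
    finrank K (MvPolynomial (Fin d) K ⧸ I) + (QG3_S d (L - k)).ncard ≤ (QG3_S d L).ncard := by
  classical
  have fin1 : Finite (QG3_S d L) := (QG3_finite d L).to_subtype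
  have fin2 : Module.Finite K (restrictSupport K (QG3_S d L)) :=
    Module.Finite.of_basis (basisRestrictSupport K (QG3_S d L))
  let φ : restrictSupport K (QG3_S d L) →ₗ[K] (MvPolynomial (Fin d) K ⧸ I) :=
    (Ideal.Quotient.mkₐ K I).toLinearMap ∘ₗ (restrictSupport K (QG3_S d L)).subtype
  have hsurj : LinearMap.range φ = ⊤ := by
    rw [eq_top_iff]
    rintro x -
    obtain ⟨f, rfl⟩ := Ideal.Quotient.mk_surjective x
    induction f using MvPolynomial.induction_on' with
    | monomial b c =>
      by_cases hb : b.degree < L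
      · exact ⟨⟨monomial b c, (monomial_mem_restrictSupport K).mpr (Or.inl hb)⟩, rfl⟩
      · have : monomial b c ∈ I := QG3_mem h (b.degree - L) b c (by omega)
        rw [Ideal.Quotient.eq_zero_iff_mem.mpr this]
        exact Submodule.zero_mem _
    | add f g hf hg =>
      rw [map_add]
      exact Submodule.add_mem _ hf hg
  have h1 := LinearMap.finrank_range_add_finrank_ker φ
  rw [hsurj, finrank_top, QG3_finrank] at h1
  have hmem : ∀ w ∈ restrictSupport K (QG3_S d (L - k)), D * w ∈ restrictSupport K (QG3_S d L) := by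
    intro w hw
    rw [mem_restrictSupport_iff] at hw ⊢
    intro b hb
    have hb' := MvPolynomial.support_mul D w hb
    rw [Finset.mem_add] at hb'
    obtain ⟨b1, hb1, b2, hb2, rfl⟩ := hb'
    have e1 : b1.degree = k := by
      have := hDk (mem_support_iff.mp hb1)
      rw [← this]
      exact DFunLike.congr_fun (Finsupp.degree_eq_weight_one (R := ℕ)) b1
    have e2 : b2.degree < L - k := hw hb2
    show (b1 + b2).degree < L
    rw [map_add]
    omega
  let ψ : restrictSupport K (QG3_S d (L - k)) →ₗ[K] LinearMap.ker φ :=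
    { toFun := fun w => ⟨⟨D * w.1, hmem w.1 w.2⟩, by
        rw [LinearMap.mem_ker]
        exact Ideal.Quotient.eq_zero_iff_mem.mpr (I.mul_mem_right _ hDI)⟩
      map_add' := fun x y => by
        apply Subtype.ext
        apply Subtype.ext
        exact mul_add _ _ _
      map_smul' := fun c x => by
        apply Subtype.ext
        apply Subtype.ext
        exact mul_smul_comm _ _ _ }
  have hψ : Function.Injective ψ := by
    intro x y hxy
    have e1 : D * x.1 = D * y.1 := congrArg (fun z => z.1.1) hxy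
    exact Subtype.ext (mul_left_cancel₀ hD e1)
  have h2 := LinearMap.finrank_le_finrank_of_injective hψ
  rw [QG3_finrank] at h2
  omega

theorem QG_small (hd : 1 ≤ d) (D : MvPolynomial (Fin d) K) (k : ℕ) (hD : D ≠ 0)
    (hDk : D.IsHomogeneous k) (a : ℕ) : ∃ c : ℕ, ∀ q : ℕ, 1 ≤ q →
      ∀ I : Ideal (MvPolynomial (Fin d) K), D ∈ I →
        (∀ f : MvPolynomial (Fin d) K, f.IsHomogeneous (a * q) → f ∈ I) →
        finrank K (MvPolynomial (Fin d) K ⧸ I) ≤ c * q ^ (d - 1) := by
  obtain ⟨e, rfl⟩ : ∃ e, d = e + 1 := ⟨d - 1, by omega⟩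
  refine ⟨k * a ^ e, fun q _ I hDI h => ?_⟩
  have h1 := QG3_bound hD hDk hDI h
  have h2 := QG3_count e k (a * q)
  have h3 : k * (a * q) ^ e = k * a ^ e * q ^ e := by rw [mul_pow, mul_assoc]
  rw [Nat.add_sub_cancel, ← h3]
  omega

end Pool.Agent.Lib.MP_1bbd88_ag.Q
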