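import Pool.Agent.Lib.MP_1bbd88_ag.Q.Defs

set_option autoImplicit false

namespace Pool.Agent.Lib.MP_1bbd88_ag.Q

open Module MvPolynomial

variable {K : Type*} [Field K] {d : ℕ}

/-! ROW 1bbd-QG4 -/

theorem QG4_coe (g : Matrix (Fin d) (Fin d) K) (f : MvPolynomial (Fin d) K) :
    act g (f : MvPowerSeries (Fin d) K) = (lin g f : MvPolynomial (Fin d) K) := by
  rw [act, MvPowerSeries.subst_coe]
  induction f using MvPolynomial.induction_on with
  | C a =>
    rw [MvPolynomial.aeval_C]
    simp [lin, MvPowerSeries.algebraMap_apply]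
  | add f1 f2 h1 h2 => rw [map_add, map_add, h1, h2, MvPolynomial.coe_add]
  | mul_X f i h =>
    rw [map_mul, map_mul, h, MvPolynomial.coe_mul, MvPolynomial.aeval_X, lin_X]
    congr 1
    have h2 : ((∑ j, C (g i j) * X j : MvPolynomial (Fin d) K) : MvPowerSeries (Fin d) K) =
        MvPolynomial.coeToMvPowerSeries.ringHom (∑ j, C (g i j) * X j) := rfl
    rw [h2, map_sum]
    refine Finset.sum_congr rfl fun j _ => ?_
    rw [map_mul]
    simp

theorem QG4_act_act (g h : Matrix (Fin d) (Fin d) K) (f : MvPowerSeries (Fin d) K) :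
    act h (act g f) = act (g * h) f := by
  have e : ∀ k : Matrix (Fin d) (Fin d) K, (fun i => ∑ j, MvPowerSeries.C (k i j) *
      (MvPowerSeries.X j : MvPowerSeries (Fin d) K)) =
      fun i => ((lin k (X i) : MvPolynomial (Fin d) K) : MvPowerSeries (Fin d) K) := by
    intro k
    funext i
    rw [← QG4_coe, act, MvPolynomial.coe_X, MvPowerSeries.subst_X (act_hasSubst k)]
  have h1 : act h (act g f) = MvPowerSeries.subst (fun s => act h (∑ j, MvPowerSeries.C (g s j) *
      (MvPowerSeries.X j : MvPowerSeries (Fin d) K))) f := by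
    rw [act, act, MvPowerSeries.subst_comp_subst_apply (act_hasSubst g) (act_hasSubst h)]
    rfl
  rw [h1, act, e (g * h)]
  congr 1
  funext s
  have h2 : (∑ j, MvPowerSeries.C (g s j) * (MvPowerSeries.X j : MvPowerSeries (Fin d) K)) =
      ((lin g (X s) : MvPolynomial (Fin d) K) : MvPowerSeries (Fin d) K) := congrFun (e g) s
  rw [h2, QG4_coe, lin_lin]

theorem coe_mem_Inv (G : Subgroup (GL (Fin d) K)) (f : MvPolynomial (Fin d) K) :
    (f : MvPowerSeries (Fin d) K) ∈ Inv G ↔ f ∈ inv G := by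
  constructor
  · intro hf g hg
    have h1 : act g.val (f : MvPowerSeries (Fin d) K) = f := hf g hg
    rw [QG4_coe] at h1
    exact MvPolynomial.coe_injective (Fin d) K h1
  · intro hf g hg
    have h1 : lin g.val f = f := hf g hg
    show act g.val (f : MvPowerSeries (Fin d) K) = f
    rw [QG4_coe, h1]

theorem QG4_lin_degree (g : Matrix (Fin d) (Fin d) K) (p : MvPolynomial (Fin d) K) (n : ℕ)
    (hp : ∀ x : Fin d →₀ ℕ, n ≤ x.degree → p.coeff x = 0) (x : Fin d →₀ ℕ) (hx : n ≤ x.degree) :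
    (lin g p).coeff x = 0 := by
  have h1 : p = ∑ i ∈ Finset.range n, MvPolynomial.homogeneousComponent i p := by
    ext y
    rw [MvPolynomial.coeff_sum]
    simp only [MvPolynomial.coeff_homogeneousComponent]
    rw [Finset.sum_ite_eq]
    split_ifs with h
    · rfl
    · exact hp y (by simpa using h)
  rw [h1, map_sum, MvPolynomial.coeff_sum]
  refine Finset.sum_eq_zero fun i hi => ?_
  have h2 := lin_isHomogeneous g (MvPolynomial.homogeneousComponent_isHomogeneous i p)
  by_contra hc
  have h3 := h2 hc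
  rw [Finset.mem_range] at hi
  have h4 : x.degree = i := by
    rw [← h3, Finsupp.degree_eq_weight_one]
    rfl
  omega

theorem trunc_mem_inv (G : Subgroup (GL (Fin d) K)) (f : MvPowerSeries (Fin d) K)
    (hf : f ∈ Inv G) (n : ℕ) : MvPowerSeries.truncTotal n f ∈ inv G := by
  intro g hg
  have h0 : act g.val f = f := hf g hg
  have hc : ∀ i, MvPowerSeries.constantCoeff (∑ j, MvPowerSeries.C (g.val i j) *
      (MvPowerSeries.X j : MvPowerSeries (Fin d) K)) = 0 := by
    intro i
    simp
  have h1 : MvPowerSeries.truncTotal n f = MvPowerSeries.truncTotal n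
      ((lin g.val (MvPowerSeries.truncTotal n f) : MvPolynomial (Fin d) K) :
        MvPowerSeries (Fin d) K) := by
    conv_lhs => rw [← h0]
    rw [act, MvPowerSeries.truncTotal_subst_eq_truncTotal_truncTotal_subst hc]
    congr 1
    exact QG4_coe g.val _
  show lin g.val (MvPowerSeries.truncTotal n f) = MvPowerSeries.truncTotal n f
  ext x
  by_cases hx : x.degree < n
  · rw [h1, MvPowerSeries.coeff_truncTotal _ hx, ← h1, MvPolynomial.coeff_coe]
  · push Not at hx
    rw [MvPowerSeries.coeff_truncTotal_eq_zero _ hx]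
    exact QG4_lin_degree _ _ n (fun y hy => MvPowerSeries.coeff_truncTotal_eq_zero _ hy) x hx

theorem QG4_actL (g : Matrix (Fin d) (Fin d) K) :
    ∃ T : MvPowerSeries (Fin d) K →ₗ[K] MvPowerSeries (Fin d) K, ∀ f, T f = act g f :=
  ⟨(MvPowerSeries.substAlgHom (act_hasSubst g)).toLinearMap, fun f => by
    rw [AlgHom.toLinearMap_apply, MvPowerSeries.substAlgHom_apply, act]⟩

theorem QG4_act_one (g : Matrix (Fin d) (Fin d) K) :
    act g (1 : MvPowerSeries (Fin d) K) = 1 := by
  rw [act, ← MvPowerSeries.coe_substAlgHom (act_hasSubst _), map_one]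

theorem QG4_act_mul (g : Matrix (Fin d) (Fin d) K) (f u : MvPowerSeries (Fin d) K) :
    act g (f * u) = act g f * act g u := by
  rw [act, act, act, MvPowerSeries.subst_mul (act_hasSubst _)]

theorem reynolds (G : Subgroup (GL (Fin d) K)) [Finite G] (hG : (Nat.card G : K) ≠ 0) :
    ∃ E : MvPowerSeries (Fin d) K →ₗ[K] MvPowerSeries (Fin d) K, E 1 = 1 ∧
      (∀ f, E f ∈ Inv G) ∧ ∀ f ∈ Inv G, ∀ u, E (f * u) = f * E u := by
  classical
  have : Fintype G := Fintype.ofFinite G
  have hG' : ((Fintype.card G : ℕ) : K) ≠ 0 := by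
    rwa [← Nat.card_eq_fintype_card]
  choose T0 hT0 using fun g : Matrix (Fin d) (Fin d) K => QG4_actL g
  obtain ⟨E, hE⟩ : ∃ E : MvPowerSeries (Fin d) K →ₗ[K] MvPowerSeries (Fin d) K,
      ∀ f, E f = ((Fintype.card G : ℕ) : K)⁻¹ • ∑ g : G, T0 (g : GL (Fin d) K).val f :=
    ⟨((Fintype.card G : ℕ) : K)⁻¹ • ∑ g : G, T0 (g : GL (Fin d) K).val, fun f => by
      rw [LinearMap.smul_apply, LinearMap.sum_apply]⟩
  refine ⟨E, ?_, ?_, ?_⟩
  · rw [hE]
    have h1 : ∀ g : G, T0 (g : GL (Fin d) K).val 1 = 1 := by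
      intro g
      rw [hT0, QG4_act_one]
    rw [Finset.sum_congr rfl fun g _ => h1 g]
    rw [Finset.sum_const, Finset.card_univ, ← Nat.cast_smul_eq_nsmul K, smul_smul,
      inv_mul_cancel₀ hG', one_smul]
  · intro f h hh
    have h0 : act h.val (E f) = E f := by
      rw [← hT0 h.val (E f), hE f, LinearMap.map_smul, map_sum]
      congr 1
      have h2 : ∀ g : G, T0 h.val (T0 (g : GL (Fin d) K).val f) =
          T0 ((g * (⟨h, hh⟩ : G) : G) : GL (Fin d) K).val f := by
        intro g
        rw [hT0, hT0, hT0, QG4_act_act, Subgroup.coe_mul, Units.val_mul]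
      rw [Finset.sum_congr rfl fun g _ => h2 g]
      exact Equiv.sum_comp (Equiv.mulRight (⟨h, hh⟩ : G))
        (fun g : G => T0 (g : GL (Fin d) K).val f)
    exact h0
  · intro f hf u
    rw [hE (f * u), hE u, mul_smul_comm, Finset.mul_sum]
    congr 1
    refine Finset.sum_congr rfl fun g _ => ?_
    have h1 : act (g : GL (Fin d) K).val f = f := hf g.1 g.2
    rw [hT0, hT0, QG4_act_mul, h1]

end Pool.Agent.Lib.MP_1bbd88_ag.Q
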