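import Pool.Agent.Lib.MP_1bbd88_ag.Q.Defs
import Pool.Agent.Lib.MP_1bbd88_ag.Q.QN
import Pool.Agent.Lib.MP_1bbd88_ag.Q.QG1
import Pool.Agent.Lib.MP_1bbd88_ag.Q.QG2
import Pool.Agent.Lib.MP_1bbd88_ag.Q.QG3
import Pool.Agent.Lib.MP_1bbd88_ag.Q.QG4

set_option autoImplicit false

namespace Pool.Agent.Lib.MP_1bbd88_ag.Q

open Module MvPolynomial

variable {K : Type*} [Field K] {d : ℕ}

/-! ROW 1bbd-QG -/

theorem QG_C_mem (G : Subgroup (GL (Fin d) K)) (c : K) :
    (MvPowerSeries.C c : MvPowerSeries (Fin d) K) ∈ Inv G := by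
  rw [← MvPolynomial.coe_C, coe_mem_Inv]
  exact (inv G).algebraMap_mem c

/-- the constants -/
noncomputable def QG_const (G : Subgroup (GL (Fin d) K)) : K →+* Inv G :=
  (MvPowerSeries.C (σ := Fin d) (R := K)).codRestrict (Inv G) (QG_C_mem G)

/-- high powers of the ideal of the variables lie in the bracket power -/
theorem QG_pow_le (hd : 1 ≤ d) (G : Subgroup (GL (Fin d) K)) [Finite G] (q : ℕ) :
    idealOfVars (Fin d) K ^ (d * Nat.card G * q) ≤ bracket (J G) q := by
  classical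
  rw [pow_idealOfVars_eq_span, Ideal.span_le]
  rintro _ ⟨x, hx, rfl⟩
  have hx' : Finsupp.degree x = d * Nat.card G * q := hx
  have hn : 0 < Nat.card G := Nat.card_pos
  obtain ⟨i, hi⟩ : ∃ i, Nat.card G * q ≤ x i := by
    by_contra hcon
    push Not at hcon
    have h1 : Finsupp.degree x = ∑ i, x i := by
      rw [Finsupp.degree_eq_sum]
    have h2 : ∑ i, x i < ∑ _i : Fin d, Nat.card G * q := by
      have : Nonempty (Fin d) := ⟨⟨0, hd⟩⟩
      exact Finset.sum_lt_sum_of_nonempty Finset.univ_nonempty fun i _ => hcon i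
    rw [Finset.sum_const, Finset.card_univ, Fintype.card_fin, smul_eq_mul, ← mul_assoc, ← hx',
      h1] at h2
    exact lt_irrefl _ h2
  have h1 : (monomial x (1 : K) : MvPolynomial (Fin d) K) =
      monomial (x - Finsupp.single i (Nat.card G * q)) 1 * ((X i) ^ Nat.card G) ^ q := by
    rw [← pow_mul, X_pow_eq_monomial, monomial_mul, mul_one]
    congr 1
    rw [tsub_add_cancel_of_le]
    exact Finsupp.single_le_iff.mpr hi
  change monomial x (1 : K) ∈ _
  rw [h1]
  exact Ideal.mul_mem_left _ _ (Ideal.subset_span ⟨_, X_pow_mem_J G i, rfl⟩)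

section

variable {A : Type*} [CommRing A]

/-- the embedding of `A` in the power series ring -/
noncomputable def QG_emb {G : Subgroup (GL (Fin d) K)} (φ : Inv G ≃+* A) :
    A →+* MvPowerSeries (Fin d) K := (Inv G).subtype.comp φ.symm.toRingHom

theorem QG_emb_mem {G : Subgroup (GL (Fin d) K)} (φ : Inv G ≃+* A) (a : A) :
    QG_emb φ a ∈ Inv G := (φ.symm a).2

theorem QG_emb_apply {G : Subgroup (GL (Fin d) K)} (φ : Inv G ≃+* A)
    (f : MvPowerSeries (Fin d) K) (hf : f ∈ Inv G) : QG_emb φ (φ ⟨f, hf⟩) = f := by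
  change ((φ.symm (φ ⟨f, hf⟩) : Inv G) : MvPowerSeries (Fin d) K) = f
  rw [RingEquiv.symm_apply_apply]

theorem QG_emb_injective {G : Subgroup (GL (Fin d) K)} (φ : Inv G ≃+* A) :
    Function.Injective (QG_emb φ) := by
  intro a b h
  exact φ.symm.injective (Subtype.ext h)

theorem QG_emb_const {G : Subgroup (GL (Fin d) K)} (φ : Inv G ≃+* A) (c : K) :
    QG_emb φ (φ (QG_const G c)) = MvPowerSeries.C c := QG_emb_apply φ _ (QG_C_mem G c)

/-- the bracket power is contracted from the power series ring -/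
theorem QG_contract (G : Subgroup (GL (Fin d) K)) [Finite G] (hG : (Nat.card G : K) ≠ 0)
    (φ : Inv G ≃+* A) (I : Ideal A) (a : A) (ha : QG_emb φ a ∈ I.map (QG_emb φ)) : a ∈ I := by
  obtain ⟨E, h1, h2, h3⟩ := reynolds G hG
  have key : ∀ y ∈ I.map (QG_emb φ), ∀ s, ∃ b ∈ I, QG_emb φ b = E (y * s) := by
    intro y hy
    have hy' : y ∈ Submodule.span (MvPowerSeries (Fin d) K) (QG_emb φ '' (I : Set A)) := hy
    refine Submodule.span_induction (p := fun y _ => ∀ s, ∃ b ∈ I, QG_emb φ b = E (y * s))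
      ?_ ?_ ?_ ?_ hy'
    · rintro _ ⟨b, hb, rfl⟩ s
      refine ⟨b * φ ⟨E s, h2 s⟩, I.mul_mem_right _ hb, ?_⟩
      rw [map_mul, QG_emb_apply φ, h3 _ (QG_emb_mem φ b)]
    · intro s
      exact ⟨0, I.zero_mem, by rw [map_zero, zero_mul, map_zero]⟩
    · intro x y _ _ hx hy s
      obtain ⟨b, hb, hb'⟩ := hx s
      obtain ⟨c, hc, hc'⟩ := hy s
      exact ⟨b + c, I.add_mem hb hc, by rw [map_add, hb', hc', add_mul, map_add]⟩
    · intro t x _ hx s
      obtain ⟨b, hb, hb'⟩ := hx (t * s)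
      refine ⟨b, hb, ?_⟩
      rw [hb', smul_eq_mul]
      congr 1
      ring
  obtain ⟨b, hb, hb'⟩ := key _ ha 1
  rw [h3 _ (QG_emb_mem φ a), h1, mul_one] at hb'
  rwa [← QG_emb_injective φ hb']

variable [IsLocalRing A]

theorem QG_max_of {G : Subgroup (GL (Fin d) K)} (φ : Inv G ≃+* A) {a : A}
    (ha : MvPowerSeries.constantCoeff (QG_emb φ a) = 0) : a ∈ IsLocalRing.maximalIdeal A := by
  rw [IsLocalRing.mem_maximalIdeal, mem_nonunits_iff]
  intro h
  have h1 := (h.map (QG_emb φ)).map (MvPowerSeries.constantCoeff (σ := Fin d) (R := K))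
  rw [ha] at h1
  exact not_isUnit_zero h1

theorem QG_mem_max {G : Subgroup (GL (Fin d) K)} (φ : Inv G ≃+* A) {a : A} :
    a ∈ IsLocalRing.maximalIdeal A ↔ MvPowerSeries.constantCoeff (QG_emb φ a) = 0 := by
  refine ⟨fun h => ?_, QG_max_of φ⟩
  by_contra hne
  set c := MvPowerSeries.constantCoeff (QG_emb φ a) with hc
  have h1 : a - φ (QG_const G c) ∈ IsLocalRing.maximalIdeal A := by
    apply QG_max_of φ
    rw [map_sub, QG_emb_const, map_sub, ← hc]
    simp
  have h2 : φ (QG_const G c) ∈ IsLocalRing.maximalIdeal A := by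
    have := (IsLocalRing.maximalIdeal A).sub_mem h h1
    rwa [sub_sub_cancel] at this
  rw [IsLocalRing.mem_maximalIdeal, mem_nonunits_iff] at h2
  exact h2 (((Ne.isUnit hne).map (QG_const G)).map φ)

theorem QG_residue {G : Subgroup (GL (Fin d) K)} (φ : Inv G ≃+* A) (x : IsLocalRing.ResidueField A) :
    ∃ c : K, IsLocalRing.residue A (φ (QG_const G c)) = x := by
  obtain ⟨a, rfl⟩ := IsLocalRing.residue_surjective x
  refine ⟨MvPowerSeries.constantCoeff (QG_emb φ a), ?_⟩
  symm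
  rw [← sub_eq_zero, ← map_sub, IsLocalRing.residue_eq_zero_iff, QG_mem_max φ, map_sub,
    QG_emb_const, map_sub]
  simp

/-- the ideal generated by the bracket power in the power series ring contains powers of the
variables -/
theorem QG_psI_le {p : ℕ} [Fact p.Prime] [CharP K p] (G : Subgroup (GL (Fin d) K)) [Finite G]
    (φ : Inv G ≃+* A) (e : ℕ) :
    psI (Fin d) K (Nat.card G * p ^ e) ≤
      (bracket (IsLocalRing.maximalIdeal A) (p ^ e)).map (QG_emb φ) := by
  set J' := (bracket (IsLocalRing.maximalIdeal A) (p ^ e)).map (QG_emb φ) with hJ'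
  have hp : (p : MvPowerSeries (Fin d) K ⧸ J') = 0 := cast_char_eq_zero K _
  have hq : p ^ e ≠ 0 := pow_ne_zero _ (Fact.out (p := p.Prime)).ne_zero
  have key : ∀ y ∈ J G, (Ideal.Quotient.mk J' (y : MvPowerSeries (Fin d) K)) ^ p ^ e = 0 := by
    intro y hy
    have hy' : y ∈ Submodule.span (MvPolynomial (Fin d) K)
      {f | f ∈ inv G ∧ constantCoeff f = 0} := hy
    refine Submodule.span_induction (p := fun (y : MvPolynomial (Fin d) K) _ =>
      (Ideal.Quotient.mk J' (y : MvPowerSeries (Fin d) K)) ^ p ^ e = 0) ?_ ?_ ?_ ?_ hy'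
    · rintro y ⟨hy1, hy2⟩
      have h1 : (y : MvPowerSeries (Fin d) K) ∈ Inv G := (coe_mem_Inv G y).mpr hy1
      have h2 := QG_emb_apply φ _ h1
      have h3 : φ ⟨y, h1⟩ ∈ IsLocalRing.maximalIdeal A := by
        rw [QG_mem_max φ, h2]
        exact hy2
      rw [← h2, ← map_pow, ← map_pow, Ideal.Quotient.eq_zero_iff_mem]
      exact Ideal.mem_map_of_mem _ (Ideal.subset_span ⟨_, h3, rfl⟩)
    · rw [MvPolynomial.coe_zero, map_zero]
      exact zero_pow hq
    · intro x y _ _ hx hy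
      rw [MvPolynomial.coe_add, map_add]
      exact pow_char_zero_add hp hx hy
    · intro a x _ hx
      rw [smul_eq_mul, MvPolynomial.coe_mul, map_mul, mul_pow, hx, mul_zero]
  rw [psI, Ideal.span_le]
  rintro _ ⟨i, rfl⟩
  have h1 := key _ (X_pow_mem_J G i)
  rw [← map_pow, Ideal.Quotient.eq_zero_iff_mem, MvPolynomial.coe_pow, MvPolynomial.coe_X,
    ← pow_mul] at h1
  exact h1

/-- the length over `A` is a dimension over `K` -/
theorem QG_length (G : Subgroup (GL (Fin d) K)) (φ : Inv G ≃+* A) [Algebra K A]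
    (halg : ∀ c, algebraMap K A c = φ (QG_const G c)) (I : Ideal A)
    [FiniteDimensional K (A ⧸ I)] :
    (Module.length A (A ⧸ I)).toNat = finrank K (A ⧸ I) := by
  have hsurj : Function.Surjective (algebraMap K (IsLocalRing.ResidueField A)) := by
    intro x
    obtain ⟨c, hc⟩ := QG_residue φ x
    refine ⟨c, ?_⟩
    rw [← hc, ← halg]
    rfl
  have h1 := IsLocalRing.length_restrictScalars K A (IsLocalRing.ResidueField A)
  have h2 : Module.length K (IsLocalRing.ResidueField A) = 1 := by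
    rw [Module.length_eq_of_surjective (R := IsLocalRing.ResidueField A) hsurj,
      Module.length_eq_one]
  have h3 : Module.length A (IsLocalRing.ResidueField A) = 1 := by
    rw [Module.length_eq_of_surjective (R := IsLocalRing.ResidueField A)
      IsLocalRing.residue_surjective, Module.length_eq_one]
  rw [h2, h3, one_mul] at h1
  have h4 := IsLocalRing.length_restrictScalars K A (A ⧸ I)
  rw [← h1, mul_one] at h4
  rw [← h4, Module.length_eq_finrank, ENat.toNat_natCast]

/-- finiteness of the bracket quotient -/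
theorem QG_finite {p : ℕ} [Fact p.Prime] [CharP K p] (G : Subgroup (GL (Fin d) K)) [Finite G]
    (hG : (Nat.card G : K) ≠ 0) (φ : Inv G ≃+* A) [Algebra K A]
    (halg : ∀ c, algebraMap K A c = φ (QG_const G c)) (e : ℕ) :
    FiniteDimensional K (A ⧸ bracket (IsLocalRing.maximalIdeal A) (p ^ e)) := by
  set I := bracket (IsLocalRing.maximalIdeal A) (p ^ e) with hI
  set J' := I.map (QG_emb φ) with hJ'
  have h1 : psI (Fin d) K (Nat.card G * p ^ e) ≤ J' := QG_psI_le G φ e
  have h2 : FiniteDimensional K (MvPowerSeries (Fin d) K ⧸ J') :=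
    Module.Finite.of_surjective (Ideal.Quotient.factorₐ K h1).toLinearMap
      (Ideal.Quotient.factor_surjective h1)
  let ψ : A →ₐ[K] MvPowerSeries (Fin d) K :=
    { QG_emb φ with
      commutes' := fun c => by
        change QG_emb φ (algebraMap K A c) = _
        rw [halg, QG_emb_const]
        rfl }
  let g : (A ⧸ I) →ₐ[K] MvPowerSeries (Fin d) K ⧸ J' :=
    Ideal.quotientMapₐ J' ψ Ideal.le_comap_map
  refine FiniteDimensional.of_injective g.toLinearMap ?_
  rw [← LinearMap.ker_eq_bot, eq_bot_iff]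
  intro x hx
  obtain ⟨a, rfl⟩ := Ideal.Quotient.mk_surjective x
  have h3 : Ideal.Quotient.mk J' (QG_emb φ a) = 0 := hx
  rw [Ideal.Quotient.eq_zero_iff_mem] at h3
  exact Ideal.Quotient.eq_zero_iff_mem.mpr (QG_contract G hG φ I a h3)

end

/-- dimension count: `V = P/Jq`, `B` finite dimensional, `D V` covered by `n` copies of `B` -/
theorem QG_dim {P : Type*} [CommRing P] [Algebra K P] (Jq : Ideal P)
    [FiniteDimensional K (P ⧸ Jq)] {B : Type*} [CommRing B] [Algebra K B] [FiniteDimensional K B]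
    (θ : B →ₐ[K] P ⧸ Jq) (s D : P) (n : ℕ)
    (h : ∀ t : P, ∃ c : Fin n → B, Ideal.Quotient.mk Jq (D * t) =
      ∑ i, θ (c i) * Ideal.Quotient.mk Jq s ^ (i : ℕ)) :
    finrank K (P ⧸ Jq) ≤ n * finrank K B + finrank K (P ⧸ (Jq ⊔ Ideal.span {D})) := by
  let T : (Fin n → B) →ₗ[K] P ⧸ Jq :=
    ∑ i : Fin n, (LinearMap.mulRight K (Ideal.Quotient.mk Jq s ^ (i : ℕ))).comp
      (θ.toLinearMap.comp (LinearMap.proj i))
  have hT : ∀ c, T c = ∑ i, θ (c i) * Ideal.Quotient.mk Jq s ^ (i : ℕ) := by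
    intro c
    simp [T]
  have h1 := (LinearMap.range T).finrank_quotient_add_finrank
  have h2 : finrank K (LinearMap.range T) ≤ n * finrank K B := by
    refine (LinearMap.finrank_range_le T).trans ?_
    rw [Module.finrank_pi_fintype, Finset.sum_const, Finset.card_univ, Fintype.card_fin,
      smul_eq_mul]
  have h3 : finrank K ((P ⧸ Jq) ⧸ LinearMap.range T) ≤
      finrank K (P ⧸ (Jq ⊔ Ideal.span {D})) := by
    set I := Jq ⊔ Ideal.span {D} with hI
    let L1 : P →ₗ[K] (P ⧸ Jq) ⧸ LinearMap.range T :=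
      (LinearMap.range T).mkQ.comp (Ideal.Quotient.mkₐ K Jq).toLinearMap
    have h4 : I.restrictScalars K ≤ LinearMap.ker L1 := by
      intro x hx
      have hx' : x ∈ Jq ⊔ Ideal.span {D} := hx
      obtain ⟨y, hy, z, hz, rfl⟩ := Submodule.mem_sup.mp hx'
      obtain ⟨t, rfl⟩ := Ideal.mem_span_singleton'.mp hz
      rw [LinearMap.mem_ker, map_add]
      have h5 : L1 y = 0 := by
        change (LinearMap.range T).mkQ (Ideal.Quotient.mk Jq y) = 0
        rw [Ideal.Quotient.eq_zero_iff_mem.mpr hy, map_zero]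
      have h6 : L1 (t * D) = 0 := by
        change (LinearMap.range T).mkQ (Ideal.Quotient.mk Jq (t * D)) = 0
        rw [Submodule.mkQ_apply, Submodule.Quotient.mk_eq_zero]
        obtain ⟨c, hc⟩ := h t
        exact ⟨c, by rw [hT, ← hc, mul_comm]⟩
      rw [h5, h6, add_zero]
    let L2 : (P ⧸ I.restrictScalars K) →ₗ[K] (P ⧸ Jq) ⧸ LinearMap.range T :=
      (I.restrictScalars K).liftQ L1 h4
    have h7 : Function.Surjective L2 := by
      intro x
      obtain ⟨y, rfl⟩ := Submodule.mkQ_surjective _ x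
      obtain ⟨z, rfl⟩ := Ideal.Quotient.mk_surjective y
      exact ⟨Submodule.Quotient.mk z, rfl⟩
    have hle : Jq ≤ I := le_sup_left
    have h8 : FiniteDimensional K (P ⧸ I) :=
      Module.Finite.of_surjective (Ideal.Quotient.factorₐ K hle).toLinearMap
        (Ideal.Quotient.factor_surjective hle)
    let e := Submodule.Quotient.restrictScalarsEquiv K I
    have h9 : FiniteDimensional K (P ⧸ I.restrictScalars K) := Module.Finite.equiv e.symm
    rw [← e.finrank_eq]
    exact LinearMap.finrank_le_finrank_of_surjective h7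
  omega

theorem QG [IsAlgClosed K] {p : ℕ} [Fact p.Prime] [CharP K p] (hd : 1 ≤ d)
    (G : Subgroup (GL (Fin d) K)) [Finite G]
    (hG : (Nat.card G : K) ≠ 0) {A : Type*} [CommRing A] [IsLocalRing A] (φ : Inv G ≃+* A) :
    ∃ c : ℕ, ∀ e : ℕ, (p ^ e) ^ d * N G ≤
      Nat.card G * (Module.length A (A ⧸ bracket (IsLocalRing.maximalIdeal A) (p ^ e))).toNat +
        c * (p ^ e) ^ (d - 1) := by
  obtain ⟨s, D, k, hD, hDk, hdisc⟩ := QG_disc G
  obtain ⟨c, hc⟩ := QG_small hd D k hD hDk (d * Nat.card G)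
  refine ⟨c, fun e => ?_⟩
  have hq : 1 ≤ p ^ e := Nat.one_le_iff_ne_zero.mpr (pow_ne_zero _ (Fact.out (p := p.Prime)).ne_zero)
  have hn : 0 < Nat.card G := Nat.card_pos
  let ι : Algebra K A := (φ.toRingHom.comp (QG_const G)).toAlgebra
  have halg : ∀ c, algebraMap K A c = φ (QG_const G c) := fun c => rfl
  set I := bracket (IsLocalRing.maximalIdeal A) (p ^ e) with hI
  have hfin : FiniteDimensional K (A ⧸ I) := QG_finite G hG φ halg e
  rw [QG_length G φ halg I]
  set Jq := bracket (J G) (p ^ e) with hJq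
  set L := d * Nat.card G * p ^ e with hL
  have hL0 : 0 < L := by positivity
  have hle : idealOfVars (Fin d) K ^ L ≤ Jq := QG_pow_le hd G (p ^ e)
  have hJfin : FiniteDimensional K (MvPolynomial (Fin d) K ⧸ Jq) := by
    refine finite_quot (q := Nat.card G * p ^ e) Jq fun i => ?_
    rw [pow_mul]
    exact Ideal.subset_span ⟨_, X_pow_mem_J G i, rfl⟩
  have h1 : (p ^ e) ^ d * N G ≤ finrank K (MvPolynomial (Fin d) K ⧸ Jq) := QG_frob (J G) e
  refine h1.trans ?_
  -- the map to `P / Jq`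
  let θ0 : MvPowerSeries (Fin d) K →+* MvPolynomial (Fin d) K ⧸ Jq :=
    (Ideal.Quotient.factor hle).comp (MvPowerSeries.truncTotalAlgHom (Fin d) K L).toRingHom
  have hθ0 : ∀ f, θ0 f = Ideal.Quotient.mk Jq (MvPowerSeries.truncTotal L f) := fun f => rfl
  have hθ1 : ∀ f : MvPolynomial (Fin d) K, θ0 (f : MvPowerSeries (Fin d) K) =
      Ideal.Quotient.mk Jq f := by
    intro f
    have h2 := (MvPowerSeries.truncTotalAlgHom (Fin d) K L).commutes f
    change Ideal.Quotient.factor hle (MvPowerSeries.truncTotalAlgHom (Fin d) K L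
      (algebraMap (MvPolynomial (Fin d) K) (MvPowerSeries (Fin d) K) f)) = _
    rw [h2]
    rfl
  let θ2 : A →ₐ[K] MvPolynomial (Fin d) K ⧸ Jq :=
    { θ0.comp (QG_emb φ) with
      commutes' := fun c => by
        change θ0 (QG_emb φ (algebraMap K A c)) = _
        rw [halg, QG_emb_const, ← MvPolynomial.coe_C, hθ1]
        rfl }
  have hθ2 : ∀ a, θ2 a = θ0 (QG_emb φ a) := fun a => rfl
  have hker : ∀ a ∈ I, θ2 a = 0 := by
    intro a ha
    have h2 : I ≤ RingHom.ker θ2 := by
      rw [hI, bracket, Ideal.span_le]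
      rintro _ ⟨x, hx, rfl⟩
      change θ2 (x ^ p ^ e) = 0
      rw [map_pow, hθ2, hθ0, ← map_pow, Ideal.Quotient.eq_zero_iff_mem]
      refine Ideal.subset_span ⟨_, ?_, rfl⟩
      refine Ideal.subset_span ⟨trunc_mem_inv G _ (QG_emb_mem φ x) L, ?_⟩
      rw [MvPowerSeries.constantCoeff_truncTotal_eq_ite, (QG_mem_max φ).mp hx, ite_self]
    exact h2 ha
  let θ : (A ⧸ I) →ₐ[K] MvPolynomial (Fin d) K ⧸ Jq := Ideal.Quotient.liftₐ I θ2 hker
  have h2 := QG_dim Jq θ s D (Nat.card G) (by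
    intro t
    obtain ⟨c', hc1, hc2⟩ := hdisc t
    refine ⟨fun i => Ideal.Quotient.mk I (φ ⟨c' i, (coe_mem_Inv G _).mpr (hc1 i)⟩), ?_⟩
    rw [hc2, map_sum]
    refine Finset.sum_congr rfl fun i _ => ?_
    rw [map_mul, map_pow]
    congr 1
    change _ = θ0 (QG_emb φ (φ ⟨c' i, _⟩))
    rw [QG_emb_apply φ, hθ1])
  refine h2.trans (Nat.add_le_add_left ?_ _)
  refine hc (p ^ e) hq _ (Ideal.mem_sup_right (Ideal.mem_span_singleton_self D)) ?_
  intro f hf
  refine Ideal.mem_sup_left (hle ?_)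
  rw [mem_pow_idealOfVars_iff]
  intro x hx
  have h3 := hf (mem_support_iff.mp hx)
  rw [hL, ← h3, Finsupp.degree_eq_weight_one]
  exact le_rfl

end Pool.Agent.Lib.MP_1bbd88_ag.Q
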