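import Pool.Agent.Lib.MP_1bbd88_ag.Q.QA
import Pool.Agent.Lib.MP_1bbd88_ag.Q.QB
import Pool.Agent.Lib.MP_1bbd88_ag.Q.QD
import Pool.Agent.Lib.MP_1bbd88_ag.Q.QE
import Pool.Agent.Lib.MP_1bbd88_ag.Q.QF
import Pool.Agent.Lib.MP_1bbd88_ag.Q.QG

/-! Assembly: `55 |G| ≤ 48 ... ` -/

set_option autoImplicit false

namespace Pool.Agent.Lib.MP_1bbd88_ag.Q

open Module MvPolynomial IsLocalRing

variable {K : Type*} [Field K] {d : ℕ}

/-- a solvable group acting freely outside its fixed space contains a large commutative subgroup -/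
theorem QB [IsAlgClosed K] (H : Subgroup (GL (Fin d) K)) [Finite H]
    (hH : (Nat.card H : K) ≠ 0) (hfree : FreeOff H) (hs : Group.IsSolvable H) (hne : H ≠ ⊥) (d' : ℕ)
    (hd' : finrank K (Vfix H) + d' = d) (h2 : 2 ≤ d') :
    ∃ F : Subgroup (GL (Fin d) K), F ≤ H ∧ Comm F ∧
      7 * Nat.card H ≤ 48 * ((d' - 1) * (Nat.card F - 1)) := by
  have hnt : Nontrivial H := (Subgroup.nontrivial_iff_ne_bot H).2 hne
  have hVne : Vfix H ≠ ⊤ := by
    intro h
    rw [h, finrank_top, finrank_fin_fun] at hd'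
    omega
  obtain ⟨A, hAn, hA1, hAc, hA⟩ := QA H fun B hB => QB_cyc H hH hfree hVne B hB
  obtain ⟨hi1, hi2⟩ := QB_index H hH hfree d' hd' A hAn hA1 hAc
  set C := Subgroup.centralizer (A : Set H) with hC
  have hcard : Nat.card C * C.index = Nat.card H := Subgroup.card_mul_index C
  -- transport of a subgroup of `H`
  have htr : ∀ F : Subgroup H, Comm F → (F.map H.subtype) ≤ H ∧ Comm (F.map H.subtype) ∧
      Nat.card (F.map H.subtype) = Nat.card F := by
    intro F hF
    refine ⟨Subgroup.map_subtype_le F, ?_, ?_⟩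
    · rintro _ ⟨x, hx, rfl⟩ _ ⟨y, hy, rfl⟩
      rw [← map_mul, ← map_mul, hF x hx y hy]
    · exact Nat.card_congr (F.equivMapOfInjective _ H.subtype_injective).symm.toEquiv
  rcases hA with hA | ⟨hnc, F, hF, hle⟩
  · obtain ⟨h1, h3, h4⟩ := htr A hAc
    refine ⟨A.map H.subtype, h1, h3, ?_⟩
    rw [h4]
    have h5 : Nat.card C ≤ Nat.card A := Subgroup.card_le_of_le hA
    have h6 : 2 ≤ Nat.card A := by
      have := (Subgroup.one_lt_card_iff_ne_bot A).2 hA1
      omega
    obtain ⟨a, ha⟩ : ∃ a, Nat.card A = a + 2 := ⟨Nat.card A - 2, by omega⟩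
    obtain ⟨b, rfl⟩ : ∃ b, d' = b + 2 := ⟨d' - 2, by omega⟩
    have e1 : b + 2 - 1 = b + 1 := by omega
    have e2 : Nat.card A - 1 = a + 1 := by omega
    have h7 : Nat.card H ≤ (a + 2) * (b + 2) := by
      rw [← hcard]
      exact Nat.mul_le_mul (by omega) hi1
    rw [e1, e2]
    nlinarith [Nat.zero_le (a * b)]
  · obtain ⟨h1, h3, h4⟩ := htr F hF
    refine ⟨F.map H.subtype, h1, h3, ?_⟩
    rw [h4]
    have hi := hi2 hnc
    obtain ⟨b, rfl⟩ : ∃ b, d' = b + 2 := ⟨d' - 2, by omega⟩
    have e1 : b + 2 - 1 = b + 1 := by omega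
    rw [e1, ← hcard]
    have h7 : C.index ≤ b + 1 := by omega
    calc 7 * (Nat.card C * C.index) = (7 * Nat.card C) * C.index := by ring
      _ ≤ (48 * (Nat.card F - 1)) * (b + 1) := Nat.mul_le_mul hle h7
      _ = 48 * ((b + 1) * (Nat.card F - 1)) := by ring

/-- the main inequality for the coinvariants -/
theorem main_ineq [IsAlgClosed K] (G : Subgroup (GL (Fin d) K)) [Finite G]
    (hG : (Nat.card G : K) ≠ 0)
    (hrefl : ∀ g ∈ G, g ≠ 1 → ((g.val : Matrix (Fin d) (Fin d) K) - 1).rank ≠ 1)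
    (v : Fin d → K) (hv : stab G v ≠ ⊥) (hs : Group.IsSolvable (stab G v)) :
    55 * Nat.card G ≤ 48 * N G := by
  have hinf : Infinite K := IsAlgClosed.instInfinite
  obtain ⟨u, hu1, hu2, hu3⟩ := QF G v hv
  set H := stab G u with hHdef
  have hHG : H ≤ G := fun g hg => hg.1
  have hfin : Finite H := Finite.of_injective _ (Subgroup.inclusion_injective hHG)
  have hdvd : Nat.card H ∣ Nat.card G := Subgroup.card_dvd_of_le hHG
  have hH : (Nat.card H : K) ≠ 0 := by
    obtain ⟨c, hc⟩ := hdvd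
    intro h
    apply hG
    rw [hc, Nat.cast_mul, h, zero_mul]
  have hsH : Group.IsSolvable H :=
    Group.isSolvable_of_isSolvable_injective (Subgroup.inclusion_injective hu1)
  -- the codimension of the fixed space
  obtain ⟨h, hh, hh1⟩ : ∃ h ∈ H, h ≠ 1 := by
    by_contra hcon
    push Not at hcon
    exact hu2 ((Subgroup.eq_bot_iff_forall _).2 hcon)
  have hle : finrank K (Vfix H) ≤ d := by
    have := (Vfix H).finrank_le
    rwa [finrank_fin_fun] at this
  obtain ⟨d', hd'⟩ : ∃ d', finrank K (Vfix H) + d' = d := ⟨d - finrank K (Vfix H), by omega⟩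
  have h2 : 2 ≤ d' := by
    -- `Vfix H = ker (h - 1)`
    have hker : LinearMap.ker (Matrix.mulVecLin ((h.val : Matrix (Fin d) (Fin d) K) - 1)) =
        Vfix H := by
      ext w
      rw [LinearMap.mem_ker, Matrix.mulVecLin_apply, Matrix.sub_mulVec, Matrix.one_mulVec,
        sub_eq_zero]
      exact ⟨fun hw => hu3 h hh hh1 w hw, fun hw => hw h hh⟩
    have hrn := LinearMap.finrank_range_add_finrank_ker
      (Matrix.mulVecLin ((h.val : Matrix (Fin d) (Fin d) K) - 1))
    rw [hker, finrank_fin_fun] at hrn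
    have hr : ((h.val : Matrix (Fin d) (Fin d) K) - 1).rank = d' := by
      have : ((h.val : Matrix (Fin d) (Fin d) K) - 1).rank = finrank K (LinearMap.range
        (Matrix.mulVecLin ((h.val : Matrix (Fin d) (Fin d) K) - 1))) := rfl
      omega
    have hr1 := hrefl h (hHG hh) hh1
    rw [hr] at hr1
    have hr0 : d' ≠ 0 := by
      intro h0
      rw [h0] at hr
      have h3 : ((h.val : Matrix (Fin d) (Fin d) K) - 1) = 0 := by
        have h4 : LinearMap.ker (Matrix.mulVecLin ((h.val : Matrix (Fin d) (Fin d) K) - 1)) = ⊤ := by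
          apply Submodule.eq_top_of_finrank_eq
          rw [hker, finrank_fin_fun]
          omega
        rw [LinearMap.ker_eq_top] at h4
        ext i j
        have h5 := congrFun (DFunLike.congr_fun h4 (Pi.single j 1)) i
        simpa [Matrix.one_apply, Pi.single_apply] using h5
      apply hh1
      apply Units.ext
      exact sub_eq_zero.1 h3
    omega
  obtain ⟨F, hFH, hFc, hF⟩ := QB H hH hu3 hsH hu2 d' hd' h2
  have hD := QD H hH hu3 d' hd' (by omega) F hFH hFc
  have hE := QE G u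
  rw [← hHdef] at hE
  have hHpos : 0 < Nat.card H := Nat.card_pos
  have h3 : 55 * Nat.card H ≤ 48 * N H := by omega
  have h4 : Nat.card H * (55 * Nat.card G) ≤ Nat.card H * (48 * N G) := by
    calc Nat.card H * (55 * Nat.card G) = Nat.card G * (55 * Nat.card H) := by ring
      _ ≤ Nat.card G * (48 * N H) := Nat.mul_le_mul_left _ h3
      _ = 48 * (Nat.card G * N H) := by ring
      _ ≤ 48 * (Nat.card H * N G) := Nat.mul_le_mul_left _ hE
      _ = Nat.card H * (48 * N G) := by ring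
  exact Nat.le_of_mul_le_mul_left h4 hHpos

end Pool.Agent.Lib.MP_1bbd88_ag.Q
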