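import Pool.Agent.Lib.MP_1bbd88_ag.Q.Defs

set_option autoImplicit false

namespace Pool.Agent.Lib.MP_1bbd88_ag.Q

open Module MvPolynomial

open scoped commutatorElement

theorem QA_pow_aux {H : Type*} [Group H] {y u c : H} (hc : u * y = c * (y * u))
    (hcu : c * u = u * c) (n : ℕ) : u ^ n * y = c ^ n * (y * u ^ n) := by
  induction n with
  | zero => simp
  | succ n ih =>
    have h1 : u ^ n * c = c * u ^ n := ((show Commute c u from hcu).pow_right n).eq.symm
    calc u ^ (n + 1) * y = u ^ n * (u * y) := by rw [pow_succ, mul_assoc]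
      _ = (u ^ n * c) * (y * u) := by rw [hc, ← mul_assoc]
      _ = c * (u ^ n * y) * u := by rw [h1]; simp only [mul_assoc]
      _ = c ^ (n + 1) * (y * u ^ (n + 1)) := by
        rw [ih, pow_succ' c, pow_succ u]; simp only [mul_assoc]

theorem QA_pow {H : Type*} [Group H] {y u c : H} (hc : u * y = c * (y * u))
    (hcu : c * u = u * c) (hcy : c * y = y * c) (n : ℕ) :
    (y * u) ^ n = c ^ (n.choose 2) * (y ^ n * u ^ n) := by
  induction n with
  | zero => simp
  | succ n ih =>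
    have h1 := QA_pow_aux hc hcu n
    have h2 : y ^ n * c ^ n = c ^ n * y ^ n :=
      (((show Commute c y from hcy).pow_right n).pow_left n).eq.symm
    have h3 : (n + 1).choose 2 = n.choose 2 + n := by
      rw [Nat.choose_succ_succ' n 1, Nat.choose_one_right, add_comm]
    calc (y * u) ^ (n + 1) = c ^ (n.choose 2) * (y ^ n * u ^ n) * (y * u) := by rw [pow_succ, ih]
      _ = c ^ (n.choose 2) * (y ^ n * (u ^ n * y) * u) := by simp only [mul_assoc]
      _ = c ^ (n.choose 2) * ((y ^ n * c ^ n) * (y * u ^ n) * u) := by rw [h1]; simp only [mul_assoc]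
      _ = c ^ ((n + 1).choose 2) * (y ^ (n + 1) * u ^ (n + 1)) := by
        rw [h2, h3, pow_add, pow_succ y, pow_succ u]; simp only [mul_assoc]

theorem QA_comm_closure {H : Type*} [Group H] {A : Subgroup H} (hA : Comm A) {y : H}
    (hy : y ∈ Subgroup.centralizer (A : Set H)) : Comm (Subgroup.closure ((A : Set H) ∪ {y})) := by
  have hk : ∀ a ∈ ((A : Set H) ∪ {y}), ∀ b ∈ ((A : Set H) ∪ {y}), a * b = b * a := by
    rw [Subgroup.mem_centralizer_iff] at hy
    rintro a (ha | ha) b (hb | hb)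
    · exact hA a ha b hb
    · rw [Set.mem_singleton_iff] at hb; subst hb; exact hy a ha
    · rw [Set.mem_singleton_iff] at ha; subst ha; exact (hy b hb).symm
    · rw [Set.mem_singleton_iff] at ha hb; rw [ha, hb]
  intro a ha b hb
  have h1 : Subgroup.closure ((A : Set H) ∪ {y}) ≤
      Subgroup.centralizer ((A : Set H) ∪ {y}) := by
    rw [Subgroup.closure_le]
    intro a ha
    rw [SetLike.mem_coe, Subgroup.mem_centralizer_iff]
    intro b hb
    exact hk b hb a ha
  have h2 : Subgroup.closure ((A : Set H) ∪ {y}) ≤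
      Subgroup.centralizer (Subgroup.closure ((A : Set H) ∪ {y}) : Set H) := by
    rw [Subgroup.closure_le]
    intro a ha
    rw [SetLike.mem_coe, Subgroup.mem_centralizer_iff]
    intro b hb
    exact ((Subgroup.mem_centralizer_iff.1 (h1 hb)) a ha).symm
  exact ((Subgroup.mem_centralizer_iff.1 (h2 ha)) b hb).symm

theorem QA_U {H : Type*} [Group H] [Finite H] (hcyc : ∀ B : Subgroup H, Comm B → IsCyclic B)
    {A : Subgroup H} (hA : Comm A) {l : ℕ} (hl : l.Prime) {z : H} (hz : z ∈ A) (hz1 : z ≠ 1)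
    (hzl : z ^ l = 1) {y : H} (hy : y ∈ Subgroup.centralizer (A : Set H)) (hyl : y ^ l = 1) :
    y ∈ Subgroup.zpowers z := by
  classical
  by_contra hcon
  set F := Subgroup.closure ((A : Set H) ∪ {y}) with hF
  have hFc : Comm F := QA_comm_closure hA hy
  have := hcyc F hFc
  have : Fintype F := Fintype.ofFinite F
  have : Fact l.Prime := ⟨hl⟩
  have hyF : y ∈ F := Subgroup.subset_closure (Or.inr rfl)
  have hzF : z ∈ F := Subgroup.subset_closure (Or.inl hz)
  have hcard : (Finset.univ.filter fun a : F => a ^ l = 1).card ≤ l :=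
    IsCyclic.card_pow_eq_one_le hl.pos
  have hord : orderOf z = l := orderOf_eq_prime hzl hz1
  let ι : Fin l → F := fun i => ⟨z ^ (i : ℕ), F.pow_mem hzF _⟩
  have hinj : Function.Injective ι := by
    intro i j hij
    have h1 : z ^ (i : ℕ) = z ^ (j : ℕ) := congrArg Subtype.val hij
    have h2 := (pow_inj_mod.1 h1)
    rw [hord, Nat.mod_eq_of_lt i.2, Nat.mod_eq_of_lt j.2] at h2
    exact Fin.ext h2
  have hsub : insert (⟨y, hyF⟩ : F) (Finset.univ.image ι) ⊆
      Finset.univ.filter fun a : F => a ^ l = 1 := by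
    intro a ha
    rw [Finset.mem_insert, Finset.mem_image] at ha
    rw [Finset.mem_filter]
    refine ⟨Finset.mem_univ _, ?_⟩
    rcases ha with ha | ⟨i, -, ha⟩
    · subst ha; exact Subtype.ext hyl
    · subst ha
      refine Subtype.ext ?_
      change (z ^ (i : ℕ)) ^ l = 1
      rw [← pow_mul, mul_comm, pow_mul, hzl, one_pow]
  have hnot : (⟨y, hyF⟩ : F) ∉ Finset.univ.image ι := by
    intro hmem
    rw [Finset.mem_image] at hmem
    obtain ⟨i, -, hi⟩ := hmem
    have h1 : z ^ (i : ℕ) = y := congrArg Subtype.val hi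
    exact hcon (h1 ▸ Subgroup.pow_mem _ (Subgroup.mem_zpowers z) _)
  have h3 := Finset.card_le_card hsub
  rw [Finset.card_insert_of_notMem hnot, Finset.card_image_of_injective _ hinj, Finset.card_univ,
    Fintype.card_fin] at h3
  omega

/-- elements of the centraliser whose `l`-th power is an `l`-th power of an element of `A` -/
theorem QA_V {H : Type*} [Group H] [Finite H] (hcyc : ∀ B : Subgroup H, Comm B → IsCyclic B)
    {A : Subgroup H} (hA : Comm A) {l : ℕ} (hl : l.Prime) {z : H} (hz : z ∈ A) (hz1 : z ≠ 1)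
    (hzl : z ^ l = 1) {y : H} (hy : y ∈ Subgroup.centralizer (A : Set H)) {a : H} (ha : a ∈ A)
    (hya : y ^ l = a ^ l) : y ∈ A := by
  have hyc := Subgroup.mem_centralizer_iff.1 hy
  have hAC : A ≤ Subgroup.centralizer (A : Set H) := fun b hb =>
    Subgroup.mem_centralizer_iff.2 fun c hc => hA c hc b hb
  have h1 : (y * a⁻¹) ^ l = 1 := by
    have hc : Commute y a⁻¹ := (show Commute a y from hyc a ha).symm.inv_right
    rw [hc.mul_pow, hya, inv_pow, mul_inv_cancel]
  have h2 := QA_U hcyc hA hl hz hz1 hzl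
    (Subgroup.mul_mem _ hy (Subgroup.inv_mem _ (hAC ha))) h1
  have h3 : y * a⁻¹ ∈ A := (Subgroup.zpowers_le.2 hz) h2
  have := A.mul_mem h3 ha
  rwa [inv_mul_cancel_right] at this

/-- a perfect subgroup of a solvable group is trivial -/
theorem QA_perfect {H : Type*} [Group H] [Group.IsSolvable H] {K : Subgroup H}
    (hK : K ≤ ⁅K, K⁆) : K = ⊥ := by
  have h1 : ∀ n, K ≤ derivedSeries H n := by
    intro n
    induction n with
    | zero => exact le_top
    | succ n ih => exact hK.trans (Subgroup.commutator_mono ih ih)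
  obtain ⟨n, hn⟩ := (Group.isSolvable_def H).1 inferInstance
  exact le_bot_iff.1 (hn ▸ h1 n)

theorem QA_M1 {H : Type*} [Group H] [Group.IsSolvable H] {A E : Subgroup H} [A.Normal]
    [E.Normal] (hAE : A ≤ E) (hEC : E ≤ Subgroup.centralizer (A : Set H))
    (hmin : ∀ N : Subgroup H, N.Normal → A ≤ N → N ≤ E → ¬ N ≤ A → E ≤ N) :
    ⁅E, E⁆ ≤ A := by
  by_contra hcon
  have h1 : E ≤ A ⊔ ⁅E, E⁆ := hmin _ inferInstance le_sup_left
    (sup_le hAE (Subgroup.commutator_le_left E E)) (fun h => hcon (le_sup_right.trans h))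
  have hC : ∀ a ∈ A, ∀ e ∈ E, a * e = e * a := fun a ha e he =>
    Subgroup.mem_centralizer_iff.1 (hEC he) a ha
  have h2 : ⁅E, E⁆ ≤ ⁅⁅E, E⁆, ⁅E, E⁆⁆ := by
    rw [Subgroup.commutator_le]
    intro e he f hf
    obtain ⟨a, ha, e', he', rfl⟩ := Subgroup.mem_sup_of_normal_left.1 (h1 he)
    obtain ⟨b, hb, f', hf', rfl⟩ := Subgroup.mem_sup_of_normal_left.1 (h1 hf)
    have he1 : e' ∈ E := Subgroup.commutator_le_left E E he'
    have hf1 : f' ∈ E := Subgroup.commutator_le_left E E hf'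
    have h3 : ⁅a * e', b * f'⁆ = ⁅e', f'⁆ := by
      rw [commutatorElement_def, commutatorElement_def]
      have e1 := hC a ha (e' * b * f') (E.mul_mem (E.mul_mem he1 (hAE hb)) hf1)
      have e2 := hC b hb e' he1
      have e3 := hC b hb (f' * e'⁻¹) (E.mul_mem hf1 (E.inv_mem he1))
      calc a * e' * (b * f') * (a * e')⁻¹ * (b * f')⁻¹
          = (a * (e' * b * f')) * (e'⁻¹ * a⁻¹) * (f'⁻¹ * b⁻¹) := by
            rw [mul_inv_rev, mul_inv_rev]; simp only [mul_assoc]
        _ = (e' * b * f') * (a * e'⁻¹ * a⁻¹) * (f'⁻¹ * b⁻¹) := by rw [e1]; simp only [mul_assoc]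
        _ = (e' * b * f') * e'⁻¹ * (f'⁻¹ * b⁻¹) := by
            rw [hC a ha _ (E.inv_mem he1), mul_inv_cancel_right]
        _ = e' * (b * (f' * e'⁻¹)) * (f'⁻¹ * b⁻¹) := by simp only [mul_assoc]
        _ = e' * (f' * e'⁻¹) * (b * f'⁻¹ * b⁻¹) := by rw [e3]; simp only [mul_assoc]
        _ = e' * f' * e'⁻¹ * f'⁻¹ := by
            rw [hC b hb _ (E.inv_mem hf1), mul_inv_cancel_right]; simp only [mul_assoc]
    rw [h3]
    exact Subgroup.commutator_mem_commutator he' hf'
  have h4 := QA_perfect h2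
  apply hcon
  rw [h4]; exact bot_le

theorem QA_M2 {H : Type*} [Group H] [Finite H] {A E : Subgroup H} [A.Normal]
    [E.Normal] (hAE : A ≤ E) (hEA : ¬ E ≤ A) (hEE : ⁅E, E⁆ ≤ A)
    (hmin : ∀ N : Subgroup H, N.Normal → A ≤ N → N ≤ E → ¬ N ≤ A → E ≤ N) :
    ∃ l : ℕ, l.Prime ∧ ∀ e ∈ E, e ^ l ∈ A := by
  obtain ⟨x, hx, hxA⟩ := SetLike.not_le_iff_exists.1 hEA
  have hq : ∀ h : H, (QuotientGroup.mk' A h = 1 ↔ h ∈ A) := fun h => QuotientGroup.eq_one_iff h
  have hqc : ∀ e ∈ E, ∀ f ∈ E, Commute (QuotientGroup.mk' A e) (QuotientGroup.mk' A f) := by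
    intro e he f hf
    have h1 : e * f * e⁻¹ * f⁻¹ ∈ A := hEE (Subgroup.commutator_mem_commutator he hf)
    rw [← hq] at h1
    simp only [map_mul, map_inv] at h1
    rw [mul_inv_eq_one, mul_inv_eq_iff_eq_mul] at h1
    exact h1
  set X := QuotientGroup.mk' A x with hX
  have hX1 : orderOf X ≠ 1 := by
    rw [Ne, orderOf_eq_one_iff, hX, hq]; exact hxA
  have hX0 : orderOf X ≠ 0 := (orderOf_pos X).ne'
  set l := (orderOf X).minFac with hl
  have hlp : l.Prime := Nat.minFac_prime hX1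
  obtain ⟨k, hk⟩ := Nat.minFac_dvd (orderOf X)
  rw [← hl] at hk
  refine ⟨l, hlp, ?_⟩
  let N : Subgroup H :=
    { carrier := {e | e ∈ E ∧ e ^ l ∈ A}
      mul_mem' := by
        rintro e f ⟨he, he'⟩ ⟨hf, hf'⟩
        refine ⟨E.mul_mem he hf, ?_⟩
        rw [← hq, map_pow, map_mul, (hqc e he f hf).mul_pow, ← map_pow, ← map_pow,
          (hq _).2 he', (hq _).2 hf', one_mul]
      one_mem' := ⟨E.one_mem, by rw [one_pow]; exact A.one_mem⟩
      inv_mem' := by
        rintro e ⟨he, he'⟩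
        exact ⟨E.inv_mem he, by rw [inv_pow]; exact A.inv_mem he'⟩ }
  have hNn : N.Normal := by
    refine ⟨?_⟩
    rintro e ⟨he, he'⟩ g
    refine ⟨Subgroup.Normal.conj_mem inferInstance e he g, ?_⟩
    rw [conj_pow]
    exact Subgroup.Normal.conj_mem inferInstance _ he' g
  have hAN : A ≤ N := fun a ha => ⟨hAE ha, A.pow_mem ha l⟩
  have hNE : N ≤ E := fun a ha => ha.1
  have hk0 : k ≠ 0 := by rintro rfl; exact hX0 (by rw [hk, mul_zero])
  have hNA : ¬ N ≤ A := by
    intro h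
    have h1 : x ^ k ∈ N := by
      refine ⟨E.pow_mem hx k, ?_⟩
      rw [← hq, map_pow, map_pow, ← pow_mul, mul_comm, ← hk]
      exact pow_orderOf_eq_one X
    have h2 := h h1
    rw [← hq, map_pow] at h2
    have h3 := Nat.le_of_dvd (Nat.pos_of_ne_zero hk0) (orderOf_dvd_of_pow_eq_one h2)
    have h4 := hlp.two_le
    rw [hk] at h3
    nlinarith [Nat.pos_of_ne_zero hk0]
  intro e he
  exact (hmin N hNn hAN hNE hNA he).2

theorem QA_M {H : Type*} [Group H] [Finite H] [Group.IsSolvable H]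
    (hcyc : ∀ B : Subgroup H, Comm B → IsCyclic B) {A : Subgroup H} [A.Normal] (hA : Comm A)
    (hmax : ∀ B : Subgroup H, B.Normal → Comm B → A ≤ B → B ≤ A) {E : Subgroup H} [E.Normal]
    (hAE : A ≤ E) (hEA : ¬ E ≤ A) (hEC : E ≤ Subgroup.centralizer (A : Set H))
    (hmin : ∀ N : Subgroup H, N.Normal → A ≤ N → N ≤ E → ¬ N ≤ A → E ≤ N) :
    ∃ z ∈ A, z ≠ 1 ∧ z ^ 2 = 1 ∧ (∀ e ∈ E, ∀ f ∈ E, e * f = f * e ∨ e * f = z * (f * e)) ∧
      (∀ e ∈ E, e ^ 2 ∈ A) ∧ (∀ e ∈ E, e ∉ A → ∃ a ∈ A, e ^ 2 = z * a ^ 2) ∧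
      (∀ e ∈ E, ∀ f ∈ E, e * f * e⁻¹ * f⁻¹ ∈ A) ∧
      ∃ x ∈ E, ∃ y ∈ E, x * y ≠ y * x := by
  have hE : ¬ Comm E := fun h => hEA (hmax E inferInstance h hAE)
  have hEE := QA_M1 hAE hEC hmin
  obtain ⟨l, hl, hpow⟩ := QA_M2 hAE hEA hEE hmin
  have hEE' : ∀ e ∈ E, ∀ f ∈ E, e * f * e⁻¹ * f⁻¹ ∈ A := fun e he f hf =>
    hEE (Subgroup.commutator_mem_commutator he hf)
  have hC : ∀ a ∈ A, ∀ e ∈ E, a * e = e * a := fun a ha e he =>
    Subgroup.mem_centralizer_iff.1 (hEC he) a ha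
  have hcom : ∀ e ∈ E, ∀ f ∈ E, (e * f * e⁻¹ * f⁻¹) ^ l = 1 := by
    intro e he f hf
    have hc := hEE' e he f hf
    have h1 : e * f = (e * f * e⁻¹ * f⁻¹) * (f * e) := by group
    have h2 := QA_pow_aux h1 (hC _ hc e he) l
    have h3 := hC _ (hpow e he) f hf
    rw [h3] at h2
    exact (mul_eq_right.1 h2.symm)
  obtain ⟨x, hx, y, hy, hxy⟩ : ∃ x ∈ E, ∃ y ∈ E, x * y ≠ y * x := by
    by_contra hcon
    push Not at hcon
    exact hE hcon
  set z := x * y * x⁻¹ * y⁻¹ with hz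
  have hzA : z ∈ A := hEE' x hx y hy
  have hz1 : z ≠ 1 := by
    intro h
    apply hxy
    rw [hz, mul_inv_eq_one, mul_inv_eq_iff_eq_mul] at h
    exact h
  have hzl : z ^ l = 1 := hcom x hx y hy
  have hV : ∀ e ∈ E, ∀ a ∈ A, e ^ l = a ^ l → e ∈ A := fun e he a ha h =>
    QA_V hcyc hA hl hzA hz1 hzl (hEC he) ha h
  have hU : ∀ e ∈ E, e ^ l = 1 → e ∈ Subgroup.zpowers z := fun e he h =>
    QA_U hcyc hA hl hzA hz1 hzl (hEC he) h
  have hxA : x ∉ A := fun h => hxy (hC x h y hy)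
  obtain ⟨g, hg⟩ := (hcyc A hA).exists_generator
  have hgen : ∀ a ∈ A, ∃ i : ℤ, (g : H) ^ i = a := by
    intro a ha
    obtain ⟨i, hi⟩ := Subgroup.mem_zpowers_iff.1 (hg ⟨a, ha⟩)
    exact ⟨i, by rw [← SubgroupClass.coe_zpow, hi]⟩
  obtain ⟨i, hi⟩ := hgen _ (hpow x hx)
  obtain ⟨j, hj⟩ := hgen _ (hpow y hy)
  have hli : ¬ (l : ℤ) ∣ i := by
    rintro ⟨m, rfl⟩
    apply hxA
    refine hV x hx ((g : H) ^ m) (A.zpow_mem g.2 m) ?_
    rw [← hi, mul_comm, zpow_mul, zpow_natCast]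
  obtain ⟨s, t, hst⟩ : IsCoprime (l : ℤ) i :=
    (Prime.coprime_iff_not_dvd (Nat.prime_iff_prime_int.1 hl)).2 hli
  set k := j * t with hk
  set m := j * s with hm
  have hjkm : j = i * k + m * l := by rw [hk, hm]; linear_combination (-j) * hst
  set u := x ^ (-k) with hu
  have huE : u ∈ E := E.zpow_mem hx _
  set c := u * y * u⁻¹ * y⁻¹ with hc
  have hcA : c ∈ A := hEE' u huE y hy
  have hcl : c ^ l = 1 := hcom u huE y hy
  have huy : u * y = c * (y * u) := by rw [hc]; group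
  have hw : (y * u) ^ l = c ^ (l.choose 2) * ((g : H) ^ m) ^ l := by
    rw [QA_pow huy (hC c hcA u huE) (hC c hcA y hy), ← hj]
    congr 1
    have h1 : u ^ l = (g : H) ^ (-(i * k)) := by
      rw [hu, ← zpow_natCast, ← zpow_mul, neg_mul, mul_comm k, zpow_neg, zpow_mul, zpow_natCast,
        ← hi, ← zpow_mul, zpow_neg]
    rw [h1, ← zpow_add, ← zpow_natCast, ← zpow_mul]
    congr 1
    rw [hjkm]; ring
  have hgm : (g : H) ^ m ∈ A := A.zpow_mem g.2 m
  have hyu : y * u ∉ A := by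
    intro h
    apply hxy
    have h1 := hC _ h x hx
    have h2 : u * x = x * u := ((Commute.refl x).zpow_left (-k)).eq
    rw [mul_assoc, h2, ← mul_assoc, ← mul_assoc] at h1
    exact (mul_right_cancel h1).symm
  have hl2 : l = 2 := by
    rcases hl.eq_two_or_odd with h | h
    · exact h
    · exfalso
      have h1 : c ^ (l.choose 2) = 1 := by
        have h2 : l ∣ l.choose 2 := hl.dvd_choose_self (by norm_num) (by
          have := hl.two_le; omega)
        obtain ⟨q, hq⟩ := h2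
        rw [hq, pow_mul, hcl, one_pow]
      rw [h1, one_mul] at hw
      exact hyu (hV _ (E.mul_mem hy huE) _ hgm hw)
  subst hl2
  have hzp : ∀ e ∈ E, e ^ 2 = 1 → e = 1 ∨ e = z := by
    intro e he h
    obtain ⟨q, hq⟩ := Subgroup.mem_zpowers_iff.1 (hU e he h)
    rcases Int.even_or_odd' q with ⟨r, rfl | rfl⟩
    · left
      rw [← hq, zpow_mul]
      have : z ^ (2 : ℤ) = 1 := by exact_mod_cast hzl
      rw [this, one_zpow]
    · right
      rw [← hq, zpow_add, zpow_mul, zpow_one]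
      have : z ^ (2 : ℤ) = 1 := by exact_mod_cast hzl
      rw [this, one_zpow, one_mul]
  have hznsq : ∀ b ∈ A, b ^ 2 ≠ z := by
    intro b hb hbz
    apply hyu
    rcases hzp c (hAE hcA) hcl with h | h
    · refine hV _ (E.mul_mem hy huE) _ hgm ?_
      rw [hw, h, one_pow, one_mul]
    · refine hV _ (E.mul_mem hy huE) _ (A.mul_mem hb hgm) ?_
      rw [hw, h, (show Commute b ((g : H) ^ m) from hA b hb _ hgm).mul_pow, hbz]
      norm_num
  refine ⟨z, hzA, hz1, hzl, ?_, hpow, ?_, hEE', x, hx, y, hy, hxy⟩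
  · intro e he f hf
    rcases hzp _ (hAE (hEE' e he f hf)) (hcom e he f hf) with h | h
    · left
      rw [mul_inv_eq_one, mul_inv_eq_iff_eq_mul] at h
      exact h
    · right
      rw [← h]; group
  · intro e he heA
    obtain ⟨p, hp⟩ := hgen _ (hpow e he)
    obtain ⟨r, hr⟩ := hgen _ hzA
    have hpo : ¬ Even p := by
      rintro ⟨q, rfl⟩
      apply heA
      refine hV e he ((g : H) ^ q) (A.zpow_mem g.2 q) ?_
      rw [← hp, zpow_add, pow_two]
    have hro : ¬ Even r := by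
      rintro ⟨q, rfl⟩
      apply hznsq ((g : H) ^ q) (A.zpow_mem g.2 q)
      rw [← hr, zpow_add, pow_two]
    have h1 : Even (p - r) := by
      rw [Int.even_sub]
      tauto
    obtain ⟨q, hq⟩ := h1
    refine ⟨(g : H) ^ q, A.zpow_mem g.2 q, ?_⟩
    rw [← hp, ← hr, pow_two, ← zpow_add, ← zpow_add]
    congr 1
    omega

theorem QA_F {H : Type*} [Group H] [Finite H] {A : Subgroup H} (hA : Comm A) {c : H}
    (hc : c ∈ Subgroup.centralizer (A : Set H)) {m : ℕ}
    (hm : ∀ i, 0 < i → i < m → c ^ i ∉ A) :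
    ∃ F : Subgroup H, Comm F ∧ m * Nat.card A ≤ Nat.card F := by
  refine ⟨Subgroup.closure ((A : Set H) ∪ {c}), QA_comm_closure hA hc, ?_⟩
  set F := Subgroup.closure ((A : Set H) ∪ {c}) with hF
  have hcF : c ∈ F := Subgroup.subset_closure (Or.inr rfl)
  have hAF : ∀ a ∈ A, a ∈ F := fun a ha => Subgroup.subset_closure (Or.inl ha)
  let φ : Fin m × A → F := fun p => ⟨p.2 * c ^ (p.1 : ℕ),
    F.mul_mem (hAF _ p.2.2) (F.pow_mem hcF _)⟩
  have key : ∀ (i j : ℕ) (a b : A), i ≤ j → j < m → (a : H) * c ^ i = b * c ^ j → i = j := by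
    intro i j a b hij hj h
    by_contra hne
    have h1 : c ^ (j - i) ∈ A := by
      have h2 : c ^ j = c ^ (j - i) * c ^ i := by rw [← pow_add, Nat.sub_add_cancel hij]
      rw [h2, ← mul_assoc] at h
      have h3 := mul_right_cancel h
      have h4 : c ^ (j - i) = (b : H)⁻¹ * a := by rw [h3, inv_mul_cancel_left]
      rw [h4]
      exact A.mul_mem (A.inv_mem b.2) a.2
    exact hm (j - i) (by omega) (by omega) h1
  have hinj : Function.Injective φ := by
    rintro ⟨i, a⟩ ⟨j, b⟩ h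
    have h1 : (a : H) * c ^ (i : ℕ) = b * c ^ (j : ℕ) := congrArg Subtype.val h
    have hij : (i : ℕ) = j := by
      rcases le_total (i : ℕ) j with h2 | h2
      · exact key i j a b h2 j.2 h1
      · exact (key j i b a h2 i.2 h1.symm).symm
    have hij' : i = j := Fin.ext hij
    subst hij'
    have h3 := mul_right_cancel h1
    rw [Subtype.ext h3]
  have h1 := Nat.card_le_card_of_injective φ hinj
  rwa [Nat.card_prod, Nat.card_eq_fintype_card, Fintype.card_fin] at h1

theorem QA_exists_min {H : Type*} [Group H] [Finite H] {A D : Subgroup H} (hD : D.Normal)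
    (hAD : A ≤ D) (hDA : ¬ D ≤ A) :
    ∃ E : Subgroup H, E.Normal ∧ A ≤ E ∧ E ≤ D ∧ ¬ E ≤ A ∧
      ∀ N : Subgroup H, N.Normal → A ≤ N → N ≤ E → ¬ N ≤ A → E ≤ N := by
  obtain ⟨E, hED, hE⟩ := exists_minimal_le_of_wellFoundedLT
    (fun N : Subgroup H => N.Normal ∧ A ≤ N ∧ N ≤ D ∧ ¬ N ≤ A) D ⟨hD, hAD, le_rfl, hDA⟩
  refine ⟨E, hE.1.1, hE.1.2.1, hED, hE.1.2.2.2, ?_⟩
  intro N hN hAN hNE hNA
  exact hE.2 ⟨hN, hAN, hNE.trans hED, hNA⟩ hNE

/-- number of elements of a set whose image under a map with small fibres is small -/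
theorem QA_count {H : Type*} [Group H] [Finite H] {β : Type*} [DecidableEq β] (S T : Subgroup H)
    (f : H → β) (t : Finset β) (hf : ∀ c ∈ S, f c ∈ t)
    (hfib : ∀ c ∈ S, ∀ d ∈ S, f c = f d → c⁻¹ * d ∈ T) :
    Nat.card S ≤ Nat.card T * t.card := by
  classical
  have : Fintype H := Fintype.ofFinite H
  have h1 : Nat.card S = (Finset.univ.filter fun c : H => c ∈ S).card := by
    rw [Nat.card_eq_fintype_card, Fintype.card_subtype]
  rw [h1]
  refine Finset.card_le_mul_card_image_of_maps_to (f := f) (fun c hc => ?_) _ (fun b hb => ?_)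
  · exact hf c (Finset.mem_filter.1 hc).2
  · rcases Finset.eq_empty_or_nonempty
      ((Finset.univ.filter fun c : H => c ∈ S).filter fun c => f c = b) with h | ⟨c, hc⟩
    · rw [h]; simp
    · rw [Finset.mem_filter, Finset.mem_filter] at hc
      have h2 : Nat.card T = (Finset.univ.filter fun c : H => c ∈ T).card := by
        rw [Nat.card_eq_fintype_card, Fintype.card_subtype]
      rw [h2]
      refine Finset.card_le_card_of_injOn (fun d => c⁻¹ * d) ?_ ?_
      · intro d hd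
        rw [Finset.mem_coe, Finset.mem_filter, Finset.mem_filter] at hd
        rw [Finset.mem_coe, Finset.mem_filter]
        exact ⟨Finset.mem_univ _, hfib c hc.1.2 d hd.1.2 (hc.2.trans hd.2.symm)⟩
      · intro d _ e _ hde
        exact mul_left_cancel hde

theorem QA_adj {H : Type*} [Group H] {c d x s : H} (hc : c * x = s * (x * c))
    (hd : d * x = s * (x * d)) (hsc : s * c = c * s) (hsd : s * d = d * s) :
    (c * d⁻¹) * x = x * (c * d⁻¹) := by
  have h1 : d⁻¹ * x = s⁻¹ * (x * d⁻¹) := by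
    have h2 : x * d⁻¹ = d⁻¹ * (s * x) := by
      have h3 : x * d⁻¹ = d⁻¹ * (d * x) * d⁻¹ := by group
      rw [h3, hd]; group
    have h4 : s⁻¹ * d⁻¹ = d⁻¹ * s⁻¹ := by rw [← mul_inv_rev, ← mul_inv_rev, hsd]
    rw [h2, ← mul_assoc, h4]; group
  have h5 : c * s⁻¹ = s⁻¹ * c := by
    rw [eq_inv_mul_iff_mul_eq, ← mul_assoc, hsc, mul_inv_cancel_right]
  calc (c * d⁻¹) * x = c * (d⁻¹ * x) := by rw [mul_assoc]
    _ = (c * s⁻¹) * (x * d⁻¹) := by rw [h1, mul_assoc]
    _ = s⁻¹ * (c * x) * d⁻¹ := by rw [h5]; simp only [mul_assoc]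
    _ = x * (c * d⁻¹) := by rw [hc]; group

/-- the situation of the second half -/
structure QA_Data {H : Type*} [Group H] (A E : Subgroup H) (z : H) : Prop where
  An : A.Normal
  En : E.Normal
  Ac : Comm A
  AE : A ≤ E
  EC : E ≤ Subgroup.centralizer (A : Set H)
  zA : z ∈ A
  z1 : z ≠ 1
  z2 : z ^ 2 = 1
  com : ∀ e ∈ E, ∀ f ∈ E, e * f = f * e ∨ e * f = z * (f * e)
  sqA : ∀ e ∈ E, e ^ 2 ∈ A
  sq : ∀ e ∈ E, e ∉ A → ∃ a ∈ A, e ^ 2 = z * a ^ 2
  comA : ∀ e ∈ E, ∀ f ∈ E, e * f * e⁻¹ * f⁻¹ ∈ A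
  V : ∀ w ∈ Subgroup.centralizer (A : Set H), ∀ a ∈ A, w ^ 2 = a ^ 2 → w ∈ A
  U : ∀ w ∈ Subgroup.centralizer (A : Set H), w ^ 2 = 1 → w = 1 ∨ w = z

namespace QA_Data

variable {H : Type*} [Group H] {A E : Subgroup H} {z : H}

theorem cen (D : QA_Data A E z) {a c : H} (ha : a ∈ A)
    (hc : c ∈ Subgroup.centralizer (A : Set H)) : a * c = c * a :=
  Subgroup.mem_centralizer_iff.1 hc a ha

theorem AC (D : QA_Data A E z) : A ≤ Subgroup.centralizer (A : Set H) := D.AE.trans D.EC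

/-- two commuting elements of `C`, of the type of elements of `E` outside `A` -/
theorem two (D : QA_Data A E z) {u v a b : H} (hu : u ∈ Subgroup.centralizer (A : Set H))
    (hv : v ∈ Subgroup.centralizer (A : Set H)) (huv : u * v = v * u) (ha : a ∈ A) (hb : b ∈ A)
    (hua : u ^ 2 = z * a ^ 2) (hvb : v ^ 2 = z * b ^ 2) : u * v ∈ A := by
  refine D.V _ (Subgroup.mul_mem _ hu hv) (a * b) (A.mul_mem ha hb) ?_
  rw [(show Commute u v from huv).mul_pow, (show Commute a b from D.Ac a ha b hb).mul_pow, hua,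
    hvb]
  have h1 : a ^ 2 * z = z * a ^ 2 := D.Ac _ (A.pow_mem ha 2) _ D.zA
  calc z * a ^ 2 * (z * b ^ 2) = z * (a ^ 2 * z) * b ^ 2 := by simp only [mul_assoc]
    _ = z ^ 2 * (a ^ 2 * b ^ 2) := by rw [h1, pow_two z]; simp only [mul_assoc]
    _ = a ^ 2 * b ^ 2 := by rw [D.z2, one_mul]

theorem notA_of_ne (D : QA_Data A E z) {x y : H} (hx : x ∈ E) (hy : y ∈ E)
    (hxy : x * y ≠ y * x) : x ∉ A := fun h => hxy (D.cen h (D.EC hy))

theorem four (D : QA_Data A E z) {x y : H} (hx : x ∈ E) (hy : y ∈ E) (hxy : x * y ≠ y * x)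
    {f : H} (hf : f ∈ E) (hfx : f * x = x * f) (hfy : f * y = y * f) : f ∈ A := by
  by_contra hfA
  obtain ⟨a, ha, hxa⟩ := D.sq x hx (D.notA_of_ne hx hy hxy)
  obtain ⟨b, hb, hfb⟩ := D.sq f hf hfA
  have h1 := D.two (D.EC hx) (D.EC hf) hfx.symm ha hb hxa hfb
  have h2 := D.cen h1 (D.EC hy)
  apply hxy
  rw [mul_assoc, hfy, ← mul_assoc, ← mul_assoc] at h2
  exact mul_right_cancel h2

/-- an element of `E` with prescribed signs -/
theorem signs (D : QA_Data A E z) {x y : H} (hx : x ∈ E) (hy : y ∈ E) (hxy : x * y ≠ y * x)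
    {s t : H} (hs : s = 1 ∨ s = z) (ht : t = 1 ∨ t = z) :
    ∃ d, (d = 1 ∨ d = x ∨ d = y ∨ d = x * y) ∧ d * x = s * (x * d) ∧ d * y = t * (y * d) := by
  have h1 : x * y = z * (y * x) := (D.com x hx y hy).resolve_left hxy
  have h2 : y * x = z * (x * y) := (D.com y hy x hx).resolve_left (Ne.symm hxy)
  have hzx : z * x = x * z := D.cen D.zA (D.EC hx)
  rcases hs with rfl | rfl
  · rcases ht with rfl | rfl
    · exact ⟨1, Or.inl rfl, by simp, by simp⟩
    · exact ⟨x, Or.inr (Or.inl rfl), by simp, h1⟩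
  · rcases ht with rfl | rfl
    · exact ⟨y, Or.inr (Or.inr (Or.inl rfl)), h2, by simp⟩
    · refine ⟨x * y, Or.inr (Or.inr (Or.inr rfl)), ?_, ?_⟩
      · calc x * y * x = x * (y * x) := by rw [mul_assoc]
          _ = (x * t) * (x * y) := by rw [h2, ← mul_assoc]
          _ = t * (x * (x * y)) := by rw [← hzx]; simp only [mul_assoc]
      · calc x * y * y = (x * y) * y := rfl
          _ = t * (y * (x * y)) := by conv_lhs => rw [h1]
                                      simp only [mul_assoc]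

theorem dE (D : QA_Data A E z) {x y d : H} (hx : x ∈ E) (hy : y ∈ E)
    (hd : d = 1 ∨ d = x ∨ d = y ∨ d = x * y) : d ∈ E := by
  rcases hd with rfl | rfl | rfl | rfl
  · exact E.one_mem
  · exact hx
  · exact hy
  · exact E.mul_mem hx hy

theorem four' (D : QA_Data A E z) {x y : H} (hx : x ∈ E) (hy : y ∈ E) (hxy : x * y ≠ y * x)
    {e : H} (he : e ∈ E) :
    ∃ a ∈ A, ∃ d, (d = 1 ∨ d = x ∨ d = y ∨ d = x * y) ∧ e = a * d := by
  obtain ⟨s, hs, hs'⟩ : ∃ s, (s = 1 ∨ s = z) ∧ e * x = s * (x * e) := by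
    rcases D.com e he x hx with h | h
    · exact ⟨1, Or.inl rfl, by rw [one_mul]; exact h⟩
    · exact ⟨z, Or.inr rfl, h⟩
  obtain ⟨t, ht, ht'⟩ : ∃ s, (s = 1 ∨ s = z) ∧ e * y = s * (y * e) := by
    rcases D.com e he y hy with h | h
    · exact ⟨1, Or.inl rfl, by rw [one_mul]; exact h⟩
    · exact ⟨z, Or.inr rfl, h⟩
  obtain ⟨d, hd, hdx, hdy⟩ := D.signs hx hy hxy hs ht
  have hdE := D.dE hx hy hd
  have hsA : s ∈ A := by rcases hs with rfl | rfl; exacts [A.one_mem, D.zA]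
  have htA : t ∈ A := by rcases ht with rfl | rfl; exacts [A.one_mem, D.zA]
  refine ⟨e * d⁻¹, ?_, d, hd, by rw [inv_mul_cancel_right]⟩
  exact D.four hx hy hxy (E.mul_mem he (E.inv_mem hdE))
    (QA_adj hs' hdx (D.cen hsA (D.EC he)) (D.cen hsA (D.EC hdE)))
    (QA_adj ht' hdy (D.cen htA (D.EC he)) (D.cen htA (D.EC hdE)))

theorem qcom (D : QA_Data A E z) [A.Normal] {e f : H} (he : e ∈ E) (hf : f ∈ E) :
    (e : H ⧸ A) * (f : H ⧸ A) = (f : H ⧸ A) * (e : H ⧸ A) := by
  have h1 := D.comA e he f hf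
  rw [← QuotientGroup.eq_one_iff] at h1
  simp only [QuotientGroup.mk_mul, QuotientGroup.mk_inv] at h1
  rw [mul_inv_eq_one, mul_inv_eq_iff_eq_mul] at h1
  exact h1

theorem qsq (D : QA_Data A E z) [A.Normal] {e : H} (he : e ∈ E) :
    (e : H ⧸ A) * (e : H ⧸ A) = 1 := by
  rw [← QuotientGroup.mk_mul, QuotientGroup.eq_one_iff, ← pow_two]
  exact D.sqA e he

/-- elements of `C` fixing the class of `x` commute with `x` up to sign -/
theorem sgn (D : QA_Data A E z) [A.Normal] {c x : H}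
    (hc : c ∈ Subgroup.centralizer (A : Set H)) (hx : x ∈ E)
    (h : ((c * x * c⁻¹ : H) : H ⧸ A) = (x : H ⧸ A)) :
    ∃ s, (s = 1 ∨ s = z) ∧ c * x = s * (x * c) := by
  have h1 : c * x * c⁻¹ * x⁻¹ ∈ A := by
    rw [← QuotientGroup.eq_one_iff, QuotientGroup.mk_mul, h, ← QuotientGroup.mk_mul,
      mul_inv_cancel, QuotientGroup.mk_one]
  set α := c * x * c⁻¹ * x⁻¹ with hα
  have h2 : α * x = c * x * c⁻¹ := by rw [hα, inv_mul_cancel_right]
  have h3 : (α * x) ^ 2 = x ^ 2 := by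
    rw [h2, conj_pow, ← D.cen (D.sqA x hx) hc, mul_inv_cancel_right]
  rw [(show Commute α x from D.cen h1 (D.EC hx)).mul_pow] at h3
  refine ⟨α, D.U α (D.AC h1) (mul_eq_right.1 h3), ?_⟩
  rw [hα]; group

theorem fixE (D : QA_Data A E z) [A.Normal]
    (hcE : ∀ d ∈ Subgroup.centralizer (A : Set H), (∀ e ∈ E, d * e = e * d) → d ∈ A)
    {x y : H} (hx : x ∈ E) (hy : y ∈ E) (hxy : x * y ≠ y * x) {c : H}
    (hc : c ∈ Subgroup.centralizer (A : Set H))
    (h1 : ((c * x * c⁻¹ : H) : H ⧸ A) = (x : H ⧸ A))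
    (h2 : ((c * y * c⁻¹ : H) : H ⧸ A) = (y : H ⧸ A)) : c ∈ E := by
  obtain ⟨s, hs, hs'⟩ := D.sgn hc hx h1
  obtain ⟨t, ht, ht'⟩ := D.sgn hc hy h2
  obtain ⟨d, hd, hdx, hdy⟩ := D.signs hx hy hxy hs ht
  have hdE := D.dE hx hy hd
  have hsA : s ∈ A := by rcases hs with rfl | rfl; exacts [A.one_mem, D.zA]
  have htA : t ∈ A := by rcases ht with rfl | rfl; exacts [A.one_mem, D.zA]
  have hwC : c * d⁻¹ ∈ Subgroup.centralizer (A : Set H) :=
    Subgroup.mul_mem _ hc (Subgroup.inv_mem _ (D.EC hdE))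
  have hwx := QA_adj hs' hdx (D.cen hsA hc) (D.cen hsA (D.EC hdE))
  have hwy := QA_adj ht' hdy (D.cen htA hc) (D.cen htA (D.EC hdE))
  have hw : c * d⁻¹ ∈ A := by
    refine hcE _ hwC ?_
    intro e he
    obtain ⟨a, ha, d', hd', rfl⟩ := D.four' hx hy hxy he
    have h3 : Commute (c * d⁻¹) a := (D.cen ha hwC).symm
    have h4 : Commute (c * d⁻¹) d' := by
      rcases hd' with rfl | rfl | rfl | rfl
      · exact Commute.one_right _
      · exact hwx
      · exact hwy
      · exact Commute.mul_right hwx hwy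
    exact (h3.mul_right h4).eq
  have h5 := E.mul_mem (D.AE hw) hdE
  rwa [inv_mul_cancel_right] at h5

theorem ne_of (D : QA_Data A E z) [A.Normal] {e f : H} (he : e ∈ E) (hf : f ∈ E) (heA : e ∉ A)
    (hfA : f ∉ A) (hef : (e : H ⧸ A) ≠ (f : H ⧸ A)) : e * f ≠ f * e := by
  intro h
  obtain ⟨a, ha, hea⟩ := D.sq e he heA
  obtain ⟨b, hb, hfb⟩ := D.sq f hf hfA
  have h1 := D.two (D.EC he) (D.EC hf) h ha hb hea hfb
  rw [← QuotientGroup.eq_one_iff, QuotientGroup.mk_mul] at h1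
  have h2 := D.qsq hf
  apply hef
  rw [← h2] at h1
  exact mul_right_cancel h1

theorem three (D : QA_Data A E z) [A.Normal] {x y : H} (hx : x ∈ E) (hy : y ∈ E)
    (hxy : x * y ≠ y * x) {c : H} {e : H} (he : e ∈ E) (heA : e ∉ A) :
    ((c * e * c⁻¹ : H) : H ⧸ A) = (x : H ⧸ A) ∨ ((c * e * c⁻¹ : H) : H ⧸ A) = (y : H ⧸ A) ∨
      ((c * e * c⁻¹ : H) : H ⧸ A) = (x : H ⧸ A) * (y : H ⧸ A) := by
  have h1 : c * e * c⁻¹ ∈ E := D.En.conj_mem e he c
  have h2 : c * e * c⁻¹ ∉ A := by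
    intro h
    apply heA
    have h3 := D.An.conj_mem _ h c⁻¹
    have h4 : c⁻¹ * (c * e * c⁻¹) * c⁻¹⁻¹ = e := by group
    rwa [h4] at h3
  obtain ⟨a, ha, d, hd, hed⟩ := D.four' hx hy hxy h1
  have h5 : ((c * e * c⁻¹ : H) : H ⧸ A) = (d : H ⧸ A) := by
    rw [hed, QuotientGroup.mk_mul, (QuotientGroup.eq_one_iff a).2 ha, one_mul]
  rcases hd with rfl | rfl | rfl | rfl
  · exfalso; apply h2; rw [hed, mul_one]; exact ha
  · exact Or.inl h5
  · exact Or.inr (Or.inl h5)
  · right; right; rw [h5, QuotientGroup.mk_mul]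

theorem qne (D : QA_Data A E z) [A.Normal] {x y : H} (hx : x ∈ E) (hy : y ∈ E)
    (hxy : x * y ≠ y * x) : (x : H ⧸ A) ≠ (y : H ⧸ A) := by
  intro h
  have h1 : x * y⁻¹ ∈ A := by
    rw [← QuotientGroup.eq_one_iff, QuotientGroup.mk_mul, h, ← QuotientGroup.mk_mul,
      mul_inv_cancel, QuotientGroup.mk_one]
  have h2 := D.cen h1 (D.EC hy)
  apply hxy
  rw [inv_mul_cancel_right, ← mul_assoc] at h2
  have h3 : y * x = x * y := by
    rw [eq_mul_inv_iff_mul_eq] at h2
    exact h2.symm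
  exact h3.symm

/-- an element of order at least `4` modulo `A` -/
theorem trans (D : QA_Data A E z) [A.Normal]
    (hcE : ∀ d ∈ Subgroup.centralizer (A : Set H), (∀ e ∈ E, d * e = e * d) → d ∈ A)
    {x y : H} (hx : x ∈ E) (hy : y ∈ E) (hxy : x * y ≠ y * x)
    {t : H} (ht : t ∈ Subgroup.centralizer (A : Set H)) (htE : t ∉ E)
    {e : H} (he : e ∈ E) (heA : e ∉ A)
    (hte : ((t * e * t⁻¹ : H) : H ⧸ A) = (e : H ⧸ A)) :
    ∃ w ∈ Subgroup.centralizer (A : Set H), ∀ i, 0 < i → i < 4 → w ^ i ∉ A := by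
  have hxA := D.notA_of_ne hx hy hxy
  have hyA := D.notA_of_ne hy hx (Ne.symm hxy)
  obtain ⟨f, hf, hfA, hef⟩ : ∃ f ∈ E, f ∉ A ∧ (e : H ⧸ A) ≠ (f : H ⧸ A) := by
    by_cases h : (e : H ⧸ A) = (x : H ⧸ A)
    · exact ⟨y, hy, hyA, fun h' => D.qne hx hy hxy (h.symm.trans h')⟩
    · exact ⟨x, hx, hxA, h⟩
  have hne := D.ne_of he hf heA hfA hef
  set X : H ⧸ A := (e : H ⧸ A) with hX
  set Y : H ⧸ A := (f : H ⧸ A) with hY
  set T : H ⧸ A := (t : H ⧸ A) with hT
  have hX1 : X ≠ 1 := fun h => heA ((QuotientGroup.eq_one_iff e).1 h)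
  have hXX : X * X = 1 := D.qsq he
  have hYY : Y * Y = 1 := D.qsq hf
  have hXY : X * Y = Y * X := D.qcom he hf
  have hTX : T * X * T⁻¹ = X := by
    simpa only [QuotientGroup.mk_mul, QuotientGroup.mk_inv] using hte
  have hTY : T * Y * T⁻¹ = X * Y := by
    have h3 := D.three he hf hne (c := t) hf hfA
    simp only [QuotientGroup.mk_mul, QuotientGroup.mk_inv] at h3
    rcases h3 with h3 | h3 | h3
    · exfalso
      apply hef
      have h4 : T * Y * T⁻¹ = T * X * T⁻¹ := by rw [hTX]; exact h3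
      exact (mul_left_cancel (mul_right_cancel h4)).symm
    · exfalso
      apply htE
      exact D.fixE hcE he hf hne ht hte (by
        simpa only [QuotientGroup.mk_mul, QuotientGroup.mk_inv] using h3)
    · exact h3
  have hTX' : T * X = X * T := by rw [← mul_inv_eq_iff_eq_mul]; exact hTX
  have hTY' : T * Y = X * Y * T := by rw [← mul_inv_eq_iff_eq_mul]; exact hTY
  have hYne : Y ≠ X * Y := fun h => hX1 (mul_eq_right.1 h.symm)
  have hq : ∀ (w : H) (i : ℕ), w ^ i ∈ A → (w : H ⧸ A) ^ i = 1 := by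
    intro w i h
    rw [← QuotientGroup.mk_pow, QuotientGroup.eq_one_iff]; exact h
  by_cases hT2 : T ^ 2 = 1
  · -- the element `t f`
    refine ⟨t * f, Subgroup.mul_mem _ ht (D.EC hf), ?_⟩
    have hW : ((t * f : H) : H ⧸ A) = T * Y := by rw [QuotientGroup.mk_mul]
    have hWW : (T * Y) ^ 2 = X := by
      calc (T * Y) ^ 2 = (T * Y) * (T * Y) := pow_two _
        _ = (X * Y * T) * (T * Y) := by rw [← hTY']
        _ = X * Y * (T * T) * Y := by simp only [mul_assoc]
        _ = X := by rw [← pow_two, hT2, mul_one, mul_assoc, hYY, mul_one]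
    intro i h0 h4 hi
    have h5 := hq _ _ hi
    rw [hW] at h5
    interval_cases i
    · rw [pow_one] at h5
      have h6 : T = Y := by
        rw [← hYY] at h5
        exact mul_right_cancel h5
      rw [h6, hYY, mul_assoc, hYY, mul_one] at hTY'
      exact hX1 hTY'.symm
    · exact hX1 (hWW.symm.trans h5)
    · rw [pow_succ, hWW] at h5
      have h6 : T * Y = X := by
        have h7 : X * (T * Y) = X * X := h5.trans hXX.symm
        exact mul_left_cancel h7
      have h8 : T = X * Y := by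
        have h9 : T * Y = (X * Y) * Y := by rw [h6, mul_assoc, hYY, mul_one]
        exact mul_right_cancel h9
      rw [h8] at hTY'
      have h10 : X * Y * Y = X * Y * (X * Y) := hTY'
      exact hYne (mul_left_cancel h10)
  · refine ⟨t, ht, ?_⟩
    intro i h0 h4 hi
    have h5 := hq _ _ hi
    rw [← hT] at h5
    interval_cases i
    · rw [pow_one] at h5
      rw [h5, one_mul, mul_one] at hTY'
      exact hYne hTY'
    · exact hT2 h5
    · have h6 : T ^ 3 * Y = X * Y * T ^ 3 := by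
        calc T ^ 3 * Y = T * (T * (T * Y)) := by rw [pow_three]; simp only [mul_assoc]
          _ = T * (T * X * Y * T) := by rw [hTY']; simp only [mul_assoc]
          _ = T * (X * (T * Y) * T) := by rw [hTX']; simp only [mul_assoc]
          _ = T * (X * X * Y * T * T) := by rw [hTY']; simp only [mul_assoc]
          _ = (T * Y) * T * T := by rw [hXX, one_mul]; simp only [mul_assoc]
          _ = X * Y * T ^ 3 := by rw [hTY', pow_three]; simp only [mul_assoc]
      rw [h5, one_mul, mul_one] at h6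
      exact hYne h6

theorem final [Finite H] (D : QA_Data A E z) [A.Normal]
    (hcE : ∀ d ∈ Subgroup.centralizer (A : Set H), (∀ e ∈ E, d * e = e * d) → d ∈ A)
    {x y : H} (hx : x ∈ E) (hy : y ∈ E) (hxy : x * y ≠ y * x) :
    ∃ F : Subgroup H, Comm F ∧
      7 * Nat.card (Subgroup.centralizer (A : Set H)) ≤ 48 * (Nat.card F - 1) := by
  classical
  have hxA := D.notA_of_ne hx hy hxy
  have hyA := D.notA_of_ne hy hx (Ne.symm hxy)
  set C := Subgroup.centralizer (A : Set H) with hC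
  have hA2 : 2 ≤ Nat.card A := by
    have : Nontrivial A := ⟨⟨z, D.zA⟩, 1, fun h => D.z1 (congrArg Subtype.val h)⟩
    exact Finite.one_lt_card
  set X : H ⧸ A := (x : H ⧸ A) with hX
  set Y : H ⧸ A := (y : H ⧸ A) with hY
  have hEcard : Nat.card E ≤ Nat.card A * 4 := by
    refine (QA_count E A (fun c => (c : H ⧸ A)) ({1, X, Y, X * Y} : Finset (H ⧸ A)) ?_ ?_).trans
      (Nat.mul_le_mul_left _ Finset.card_le_four)
    · intro c hc
      obtain ⟨a, ha, d, hd, rfl⟩ := D.four' hx hy hxy hc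
      have h5 : ((a * d : H) : H ⧸ A) = (d : H ⧸ A) := by
        rw [QuotientGroup.mk_mul, (QuotientGroup.eq_one_iff a).2 ha, one_mul]
      simp only [Finset.mem_insert, Finset.mem_singleton]
      rw [h5]
      rcases hd with rfl | rfl | rfl | rfl
      · exact Or.inl (QuotientGroup.mk_one A)
      · exact Or.inr (Or.inl rfl)
      · exact Or.inr (Or.inr (Or.inl rfl))
      · exact Or.inr (Or.inr (Or.inr (QuotientGroup.mk_mul _ _ _)))
    · intro c _ d _ h
      exact QuotientGroup.eq.1 h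
  -- conjugation of classes
  have hconj : ∀ c d e : H, ((c * e * c⁻¹ : H) : H ⧸ A) = ((d * e * d⁻¹ : H) : H ⧸ A) →
      (((c⁻¹ * d) * e * (c⁻¹ * d)⁻¹ : H) : H ⧸ A) = (e : H ⧸ A) := by
    intro c d e h
    have h1 : (c⁻¹ * d) * e * (c⁻¹ * d)⁻¹ = c⁻¹ * (d * e * d⁻¹) * c := by group
    rw [h1, QuotientGroup.mk_mul, QuotientGroup.mk_mul, ← h, ← QuotientGroup.mk_mul,
      ← QuotientGroup.mk_mul]
    congr 1
    group
  by_cases hT : ∃ t ∈ C, t ∉ E ∧ ∃ e ∈ E, e ∉ A ∧ ((t * e * t⁻¹ : H) : H ⧸ A) = (e : H ⧸ A)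
  · obtain ⟨t, ht, htE, e, he, heA, hte⟩ := hT
    obtain ⟨w, hw, hw4⟩ := D.trans hcE hx hy hxy ht htE he heA hte
    obtain ⟨F, hF, hFc⟩ := QA_F D.Ac hw hw4
    refine ⟨F, hF, ?_⟩
    have hCcard : Nat.card C ≤ Nat.card E * 6 := by
      refine (QA_count C E (fun c => (((c * x * c⁻¹ : H) : H ⧸ A), ((c * y * c⁻¹ : H) : H ⧸ A)))
        ({X, Y, X * Y} : Finset (H ⧸ A)).offDiag ?_ ?_).trans (Nat.mul_le_mul_left _ ?_)
      · intro c hc
        rw [Finset.mem_offDiag]
        refine ⟨?_, ?_, ?_⟩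
        · simp only [Finset.mem_insert, Finset.mem_singleton]
          exact D.three hx hy hxy hx hxA
        · simp only [Finset.mem_insert, Finset.mem_singleton]
          exact D.three hx hy hxy hy hyA
        · intro h
          simp only [QuotientGroup.mk_mul, QuotientGroup.mk_inv] at h
          exact D.qne hx hy hxy (mul_left_cancel (mul_right_cancel h))
      · intro c hc d hd h
        rw [Prod.mk.injEq] at h
        exact D.fixE hcE hx hy hxy (C.mul_mem (C.inv_mem hc) hd) (hconj c d x h.1)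
          (hconj c d y h.2)
      · rw [Finset.offDiag_card]
        have h3 : ({X, Y, X * Y} : Finset (H ⧸ A)).card ≤ 3 := Finset.card_le_three
        interval_cases ({X, Y, X * Y} : Finset (H ⧸ A)).card <;> norm_num
    omega
  · push Not at hT
    by_cases hCE : C ≤ E
    · obtain ⟨F, hF, hFc⟩ := QA_F (m := 2) D.Ac (D.EC hx) (by
        intro i h0 h2
        interval_cases i
        rw [pow_one]; exact hxA)
      refine ⟨F, hF, ?_⟩
      have h1 : Nat.card C ≤ Nat.card E := Subgroup.card_le_of_le hCE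
      omega
    · obtain ⟨c, hc, hcE'⟩ := SetLike.not_le_iff_exists.1 hCE
      obtain ⟨F, hF, hFc⟩ := QA_F (m := 3) D.Ac hc (by
        intro i h0 h3 hi
        interval_cases i
        · rw [pow_one] at hi; exact hcE' (D.AE hi)
        · set T : H ⧸ A := (c : H ⧸ A) with hTd
          have hTT : T * T = 1 := by
            rw [← QuotientGroup.mk_mul, QuotientGroup.eq_one_iff, ← pow_two]; exact hi
          have hinv : T⁻¹ = T := inv_eq_of_mul_eq_one_left hTT
          have hsE : c * x * c⁻¹ ∈ E := D.En.conj_mem x hx c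
          have hSX := hT c hc hcE' x hx hxA
          set S : H ⧸ A := ((c * x * c⁻¹ : H) : H ⧸ A) with hS
          have hS' : S = T * X * T⁻¹ := by
            rw [hS]; simp only [QuotientGroup.mk_mul, QuotientGroup.mk_inv]
            rfl
          have hXX : X * X = 1 := D.qsq hx
          have hXS : X * S = S * X := D.qcom hx hsE
          have heE : x * (c * x * c⁻¹) ∈ E := E.mul_mem hx hsE
          have heA : x * (c * x * c⁻¹) ∉ A := by
            intro h
            rw [← QuotientGroup.eq_one_iff, QuotientGroup.mk_mul] at h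
            have h' : X * S = 1 := h
            rw [← hXX] at h'
            exact hSX (mul_left_cancel h')
          apply hT c hc hcE' _ heE heA
          have h6 : ((c * (x * (c * x * c⁻¹)) * c⁻¹ : H) : H ⧸ A) = T * (X * S) * T⁻¹ := by
            simp only [QuotientGroup.mk_mul, QuotientGroup.mk_inv, hS]
            rfl
          have h7 : ((x * (c * x * c⁻¹) : H) : H ⧸ A) = X * S := QuotientGroup.mk_mul _ _ _
          rw [h6, h7]
          have hTS : T * S * T⁻¹ = X := by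
            rw [hS', hinv]
            calc T * (T * X * T) * T = (T * T) * X * (T * T) := by simp only [mul_assoc]
              _ = X := by rw [hTT, one_mul, mul_one]
          calc T * (X * S) * T⁻¹ = (T * X * T⁻¹) * (T * S * T⁻¹) := by group
            _ = S * X := by rw [hTS, ← hS']
            _ = X * S := hXS.symm)
      refine ⟨F, hF, ?_⟩
      have hCcard : Nat.card C ≤ Nat.card E * 3 := by
        refine (QA_count C E (fun c => ((c * x * c⁻¹ : H) : H ⧸ A))
          ({X, Y, X * Y} : Finset (H ⧸ A)) ?_ ?_).trans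
            (Nat.mul_le_mul_left _ Finset.card_le_three)
        · intro c hc
          simp only [Finset.mem_insert, Finset.mem_singleton]
          exact D.three hx hy hxy hx hxA
        · intro c hc d hd h
          by_contra hcd
          exact hT _ (C.mul_mem (C.inv_mem hc) hd) hcd x hx hxA (hconj c d x h)
      omega

end QA_Data

/-- ROW 1bbd-QA -/
theorem QA (H : Type*) [Group H] [Finite H] [Group.IsSolvable H] [Nontrivial H]
    (hcyc : ∀ B : Subgroup H, Comm B → IsCyclic B) :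
    ∃ A : Subgroup H, A.Normal ∧ A ≠ ⊥ ∧ Comm A ∧
      (Subgroup.centralizer (A : Set H) ≤ A ∨
        (¬ Comm (Subgroup.centralizer (A : Set H)) ∧
          ∃ F : Subgroup H, Comm F ∧
            7 * Nat.card (Subgroup.centralizer (A : Set H)) ≤ 48 * (Nat.card F - 1))) := by
  classical
  -- a nontrivial commutative normal subgroup
  obtain ⟨N, hN, hNb, hNc⟩ : ∃ N : Subgroup H, N.Normal ∧ N ≠ ⊥ ∧ Comm N := by
    have hs := (Group.isSolvable_def H).1 inferInstance
    set n := Nat.find hs with hn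
    have hn1 : derivedSeries H n = ⊥ := Nat.find_spec hs
    have hn0 : n ≠ 0 := by
      intro h
      rw [h, derivedSeries_zero] at hn1
      exact top_ne_bot hn1
    obtain ⟨m, hm⟩ := Nat.exists_eq_succ_of_ne_zero hn0
    have hm1 : derivedSeries H m ≠ ⊥ := Nat.find_min hs (by rw [← hn, hm]; exact Nat.lt_succ_self m)
    refine ⟨derivedSeries H m, inferInstance, hm1, ?_⟩
    intro a ha b hb
    have h1 : ⁅a, b⁆ ∈ derivedSeries H (m + 1) := Subgroup.commutator_mem_commutator ha hb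
    have h2 : derivedSeries H (m + 1) = ⊥ := by rw [← hn1, hm]
    rw [h2, Subgroup.mem_bot, commutatorElement_eq_one_iff_mul_comm] at h1
    exact h1
  obtain ⟨A, hNA, hAmax⟩ := exists_maximal_ge_of_wellFoundedGT
    (fun B : Subgroup H => B.Normal ∧ Comm B) N ⟨hN, hNc⟩
  have hAn : A.Normal := hAmax.1.1
  have hA : Comm A := hAmax.1.2
  have hmax : ∀ B : Subgroup H, B.Normal → Comm B → A ≤ B → B ≤ A := fun B h1 h2 h3 =>
    hAmax.2 ⟨h1, h2⟩ h3
  have hAb : A ≠ ⊥ := by
    intro h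
    apply hNb
    rw [h] at hNA
    exact le_bot_iff.1 hNA
  refine ⟨A, hAn, hAb, hA, ?_⟩
  by_cases hCA : Subgroup.centralizer (A : Set H) ≤ A
  · exact Or.inl hCA
  right
  have hAC : A ≤ Subgroup.centralizer (A : Set H) := fun b hb =>
    Subgroup.mem_centralizer_iff.2 fun c hc => hA c hc b hb
  refine ⟨fun h => hCA (hmax _ inferInstance h hAC), ?_⟩
  obtain ⟨E, hE, hAE, hEC, hEA, hEmin⟩ := QA_exists_min
    (inferInstance : (Subgroup.centralizer (A : Set H)).Normal) hAC hCA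
  obtain ⟨z, hzA, hz1, hz2, hcom, hsqA, hsq, hcomA, x, hx, y, hy, hxy⟩ :=
    QA_M hcyc hA hmax hAE hEA hEC hEmin
  have hV : ∀ w ∈ Subgroup.centralizer (A : Set H), ∀ a ∈ A, w ^ 2 = a ^ 2 → w ∈ A :=
    fun w hw a ha h => QA_V hcyc hA Nat.prime_two hzA hz1 hz2 hw ha h
  have hU : ∀ w ∈ Subgroup.centralizer (A : Set H), w ^ 2 = 1 → w = 1 ∨ w = z := by
    intro w hw h
    obtain ⟨q, hq⟩ := Subgroup.mem_zpowers_iff.1 (QA_U hcyc hA Nat.prime_two hzA hz1 hz2 hw h)
    have hz2' : z ^ (2 : ℤ) = 1 := by exact_mod_cast hz2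
    rcases Int.even_or_odd' q with ⟨r, rfl | rfl⟩
    · left; rw [← hq, zpow_mul, hz2', one_zpow]
    · right; rw [← hq, zpow_add, zpow_mul, zpow_one, hz2', one_zpow, one_mul]
  have D : QA_Data A E z := ⟨hAn, hE, hA, hAE, hEC, hzA, hz1, hz2, hcom, hsqA, hsq, hcomA, hV, hU⟩
  have hcE : ∀ d ∈ Subgroup.centralizer (A : Set H), (∀ e ∈ E, d * e = e * d) → d ∈ A := by
    by_contra hcon
    push Not at hcon
    obtain ⟨d, hd, hdE, hdA⟩ := hcon
    have hD1 : A ≤ Subgroup.centralizer (E : Set H) := fun a ha =>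
      Subgroup.mem_centralizer_iff.2 fun e he => (D.cen ha (hEC he)).symm
    have hD2 : ¬ Subgroup.centralizer (E : Set H) ≤ A := fun h =>
      hdA (h (Subgroup.mem_centralizer_iff.2 fun e he => (hdE e he).symm))
    obtain ⟨E', hE', hAE', hED', hEA', hEmin'⟩ := QA_exists_min
      (inferInstance : (Subgroup.centralizer (E : Set H)).Normal) hD1 hD2
    have hEC' : E' ≤ Subgroup.centralizer (A : Set H) :=
      hED'.trans (Subgroup.centralizer_le hAE)
    obtain ⟨z', hzA', hz1', hz2', -, -, hsq', -, x', hx', y', hy', hxy'⟩ :=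
      QA_M hcyc hA hmax hAE' hEA' hEC' hEmin'
    have hzz : z' = z := (hU z' (hAC hzA') hz2').resolve_left hz1'
    subst hzz
    have hx'A : x' ∉ A := fun h => hxy' (D.cen h (hEC' hy'))
    obtain ⟨b, hb, hxb⟩ := hsq' x' hx' hx'A
    obtain ⟨a, ha, hxa⟩ := hsq x hx (D.notA_of_ne hx hy hxy)
    have hcx : ∀ e ∈ E, e * x' = x' * e := fun e he =>
      Subgroup.mem_centralizer_iff.1 (hED' hx') e he
    have h1 := D.two (hEC hx) (hEC' hx') (hcx x hx) ha hb hxa hxb
    have h2 : x' ∈ E := by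
      have h3 := E.mul_mem (E.inv_mem hx) (hAE h1)
      rwa [inv_mul_cancel_left] at h3
    exact hx'A (D.four hx hy hxy h2 (hcx x hx).symm (hcx y hy).symm)
  exact D.final hcE hx hy hxy

end Pool.Agent.Lib.MP_1bbd88_ag.Q
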